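import Pool.Agent.Helper29_XQ.Flq

/-!
Squad XQ, part N: almost all convex polygons satisfy `GenX`. Assembly.
-/

namespace Pool.Agent.XQ.H29

open MeasureTheory Complex Filter Topology Pool.Agent.H62T
open scoped Fin.NatCast
open Pool.Agent.AEU
open Pool.Agent.AEU.H29 (GA GU GI Di Sa un Dl El Fl Rn mem_sides gi_ae ae_chart gen_of_gi
  ell3_eq flip_eq)
open H62T.H85 (nrm off)

variable {n : ℕ}

theorem eq_vx {s t : HP} (h : dt s.1 t.1 ≠ 0) {x : ℂ} (h1 : ip s.1 x = s.2)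
    (h2 : ip t.1 x = t.2) : x = vx s t := by
  have a : (dt s.1 t.1 : ℂ) ≠ 0 := by exact_mod_cast h
  unfold vx
  rw [eq_div_iff a, ← h1, ← h2]
  apply Complex.ext
  · simp [dt, ip]
    ring
  · simp [dt, ip]
    ring

theorem rf_eq {u : Fin n → ℂ} (hu : GU u) (H : Fin n → ℝ) {a c : Fin n} (hac : a ≠ c)
    {f : Iso2} (h1 : mv f (u a, H a) = (u c, H c)) (h2 : mv f (u c, H c) = (u a, H a)) (x : ℂ) :
    f x = rf u H a c x := by
  have d : dt (u a) (u c) ≠ 0 := hu.dt0 _ _ hac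
  unfold mv at h1 h2
  simp only [Prod.mk.injEq] at h1 h2
  obtain ⟨h3, h4⟩ := h1
  obtain ⟨h5, h6⟩ := h2
  rw [h3] at h4
  rw [h5] at h6
  have ni : (u a) * (starRingEnd ℂ) (u a) = 1 := by
    rw [Complex.mul_conj, Complex.normSq_eq_norm_sq, hu.nr]
    norm_num
  have nj : (u c) * (starRingEnd ℂ) (u c) = 1 := by
    rw [Complex.mul_conj, Complex.normSq_eq_norm_sq, hu.nr]
    norm_num
  have id1 : (dt (u a) (u c)) • x = (- dt (u c) x) • u a + (- dt x (u a)) • u c := by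
    apply Complex.ext <;> simp [dt] <;> ring
  have hL : f.linearIsometryEquiv x = u a * u c * (starRingEnd ℂ) x := by
    have e1 := congrArg f.linearIsometryEquiv id1
    rw [map_add, map_smul, map_smul, map_smul, h3, h5] at e1
    have e2 : (dt (u a) (u c)) • (u a * u c * (starRingEnd ℂ) x)
        = (- dt (u c) x) • u c + (- dt x (u a)) • u a := by
      have e3 := congrArg (fun z : ℂ => u a * u c * (starRingEnd ℂ) z) id1
      simp only [map_add, Complex.real_smul, map_mul, Complex.conj_ofReal] at e3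
      simp only [Complex.real_smul]
      push_cast at e3 ⊢
      linear_combination e3 + (- dt (u c) x : ℂ) * u c * ni + (- dt x (u a) : ℂ) * u a * nj
    exact smul_right_injective ℂ d (e1.trans e2.symm)
  have h0 : f 0 = vx (u a, H a - H c) (u c, H c - H a) := by
    apply eq_vx d
    · simp only
      linarith
    · simp only
      linarith
  have hx : f x = f.linearIsometryEquiv x + f 0 := by
    have := f.map_vadd 0 x
    simpa using this
  rw [hx, hL, h0, rf]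

theorem ne4_idx {u : Fin n → ℂ} {H : Fin n → ℝ} {i j k l : Fin n}
    (h : Ne4 ((u i, H i) : HP) (u j, H j) (u k, H k) (u l, H l)) : D4 i j k l := by
  have idx : ∀ i j : Fin n, ((u i, H i) : HP) ≠ (u j, H j) → i ≠ j := by
    rintro i j h rfl
    exact h rfl
  obtain ⟨h1, h2, h3, h4, h5, h6⟩ := h
  exact ⟨idx _ _ h1, idx _ _ h2, idx _ _ h3, idx _ _ h4, idx _ _ h5, idx _ _ h6⟩

/-- all conditions -/
structure All {n : ℕ} (u : Fin n → ℂ) (H : Fin n → ℝ) : Prop where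
  gux : GUX u
  gi : GI u H
  cf : CF u H
  c1 : C1 u H
  c2 : C2 u H
  c3 : C3 u H
  c4 : C4 u H
  c5 : C5 u H
  c6 : C6 u H
  c8 : C8 u H

theorem genx_of [NeZero n] (hn : 3 ≤ n) {v : Fin n → ℂ} (hv : H62T.H85.CC v)
    (h : All (nrm v) (off v)) : GenX (sides (nrm v) (off v)) := by
  have hgen : Gen (sides (nrm v) (off v)) := gen_of_gi hn hv h.gux.toGA h.gi
  have hinj : Function.Injective fun i => ((nrm v i, off v i) : HP) := H62T.H85.side_inj hn hv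
  have hu : GU (nrm v) := h.gux.toGU
  set u := nrm v with hudef
  set H := off v with hHdef
  have idx : ∀ i j : Fin n, ((u i, H i) : HP) ≠ (u j, H j) → i ≠ j := by
    rintro i j h rfl
    exact h rfl
  have tri : ∀ a b c, Tri (sides u H) a b c → ∃ i j k, Di i j k ∧ (u i, H i) = a ∧
      (u j, H j) = b ∧ (u k, H k) = c := by
    rintro a b c ⟨ha, hb, hc, h1, h2, h3⟩
    obtain ⟨i, rfl⟩ := mem_sides.1 ha
    obtain ⟨j, rfl⟩ := mem_sides.1 hb
    obtain ⟨k, rfl⟩ := mem_sides.1 hc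
    exact ⟨i, j, k, ⟨idx _ _ h1, idx _ _ h2, idx _ _ h3⟩, rfl, rfl, rfl⟩
  refine ⟨hgen, ?_, ?_, ?_, ?_, ?_, ?_, ?_, ?_, ?_, ?_⟩
  · intro a ha b hb c hc d hd hne
    obtain ⟨i, rfl⟩ := mem_sides.1 ha
    obtain ⟨j, rfl⟩ := mem_sides.1 hb
    obtain ⟨k, rfl⟩ := mem_sides.1 hc
    obtain ⟨l, rfl⟩ := mem_sides.1 hd
    exact h.gux.x1 i j k l (ne4_idx hne)
  · intro a b c habc
    obtain ⟨i, j, k, hd, rfl, rfl, rfl⟩ := tri _ _ _ habc
    exact h.gux.x2 i j k hd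
  · intro i j q a b c hijq habc f hf hf' e
    obtain ⟨i, j, q, hd, rfl, rfl, rfl⟩ := tri _ _ _ hijq
    obtain ⟨a, b, c, hd3, rfl, rfl, rfl⟩ := tri _ _ _ habc
    rw [ell3_eq, flip_eq hu H hd.1 hf hf'] at e
    apply h.cf i j q a b c hd hd3
    rw [mul_left_cancel₀ two_ne_zero e]
  · intro i hi j hj q hq r hr hne
    obtain ⟨i, rfl⟩ := mem_sides.1 hi
    obtain ⟨j, rfl⟩ := mem_sides.1 hj
    obtain ⟨q, rfl⟩ := mem_sides.1 hq
    obtain ⟨r, rfl⟩ := mem_sides.1 hr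
    exact h.c1 i j q r (ne4_idx hne)
  · intro i hi j hj q hq r hr q' hq' r' hr' hne hne' e
    obtain ⟨i, rfl⟩ := mem_sides.1 hi
    obtain ⟨j, rfl⟩ := mem_sides.1 hj
    obtain ⟨q, rfl⟩ := mem_sides.1 hq
    obtain ⟨r, rfl⟩ := mem_sides.1 hr
    obtain ⟨q', rfl⟩ := mem_sides.1 hq'
    obtain ⟨r', rfl⟩ := mem_sides.1 hr'
    rcases h.c2 i j q r q' r' (ne4_idx hne) (ne4_idx hne') e with ⟨rfl, rfl⟩ | ⟨rfl, rfl⟩
    · exact Or.inl ⟨rfl, rfl⟩
    · exact Or.inr ⟨rfl, rfl⟩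
  · intro i hi j hj k hk l hl i' hi' j' hj' k' hk' l' hl' hne hne' e
    obtain ⟨i, rfl⟩ := mem_sides.1 hi
    obtain ⟨j, rfl⟩ := mem_sides.1 hj
    obtain ⟨k, rfl⟩ := mem_sides.1 hk
    obtain ⟨l, rfl⟩ := mem_sides.1 hl
    obtain ⟨i', rfl⟩ := mem_sides.1 hi'
    obtain ⟨j', rfl⟩ := mem_sides.1 hj'
    obtain ⟨k', rfl⟩ := mem_sides.1 hk'
    obtain ⟨l', rfl⟩ := mem_sides.1 hl'
    have hs := h.c3 i j k l i' j' k' l' (ne4_idx hne) (ne4_idx hne') e
    have key : ∀ a b c d : Fin n, ∀ s : HP,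
        (s = (u a, H a) ∨ s = (u b, H b) ∨ s = (u c, H c) ∨ s = (u d, H d)) ↔
          ∃ m, (m = a ∨ m = b ∨ m = c ∨ m = d) ∧ s = (u m, H m) := by
      intro a b c d s
      constructor
      · rintro (h | h | h | h)
        · exact ⟨a, Or.inl rfl, h⟩
        · exact ⟨b, Or.inr (Or.inl rfl), h⟩
        · exact ⟨c, Or.inr (Or.inr (Or.inl rfl)), h⟩
        · exact ⟨d, Or.inr (Or.inr (Or.inr rfl)), h⟩
      · rintro ⟨m, rfl | rfl | rfl | rfl, h⟩
        · exact Or.inl h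
        · exact Or.inr (Or.inl h)
        · exact Or.inr (Or.inr (Or.inl h))
        · exact Or.inr (Or.inr (Or.inr h))
    ext1 s
    simp only [Finset.mem_insert, Finset.mem_singleton]
    rw [key, key]
    constructor
    · rintro ⟨m, h1, h2⟩
      exact ⟨m, (hs m).1 h1, h2⟩
    · rintro ⟨m, h1, h2⟩
      exact ⟨m, (hs m).2 h1, h2⟩
  · intro a ha b hb b' hb' c hc i hi j hj k hk l hl hne hne' f hf hf' e
    obtain ⟨a, rfl⟩ := mem_sides.1 ha
    obtain ⟨b, rfl⟩ := mem_sides.1 hb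
    obtain ⟨b', rfl⟩ := mem_sides.1 hb'
    obtain ⟨c, rfl⟩ := mem_sides.1 hc
    obtain ⟨i, rfl⟩ := mem_sides.1 hi
    obtain ⟨j, rfl⟩ := mem_sides.1 hj
    obtain ⟨k, rfl⟩ := mem_sides.1 hk
    obtain ⟨l, rfl⟩ := mem_sides.1 hl
    have hd := ne4_idx hne
    rw [rf_eq hu H hd.2.2.1 hf hf'] at e
    exact h.c4 a b b' c i j k l hd (ne4_idx hne') e
  · intro a ha b hb b' hb' c hc hne f hf hf' e
    obtain ⟨a, rfl⟩ := mem_sides.1 ha
    obtain ⟨b, rfl⟩ := mem_sides.1 hb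
    obtain ⟨b', rfl⟩ := mem_sides.1 hb'
    obtain ⟨c, rfl⟩ := mem_sides.1 hc
    have hd := ne4_idx hne
    rw [rf_eq hu H hd.2.2.1 hf hf'] at e
    exact h.c5 a b b' c hd e
  · intro i hi j hj k hk s hs hne
    obtain ⟨i, rfl⟩ := mem_sides.1 hi
    obtain ⟨j, rfl⟩ := mem_sides.1 hj
    obtain ⟨k, rfl⟩ := mem_sides.1 hk
    obtain ⟨s, rfl⟩ := mem_sides.1 hs
    exact h.c6 i j k s (ne4_idx hne)
  · intro i hi j hj q hq r hr hne α θ h1 h2 h3 h4 h5 h6 m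
    obtain ⟨i, rfl⟩ := mem_sides.1 hi
    obtain ⟨j, rfl⟩ := mem_sides.1 hj
    obtain ⟨q, rfl⟩ := mem_sides.1 hq
    obtain ⟨r, rfl⟩ := mem_sides.1 hr
    exact h.c8 i j q r (ne4_idx hne) α θ h1 h2 h3 h4 h5 h6 m

/-- NEND -/
theorem genx (h1 : N1Statement) (h2 : N2Statement) (h3 : N3Statement) (h4 : N4Statement)
    (h5 : N5Statement) (h6 : N6Statement) (h8 : N8Statement) : GenXStatement := by
  intro n _ hn
  have a : ∀ᵐ p : (Fin n → ℝ) × (Fin n → ℝ), All (un p.1) p.2 := by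
    have b : ∀ᵐ p : (Fin n → ℝ) × (Fin n → ℝ), GUX (un p.1) := by
      rw [Measure.volume_eq_prod]
      exact Measure.quasiMeasurePreserving_fst.ae (angX n)
    filter_upwards [b, gi_ae H75.ang, cfThm n, h1 n, h2 n, h3 n, h4 n, h5 n, h6 n, h8 n] with p
      g1 g2 g3 g4 g5 g6 g7 g8 g9 g10
    exact ⟨g1, g2, g3, g4, g5, g6, g7, g8, g9, g10⟩
  filter_upwards [ae_chart (n := n) hn (G := fun u H => All u H) a] with v hv hc
  exact genx_of hn hc (hv hc)

end Pool.Agent.XQ.H29
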