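import Pool.Agent.Helper29_XQ.Fub

/-!
Squad XQ, part N: the condition flipq.
-/

namespace Pool.Agent.XQ.H29

open MeasureTheory Complex Filter Topology Pool.Agent.H62T
open Pool.Agent.AEU
open Pool.Agent.AEU.H29 (GA GU GI Di Sa un Dl El Fl Rn ac ac_same ac_pos ac_zero dt_Rn sq_dt_ip
  abs_El_single El_lin Fl_lin ae_abs_ne measurable_Fl measurable_El)

variable {n : ℕ}

theorem sa_of_sub {a b c i j q : Fin n} (h : Di a b c) (ha : a = i ∨ a = j ∨ a = q)
    (hb : b = i ∨ b = j ∨ b = q) (hc : c = i ∨ c = j ∨ c = q) : Sa a b c i j q := by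
  obtain ⟨h1, h2, h3⟩ := h
  intro m
  rcases ha with rfl | rfl | rfl <;> rcases hb with rfl | rfl | rfl <;>
    rcases hc with rfl | rfl | rfl <;> first
      | exact absurd rfl h1
      | exact absurd rfl h2
      | exact absurd rfl h3
      | tauto

theorem dt_lt_add {u : Fin n → ℂ} (hu : GU u) {i j q : Fin n} (h : Di i j q) :
    |dt (u i) (u j)| < |dt (u j) (u q)| + |dt (u i) (u q)| := by
  obtain ⟨h1, h2, h3⟩ := h
  have hq : (u q).re ^ 2 + (u q).im ^ 2 = 1 := by
    have := Complex.sq_norm (u q)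
    rw [hu.nr, Complex.normSq_apply] at this
    nlinarith
  have e : dt (u i) (u j) = dt (u i) (u q) * ip (u j) (u q) - ip (u i) (u q) * dt (u j) (u q) := by
    unfold dt ip
    linear_combination (-((u i).re * (u j).im - (u i).im * (u j).re)) * hq
  rw [e]
  have a1 := hu.dtpos h2
  have a2 := hu.dtpos h3
  have b1 := hu.iplt h2
  have b2 := hu.iplt h3
  calc |dt (u i) (u q) * ip (u j) (u q) - ip (u i) (u q) * dt (u j) (u q)|
      ≤ |dt (u i) (u q) * ip (u j) (u q)| + |ip (u i) (u q) * dt (u j) (u q)| := abs_sub _ _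
    _ = |dt (u i) (u q)| * |ip (u j) (u q)| + |ip (u i) (u q)| * |dt (u j) (u q)| := by
        rw [abs_mul, abs_mul]
    _ < |dt (u j) (u q)| + |dt (u i) (u q)| := by nlinarith

theorem key_flq {u : Fin n → ℂ} (hu : GU u) {i j q a b c : Fin n} (hd : Di i j q)
    (habc : Di a b c) :
    ∃ m, |Fl u i j q q (Pi.single m 1)| ≠ |El u a b c (Pi.single m 1)| := by
  obtain ⟨h1, h2, h3⟩ := id hd
  by_cases hs : (a = i ∨ a = j ∨ a = q) ∧ (b = i ∨ b = j ∨ b = q) ∧ (c = i ∨ c = j ∨ c = q)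
  · have hsa := sa_of_sub habc hs.1 hs.2.1 hs.2.2
    refine ⟨q, ?_⟩
    rw [abs_El_single u habc.1 habc.2.1 habc.2.2, ac_same u hsa habc hd]
    have e1 : ac u i j q q = |dt (u i) (u j)| := by
      unfold ac
      rw [if_neg h2.symm, if_neg h3.symm, if_pos rfl]
    have e2 : Fl u i j q q (Pi.single q 1) = |dt (u j) (u q)| + |dt (u i) (u q)| := by
      unfold Fl
      rw [dt_Rn hu]
      simp [h2, h3]
    rw [e1, e2]
    have h4 := dt_lt_add hu hd
    have h5 : 0 ≤ |dt (u j) (u q)| + |dt (u i) (u q)| := by positivity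
    rw [abs_of_nonneg h5]
    exact h4.ne'
  · have hm : ∃ m, (m = a ∨ m = b ∨ m = c) ∧ ¬ (m = i ∨ m = j ∨ m = q) := by
      by_contra hcon
      push Not at hcon
      exact hs ⟨hcon a (Or.inl rfl), hcon b (Or.inr (Or.inl rfl)), hcon c (Or.inr (Or.inr rfl))⟩
    obtain ⟨m, hm1, hm2⟩ := hm
    simp only [not_or] at hm2
    refine ⟨m, ?_⟩
    rw [abs_El_single u habc.1 habc.2.1 habc.2.2]
    have e2 : Fl u i j q q (Pi.single m 1) = 0 := by
      unfold Fl
      simp [Ne.symm hm2.1, Ne.symm hm2.2.1, Ne.symm hm2.2.2]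
    rw [e2, abs_zero]
    exact (ac_pos hu.toGA habc hm1).ne

/-- NNF -/
theorem cfThm : CFStatement := by
  intro n
  unfold CF
  simp only [ae_all_iff]
  intro i j q a b c hd habc
  refine fub (C := fun u H => |Fl u i j q q H| ≠ |El u a b c H|) ?_ (fun u hu => ?_)
  · exact (measurableSet_eq_fun (measurable_Fl i j q q).abs (measurable_El a b c).abs).compl
  · exact ae_abs_ne (Fl_lin u i j q q) (El_lin u a b c) (key_flq hu.toGU hd habc)

end Pool.Agent.XQ.H29
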