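import Pool.Agent.Helper36_XQ.Stmt4

/-!
Squad XQ (MP_5b0138_an), part A4, module ARC (`ArcStatement`): from the bounds in time to the bounds
of the Laplace transform.
-/

set_option autoImplicit false

namespace Pool.Agent.XQ.K4.H29

open MeasureTheory Complex Filter Topology
open scoped ENNReal NNReal

/-- a polynomial factor and the negative powers of `t` are absorbed -/
lemma absorb (C : ℝ) (p : ℕ) {b : ℝ} (hb : 0 < b) : ∃ K : ℝ, 0 ≤ K ∧ ∀ t : ℝ, 0 < t →
    |C| * (1 + t) ^ p / t ^ 2 * Real.exp (-(b / t)) * Real.exp (-t)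
      ≤ K * Real.exp (-(t / 2)) := by
  refine ⟨|C| * (2 ^ p * p.factorial * Real.exp (1 / 2)) * (2 / b ^ 2), by positivity,
    fun t ht => ?_⟩
  have h1 : (1 + t) ^ p ≤ 2 ^ p * p.factorial * Real.exp (1 / 2) * Real.exp (t / 2) := by
    have := Real.pow_div_factorial_le_exp (x := (1 + t) / 2) (by positivity) p
    rw [div_le_iff₀ (by positivity)] at this
    have e1 : Real.exp ((1 + t) / 2) = Real.exp (1 / 2) * Real.exp (t / 2) := by
      rw [← Real.exp_add]; ring_nf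
    have e2 : (1 + t) ^ p = 2 ^ p * ((1 + t) / 2) ^ p := by
      rw [← mul_pow]; congr 1; ring
    rw [e2]
    calc (2 : ℝ) ^ p * ((1 + t) / 2) ^ p ≤ 2 ^ p * (Real.exp ((1 + t) / 2) * p.factorial) := by
          gcongr
      _ = _ := by rw [e1]; ring
  have h2 : 1 / t ^ 2 * Real.exp (-(b / t)) ≤ 2 / b ^ 2 := by
    have := Real.quadratic_le_exp_of_nonneg (x := b / t) (by positivity)
    have h3 : (b / t) ^ 2 / 2 ≤ Real.exp (b / t) := by
      have : 0 < b / t := by positivity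
      linarith
    rw [Real.exp_neg, ← div_eq_mul_inv, div_le_div_iff₀ (by positivity) (by positivity), one_div,
      inv_mul_eq_div, div_le_iff₀ (by positivity)]
    have e : (b / t) ^ 2 * t ^ 2 = b ^ 2 := by field_simp
    nlinarith [pow_pos ht 2]
  have h3 : Real.exp (t / 2) * Real.exp (-t) = Real.exp (-(t / 2)) := by
    rw [← Real.exp_add]; ring_nf
  calc |C| * (1 + t) ^ p / t ^ 2 * Real.exp (-(b / t)) * Real.exp (-t)
      = |C| * (1 + t) ^ p * (1 / t ^ 2 * Real.exp (-(b / t))) * Real.exp (-t) := by ring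
    _ ≤ |C| * (2 ^ p * p.factorial * Real.exp (1 / 2) * Real.exp (t / 2)) * (2 / b ^ 2)
        * Real.exp (-t) := by gcongr
    _ = |C| * (2 ^ p * p.factorial * Real.exp (1 / 2)) * (2 / b ^ 2)
        * (Real.exp (t / 2) * Real.exp (-t)) := by ring
    _ = _ := by rw [h3]

/-- completing the square in the exponent -/
lemma expo {κ t L' b m : ℝ} (hκ : 1 ≤ κ) (ht : 0 < t) (hm : m = L' ^ 2 + 4 * b) :
    Real.exp (-(κ ^ 2 * t)) * Real.exp (-(m / (4 * t)))
      ≤ Real.exp L' * Real.exp (-(L' * κ)) * Real.exp (-t) * Real.exp (-(b / t)) := by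
  rw [← Real.exp_add, ← Real.exp_add, ← Real.exp_add, ← Real.exp_add]
  apply Real.exp_le_exp.2
  have h1 : (κ - 1) * L' ≤ (κ ^ 2 - 1) * t + L' ^ 2 / (4 * t) := by
    rw [← sub_nonneg]
    have e : (κ ^ 2 - 1) * t + L' ^ 2 / (4 * t) - (κ - 1) * L'
        = 2 * (κ - 1) * t + (2 * (κ - 1) * t - L') ^ 2 / (4 * t) := by
      field_simp; ring
    rw [e]
    have : 0 ≤ κ - 1 := by linarith
    positivity
  have e : m / (4 * t) = L' ^ 2 / (4 * t) + b / t := by rw [hm]; field_simp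
  rw [e]
  nlinarith

/-- the Gaussian error term in the transform -/
lemma err_bound (C : ℝ) (p : ℕ) {m L : ℝ} (hL : 0 < L) (hm : L ^ 2 < m) :
    ∃ L' K : ℝ, L < L' ∧ 0 ≤ K ∧ ∀ κ t : ℝ, 1 ≤ κ → 0 < t →
      ENNReal.ofReal (Real.exp (-(κ ^ 2 * t)) / t) * Er C p m t
        ≤ ENNReal.ofReal (K * Real.exp (-(L' * κ))) * ENNReal.ofReal (Real.exp (-(t / 2))) := by
  have h1 : L < √m := (Real.lt_sqrt hL.le).2 hm
  set L' : ℝ := (L + √m) / 2 with hL'
  have h2 : L < L' := by rw [hL']; linarith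
  have h3 : L' < √m := by rw [hL']; linarith
  have h4 : L' ^ 2 < m := by
    have := Real.sq_sqrt (show 0 ≤ m by nlinarith)
    nlinarith
  obtain ⟨K, hK, hb⟩ := absorb C p (b := (m - L' ^ 2) / 4) (by linarith)
  refine ⟨L', Real.exp L' * K, h2, by positivity, fun κ t hκ ht => ?_⟩
  unfold Er
  rw [← ENNReal.ofReal_mul (by positivity), ← ENNReal.ofReal_mul (by positivity)]
  apply ENNReal.ofReal_le_ofReal
  have e1 := expo (κ := κ) (t := t) (L' := L') (b := (m - L' ^ 2) / 4) (m := m) hκ ht (by ring)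
  have e2 := hb t ht
  calc Real.exp (-(κ ^ 2 * t)) / t * (C * (1 + t) ^ p / t * Real.exp (-(m / (4 * t))))
      = C * ((1 + t) ^ p / t ^ 2) * (Real.exp (-(κ ^ 2 * t)) * Real.exp (-(m / (4 * t)))) := by
        field_simp
    _ ≤ |C| * ((1 + t) ^ p / t ^ 2) * (Real.exp (-(κ ^ 2 * t)) * Real.exp (-(m / (4 * t)))) := by
        gcongr
        exact le_abs_self C
    _ ≤ |C| * ((1 + t) ^ p / t ^ 2) * (Real.exp L' * Real.exp (-(L' * κ)) * Real.exp (-t)
        * Real.exp (-((m - L' ^ 2) / 4 / t))) := by gcongr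
    _ = Real.exp L' * Real.exp (-(L' * κ)) * (|C| * (1 + t) ^ p / t ^ 2
        * Real.exp (-((m - L' ^ 2) / 4 / t)) * Real.exp (-t)) := by ring
    _ ≤ Real.exp L' * Real.exp (-(L' * κ)) * (K * Real.exp (-(t / 2))) := by gcongr
    _ = _ := by ring

/-- short durations -/
lemma short_bound (C : ℝ) (p : ℕ) {m0 L : ℝ} (hL : 0 < L) (hm0 : 0 < m0) :
    ∃ a K : ℝ, 0 < a ∧ 0 ≤ K ∧ ∀ κ t : ℝ, 1 ≤ κ → 0 < t → t < a / κ →
      ENNReal.ofReal (Real.exp (-(κ ^ 2 * t)) / t) * Er C p m0 t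
        ≤ ENNReal.ofReal (K * Real.exp (-((L + 1) * κ))) * ENNReal.ofReal (Real.exp (-(t / 2))) := by
  obtain ⟨K, hK, hb⟩ := absorb C p (b := m0 / 8) (by linarith)
  refine ⟨m0 / (8 * (L + 1)), K, by positivity, hK, fun κ t hκ ht hta => ?_⟩
  unfold Er
  rw [← ENNReal.ofReal_mul (by positivity), ← ENNReal.ofReal_mul (by positivity)]
  apply ENNReal.ofReal_le_ofReal
  have hκ0 : 0 < κ := by linarith
  have e0 : Real.exp (-(κ ^ 2 * t)) ≤ Real.exp (-t) := by
    apply Real.exp_le_exp.2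
    nlinarith [mul_pos hκ0 ht]
  have e1 : Real.exp (-(m0 / (4 * t))) ≤ Real.exp (-((L + 1) * κ)) * Real.exp (-(m0 / 8 / t)) := by
    rw [← Real.exp_add]
    apply Real.exp_le_exp.2
    have h1 : (L + 1) * κ ≤ m0 / 8 / t := by
      rw [le_div_iff₀ ht]
      rw [lt_div_iff₀ hκ0, lt_div_iff₀ (by positivity)] at hta
      nlinarith
    have h2 : m0 / (4 * t) = m0 / 8 / t + m0 / 8 / t := by field_simp; norm_num
    rw [h2]
    linarith
  have e2 := hb t ht
  calc Real.exp (-(κ ^ 2 * t)) / t * (C * (1 + t) ^ p / t * Real.exp (-(m0 / (4 * t))))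
      = C * ((1 + t) ^ p / t ^ 2) * (Real.exp (-(κ ^ 2 * t)) * Real.exp (-(m0 / (4 * t)))) := by
        field_simp
    _ ≤ |C| * ((1 + t) ^ p / t ^ 2) * (Real.exp (-(κ ^ 2 * t)) * Real.exp (-(m0 / (4 * t)))) := by
        gcongr
        exact le_abs_self C
    _ ≤ |C| * ((1 + t) ^ p / t ^ 2) * (Real.exp (-t) * (Real.exp (-((L + 1) * κ))
        * Real.exp (-(m0 / 8 / t)))) := by gcongr
    _ = Real.exp (-((L + 1) * κ)) * (|C| * (1 + t) ^ p / t ^ 2
        * Real.exp (-(m0 / 8 / t)) * Real.exp (-t)) := by ring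
    _ ≤ Real.exp (-((L + 1) * κ)) * (K * Real.exp (-(t / 2))) := by gcongr
    _ = _ := by ring

/-- mass of the dominating exponential -/
lemma dom_fin : ∫⁻ t in Set.Ioi (0 : ℝ), ENNReal.ofReal (Real.exp (-(t / 2))) ≠ ⊤ := by
  have h := (exp_neg_integrableOn_Ioi 0 (b := 1 / 2) (by norm_num)).lintegral_lt_top
  refine (lt_of_le_of_lt (le_of_eq ?_) h).ne
  apply lintegral_congr
  intro t
  congr 2
  ring

/-- powers against exponentials -/
lemma pow_exp (q B ε η : ℝ) (hε : 0 < ε) (hη : 0 < η) :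
    ∀ᶠ κ : ℝ in atTop, B * Real.exp (-(η * κ)) ≤ ε * κ ^ (3 - q) := by
  have h := tendsto_rpow_mul_exp_neg_mul_atTop_nhds_zero (q - 3) η hη
  have h1 : Tendsto (fun κ : ℝ => B * (κ ^ (q - 3) * Real.exp (-η * κ))) atTop (𝓝 (B * 0)) :=
    h.const_mul B
  rw [mul_zero] at h1
  filter_upwards [h1.eventually (gt_mem_nhds hε), eventually_gt_atTop 0] with κ h2 hκ
  have e : κ ^ (q - 3) * κ ^ (3 - q) = 1 := by
    rw [← Real.rpow_add hκ]; simp
  have hp : 0 < κ ^ (3 - q) := Real.rpow_pos_of_pos hκ _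
  calc B * Real.exp (-(η * κ)) = B * (κ ^ (q - 3) * Real.exp (-η * κ)) * κ ^ (3 - q) := by
        rw [show B * (κ ^ (q - 3) * Real.exp (-η * κ)) * κ ^ (3 - q)
          = B * Real.exp (-η * κ) * (κ ^ (q - 3) * κ ^ (3 - q)) by ring, e, mul_one, neg_mul]
    _ ≤ ε * κ ^ (3 - q) := by gcongr

lemma meas_er (C : ℝ) (p : ℕ) (m : ℝ) : Measurable (fun t : ℝ => Er C p m t) := by
  unfold Er
  fun_prop

/-- the transform from above -/
lemma upper_int {V Q : ℝ → ℝ≥0∞} {C m m0 a K K' D1 D2 : ℝ} {p : ℕ} {κ : ℝ} (hκ : 1 ≤ κ)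
    (hQ : Measurable Q) (ha : 0 < a)
    (h1 : ∀ t : ℝ, 0 < t → V t ≤ ENNReal.ofReal (C / t ^ 2) * Q t + Er C p m t)
    (h3 : ∀ t : ℝ, 0 < t → V t ≤ Er C p m0 t)
    (he : ∀ t : ℝ, 0 < t → ENNReal.ofReal (Real.exp (-(κ ^ 2 * t)) / t) * Er C p m t
        ≤ ENNReal.ofReal (K * D1) * ENNReal.ofReal (Real.exp (-(t / 2))))
    (hs : ∀ t : ℝ, 0 < t → t < a / κ →
      ENNReal.ofReal (Real.exp (-(κ ^ 2 * t)) / t) * Er C p m0 t
        ≤ ENNReal.ofReal (K' * D2) * ENNReal.ofReal (Real.exp (-(t / 2)))) :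
    ∫⁻ t in Set.Ioi (0 : ℝ), ENNReal.ofReal (Real.exp (-(κ ^ 2 * t)) / t) * V t
      ≤ ENNReal.ofReal (K' * D2) * (∫⁻ t in Set.Ioi (0 : ℝ), ENNReal.ofReal (Real.exp (-(t / 2))))
        + ENNReal.ofReal (|C| * κ ^ 3 / a ^ 3)
          * (∫⁻ t in Set.Ioi (0 : ℝ), ENNReal.ofReal (Real.exp (-(κ ^ 2 * t))) * Q t)
        + ENNReal.ofReal (K * D1)
          * ∫⁻ t in Set.Ioi (0 : ℝ), ENNReal.ofReal (Real.exp (-(t / 2))) := by
  have hκ0 : 0 < κ := by linarith
  rw [← lintegral_const_mul _ (by fun_prop), ← lintegral_const_mul _ (by fun_prop),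
    ← lintegral_const_mul _ (by fun_prop), ← lintegral_add_left (by fun_prop),
    ← lintegral_add_left (by fun_prop)]
  refine setLIntegral_mono' measurableSet_Ioi fun t ht => ?_
  have ht : 0 < t := ht
  rcases lt_or_ge t (a / κ) with h | h
  · refine le_trans ?_ le_self_add
    refine le_trans ?_ le_self_add
    exact (mul_le_mul_right (h3 t ht) _).trans (hs t ht h)
  · refine (mul_le_mul_right (h1 t ht) _).trans ?_
    rw [mul_add]
    refine add_le_add (le_trans ?_ le_add_self) (he t ht)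
    rw [← mul_assoc, ← mul_assoc, ← ENNReal.ofReal_mul (by positivity),
      ← ENNReal.ofReal_mul (by positivity)]
    refine mul_le_mul_left (ENNReal.ofReal_le_ofReal ?_) _
    have h5 : 1 / t ^ 3 ≤ κ ^ 3 / a ^ 3 := by
      rw [div_le_iff₀ hκ0] at h
      rw [div_le_div_iff₀ (by positivity) (by positivity), one_mul]
      calc a ^ 3 ≤ (t * κ) ^ 3 := by gcongr
        _ = κ ^ 3 * t ^ 3 := by ring
    calc Real.exp (-(κ ^ 2 * t)) / t * (C / t ^ 2)
        = C * (1 / t ^ 3) * Real.exp (-(κ ^ 2 * t)) := by field_simp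
      _ ≤ |C| * (κ ^ 3 / a ^ 3) * Real.exp (-(κ ^ 2 * t)) := by
          gcongr
          exact le_abs_self C
      _ = _ := by ring

/-- the transform from below -/
lemma lower_int {V Q : ℝ → ℝ≥0∞} {C c m b K D1 D3 : ℝ} {p : ℕ} {κ : ℝ} (hκ : 1 ≤ κ)
    (hV : Measurable V) (hQ : Measurable Q) (hb : 0 < b) (hc : 0 < c)
    (hD3 : Real.exp (-(κ * b / 2)) = D3)
    (h2 : ∀ t : ℝ, 0 < t → ENNReal.ofReal (c / t ^ 2) * Q t ≤ V t + Er C p m t)
    (he : ∀ t : ℝ, 0 < t → ENNReal.ofReal (Real.exp (-(κ ^ 2 * t)) / t) * Er C p m t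
        ≤ ENNReal.ofReal (K * D1) * ENNReal.ofReal (Real.exp (-(t / 2)))) :
    ∫⁻ t in Set.Ioi (0 : ℝ), ENNReal.ofReal (Real.exp (-(κ ^ 2 * t))) * Q t
      ≤ ENNReal.ofReal (b ^ 3 / (c * κ ^ 3))
        * ((∫⁻ t in Set.Ioi (0 : ℝ), ENNReal.ofReal (Real.exp (-(κ ^ 2 * t)) / t) * V t)
          + ENNReal.ofReal (K * D1)
            * ∫⁻ t in Set.Ioi (0 : ℝ), ENNReal.ofReal (Real.exp (-(t / 2))))
        + ENNReal.ofReal D3
          * ∫⁻ t in Set.Ioi (0 : ℝ), ENNReal.ofReal (Real.exp (-((κ / √2) ^ 2 * t))) * Q t := by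
  have hκ0 : 0 < κ := by linarith
  rw [← lintegral_const_mul _ (by fun_prop), ← lintegral_add_left (by fun_prop),
    ← lintegral_const_mul _ (by fun_prop), ← lintegral_const_mul _ (by fun_prop),
    ← lintegral_add_left (by fun_prop)]
  refine setLIntegral_mono' measurableSet_Ioi fun t ht => ?_
  have ht : 0 < t := ht
  rcases le_or_gt t (b / κ) with h | h
  · refine le_trans ?_ le_self_add
    calc ENNReal.ofReal (Real.exp (-(κ ^ 2 * t))) * Q t
        ≤ ENNReal.ofReal (b ^ 3 / (c * κ ^ 3)) * (ENNReal.ofReal (Real.exp (-(κ ^ 2 * t)) / t)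
          * (ENNReal.ofReal (c / t ^ 2) * Q t)) := by
          rw [← mul_assoc, ← mul_assoc, ← ENNReal.ofReal_mul (by positivity),
            ← ENNReal.ofReal_mul (by positivity)]
          refine mul_le_mul_left (ENNReal.ofReal_le_ofReal ?_) _
          have h5 : 1 ≤ b ^ 3 / (κ ^ 3 * t ^ 3) := by
            rw [le_div_iff₀ hκ0] at h
            rw [one_le_div (by positivity)]
            calc κ ^ 3 * t ^ 3 = (t * κ) ^ 3 := by ring
              _ ≤ b ^ 3 := by gcongr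
          calc Real.exp (-(κ ^ 2 * t)) = 1 * Real.exp (-(κ ^ 2 * t)) := by ring
            _ ≤ b ^ 3 / (κ ^ 3 * t ^ 3) * Real.exp (-(κ ^ 2 * t)) := by gcongr
            _ = _ := by field_simp
      _ ≤ ENNReal.ofReal (b ^ 3 / (c * κ ^ 3)) * (ENNReal.ofReal (Real.exp (-(κ ^ 2 * t)) / t)
          * (V t + Er C p m t)) := by
          exact mul_le_mul_right (mul_le_mul_right (h2 t ht) _) _
      _ ≤ _ := by
          refine mul_le_mul_right ?_ _
          rw [mul_add]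
          exact add_le_add le_rfl (he t ht)
  · refine le_trans ?_ le_add_self
    rw [← mul_assoc, ← ENNReal.ofReal_mul (by rw [← hD3]; positivity)]
    refine mul_le_mul_left (ENNReal.ofReal_le_ofReal ?_) _
    rw [← hD3, ← Real.exp_add]
    apply Real.exp_le_exp.2
    rw [div_pow, Real.sq_sqrt (by norm_num)]
    rw [div_lt_iff₀ hκ0] at h
    nlinarith

theorem arc : ArcStatement := by
  intro V Q P C c m m0 L q p hV hQ hc hL hm hm0 h1 h2 h3 h4 ⟨c1, C1, κ1, hc1, hC1, hκ1, h5⟩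
  obtain ⟨L', K, hL', hK, he⟩ := err_bound C p hL hm
  obtain ⟨a, K', ha, hK', hs⟩ := short_bound C p hL hm0
  set J : ℝ := (∫⁻ t in Set.Ioi (0 : ℝ), ENNReal.ofReal (Real.exp (-(t / 2)))).toReal with hJd
  have hJ : ∫⁻ t in Set.Ioi (0 : ℝ), ENNReal.ofReal (Real.exp (-(t / 2))) = ENNReal.ofReal J :=
    (ENNReal.ofReal_toReal dom_fin).symm
  have hJ0 : 0 ≤ J := ENNReal.toReal_nonneg
  set b : ℝ := 2 * (L + 1) with hbd
  have hb : 0 < b := by rw [hbd]; linarith
  set s2 : ℝ := (√2) ^ (-q) with hs2d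
  have hs2 : 0 < s2 := Real.rpow_pos_of_pos (by positivity) _
  obtain ⟨κ2, hκ2⟩ := eventually_atTop.1 ((pow_exp q (K' * J) 1 1 one_pos one_pos).and
    ((pow_exp q (K * J) 1 (L' - L) one_pos (by linarith)).and
    ((pow_exp q (b ^ 3 * K * J / c) (c1 / 4) (L' - L) (by positivity) (by linarith)).and
    (pow_exp 3 (C1 / s2) (c1 / 4) 1 (by positivity) one_pos))))
  refine ⟨c * c1 / (2 * b ^ 3), |C| * C1 / a ^ 3 + 2, max (max 1 κ2) (√2 * κ1), by positivity,
    by positivity, lt_of_lt_of_le one_pos ((le_max_left _ _).trans (le_max_left _ _)),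
    fun κ hκ => ?_⟩
  have g1 : 1 ≤ κ := ((le_max_left _ _).trans (le_max_left _ _)).trans hκ
  have g2 : κ2 ≤ κ := ((le_max_right _ _).trans (le_max_left _ _)).trans hκ
  have g3 : √2 * κ1 ≤ κ := (le_max_right _ _).trans hκ
  have hκ0 : 0 < κ := by linarith
  have hsq : 1 ≤ √2 := by
    rw [Real.one_le_sqrt]; norm_num
  have g4 : κ1 ≤ κ := by nlinarith
  have g5 : κ1 ≤ κ / √2 := by
    rw [le_div_iff₀ (by positivity), mul_comm]
    exact g3
  obtain ⟨i1, i2, i3, i4⟩ := hκ2 κ g2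
  obtain ⟨j1, j2⟩ := h5 κ g4
  obtain ⟨-, j3⟩ := h5 (κ / √2) g5
  rw [show (3 : ℝ) - 3 = 0 by norm_num, Real.rpow_zero, mul_one] at i4
  rw [one_mul] at i1 i2
  have r0 : 0 < κ ^ (-q) := Real.rpow_pos_of_pos hκ0 _
  have r1 : κ ^ (3 - q) = κ ^ 3 * κ ^ (-q) := by
    rw [sub_eq_add_neg, Real.rpow_add hκ0]
    congr 1
    exact_mod_cast Real.rpow_natCast κ 3
  have x1 : Real.exp (-((L + 1) * κ)) = Real.exp (-(L * κ)) * Real.exp (-(1 * κ)) := by
    rw [← Real.exp_add]; ring_nf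
  have x2 : Real.exp (-(L' * κ)) = Real.exp (-(L * κ)) * Real.exp (-((L' - L) * κ)) := by
    rw [← Real.exp_add]; ring_nf
  constructor
  · -- lower bound
    have low := lower_int (V := V) (Q := Q) (C := C) (c := c) (m := m) (b := b) (K := K)
      (D1 := Real.exp (-(L' * κ))) (D3 := Real.exp (-((L + 1) * κ))) (p := p) g1 hV hQ hb hc
      (by rw [hbd]; ring_nf) h2 (fun t ht => he κ t g1 ht)
    rw [h4 κ hκ0, h4 (κ / √2) (by positivity), hJ, mul_add,
      ← ENNReal.ofReal_mul (by positivity), ← ENNReal.ofReal_mul (by positivity)] at low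
    set F := ∫⁻ t in Set.Ioi (0 : ℝ), ENNReal.ofReal (Real.exp (-(κ ^ 2 * t)) / t) * V t with hF
    have low2 : ENNReal.ofReal (c1 * κ ^ (-q) * Real.exp (-(L * κ)))
        ≤ ENNReal.ofReal (b ^ 3 / (c * κ ^ 3)) * F
          + ENNReal.ofReal (b ^ 3 / (c * κ ^ 3) * (K * Real.exp (-(L' * κ)) * J)
            + Real.exp (-((L + 1) * κ)) * (C1 * (κ / √2) ^ (-q) * Real.exp (-(L * (κ / √2))))) := by
      refine (j1.trans low).trans ?_
      rw [ENNReal.ofReal_add (by positivity) (by positivity), ← add_assoc]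
      refine add_le_add le_rfl ?_
      rw [ENNReal.ofReal_mul (p := Real.exp (-((L + 1) * κ))) (by positivity)]
      exact mul_le_mul_right j3 _
    have y : b ^ 3 / (c * κ ^ 3) * (K * Real.exp (-(L' * κ)) * J)
            + Real.exp (-((L + 1) * κ)) * (C1 * (κ / √2) ^ (-q) * Real.exp (-(L * (κ / √2))))
        ≤ c1 * κ ^ (-q) * Real.exp (-(L * κ)) / 2 := by
      have y1 : b ^ 3 / (c * κ ^ 3) * (K * Real.exp (-(L' * κ)) * J)
          ≤ c1 / 4 * κ ^ (-q) * Real.exp (-(L * κ)) := by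
        rw [x2]
        have e : b ^ 3 / (c * κ ^ 3) * (K * (Real.exp (-(L * κ)) * Real.exp (-((L' - L) * κ))) * J)
            = b ^ 3 * K * J / c * Real.exp (-((L' - L) * κ)) * (Real.exp (-(L * κ)) / κ ^ 3) := by
          field_simp
        rw [e]
        calc b ^ 3 * K * J / c * Real.exp (-((L' - L) * κ)) * (Real.exp (-(L * κ)) / κ ^ 3)
            ≤ c1 / 4 * κ ^ (3 - q) * (Real.exp (-(L * κ)) / κ ^ 3) := by gcongr
          _ = _ := by rw [r1]; field_simp
      have y2 : Real.exp (-((L + 1) * κ)) * (C1 * (κ / √2) ^ (-q) * Real.exp (-(L * (κ / √2))))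
          ≤ c1 / 4 * κ ^ (-q) * Real.exp (-(L * κ)) := by
        rw [Real.div_rpow hκ0.le (by positivity), x1, ← hs2d]
        have e1 : Real.exp (-(L * (κ / √2))) ≤ 1 := by
          rw [Real.exp_le_one_iff]
          have : 0 ≤ L * (κ / √2) := by positivity
          linarith
        calc Real.exp (-(L * κ)) * Real.exp (-(1 * κ)) * (C1 * (κ ^ (-q) / s2)
              * Real.exp (-(L * (κ / √2))))
            ≤ Real.exp (-(L * κ)) * Real.exp (-(1 * κ)) * (C1 * (κ ^ (-q) / s2) * 1) := by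
              gcongr
          _ = C1 / s2 * Real.exp (-(1 * κ)) * (κ ^ (-q) * Real.exp (-(L * κ))) := by ring
          _ ≤ c1 / 4 * (κ ^ (-q) * Real.exp (-(L * κ))) := by gcongr
          _ = _ := by ring
      linarith
    have low3 : ENNReal.ofReal (c1 * κ ^ (-q) * Real.exp (-(L * κ)) / 2)
        ≤ ENNReal.ofReal (b ^ 3 / (c * κ ^ 3)) * F := by
      have z1 : ENNReal.ofReal (c1 * κ ^ (-q) * Real.exp (-(L * κ)))
          = ENNReal.ofReal (c1 * κ ^ (-q) * Real.exp (-(L * κ)) / 2)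
            + ENNReal.ofReal (c1 * κ ^ (-q) * Real.exp (-(L * κ)) / 2) := by
        rw [← ENNReal.ofReal_add (by positivity) (by positivity)]
        ring_nf
      have z2 := low2.trans (add_le_add le_rfl (ENNReal.ofReal_le_ofReal y))
      rw [z1] at z2
      exact ENNReal.le_of_add_le_add_right ENNReal.ofReal_ne_top z2
    calc ENNReal.ofReal (c * c1 / (2 * b ^ 3) * κ ^ (3 - q) * Real.exp (-(L * κ)))
        = ENNReal.ofReal (c * κ ^ 3 / b ^ 3)
          * ENNReal.ofReal (c1 * κ ^ (-q) * Real.exp (-(L * κ)) / 2) := by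
          rw [← ENNReal.ofReal_mul (by positivity), r1]
          congr 1
          field_simp
      _ ≤ ENNReal.ofReal (c * κ ^ 3 / b ^ 3) * (ENNReal.ofReal (b ^ 3 / (c * κ ^ 3)) * F) :=
          mul_le_mul_right low3 _
      _ = F := by
          rw [← mul_assoc, ← ENNReal.ofReal_mul (by positivity)]
          have : c * κ ^ 3 / b ^ 3 * (b ^ 3 / (c * κ ^ 3)) = 1 := by field_simp
          rw [this, ENNReal.ofReal_one, one_mul]
  · -- upper bound
    have up := upper_int (V := V) (Q := Q) (C := C) (m := m) (m0 := m0) (a := a) (K := K)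
      (K' := K') (D1 := Real.exp (-(L' * κ))) (D2 := Real.exp (-((L + 1) * κ))) (p := p) g1 hQ ha
      h1 h3 (fun t ht => he κ t g1 ht) (fun t ht hta => hs κ t g1 ht hta)
    rw [h4 κ hκ0, hJ] at up
    refine up.trans ?_
    have up2 : ENNReal.ofReal (|C| * κ ^ 3 / a ^ 3) * P κ
        ≤ ENNReal.ofReal (|C| * κ ^ 3 / a ^ 3)
          * ENNReal.ofReal (C1 * κ ^ (-q) * Real.exp (-(L * κ))) := mul_le_mul_right j2 _
    refine (add_le_add (add_le_add le_rfl up2) le_rfl).trans ?_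
    rw [← ENNReal.ofReal_mul (by positivity), ← ENNReal.ofReal_mul (by positivity),
      ← ENNReal.ofReal_mul (by positivity), ← ENNReal.ofReal_add (by positivity) (by positivity),
      ← ENNReal.ofReal_add (by positivity) (by positivity)]
    apply ENNReal.ofReal_le_ofReal
    have k1 : K' * Real.exp (-((L + 1) * κ)) * J ≤ κ ^ (3 - q) * Real.exp (-(L * κ)) := by
      have i1' : K' * J * Real.exp (-(1 * κ)) ≤ κ ^ (3 - q) := by
        rw [one_mul]; linarith [i1]
      rw [x1]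
      calc K' * (Real.exp (-(L * κ)) * Real.exp (-(1 * κ))) * J
          = K' * J * Real.exp (-(1 * κ)) * Real.exp (-(L * κ)) := by ring
        _ ≤ _ := by gcongr
    have k2 : K * Real.exp (-(L' * κ)) * J ≤ κ ^ (3 - q) * Real.exp (-(L * κ)) := by
      rw [x2]
      calc K * (Real.exp (-(L * κ)) * Real.exp (-((L' - L) * κ))) * J
          = K * J * Real.exp (-((L' - L) * κ)) * Real.exp (-(L * κ)) := by ring
        _ ≤ _ := by gcongr
    have k3 : |C| * κ ^ 3 / a ^ 3 * (C1 * κ ^ (-q) * Real.exp (-(L * κ)))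
        = |C| * C1 / a ^ 3 * κ ^ (3 - q) * Real.exp (-(L * κ)) := by
      rw [r1]; ring
    rw [k3]
    linarith

end Pool.Agent.XQ.K4.H29
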