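import Pool.Agent.Helper36_XQ.Stmt4

/-!
Squad XQ (MP_5b0138_an), part A4, module AVG (`AvgStatement`): average over a two-parameter family of
partitions.
-/

set_option autoImplicit false

namespace Pool.Agent.XQ.K4.H29

open MeasureTheory Complex Filter Topology
open scoped ENNReal NNReal

/-- the numbers `g_k` -/
noncomputable def gg (n k : ℕ) : ℝ := ((k % n : ℕ) : ℝ) / (4 * n)

/-- the points of the partition -/
noncomputable def TT (n : ℕ) (t : ℝ) (x : ℝ × ℝ) (k : ℕ) : ℝ :=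
  (k + x.1 * gg n k + x.2 * gg n k ^ 2) * (t / n)

/-- the durations -/
noncomputable def tt (n : ℕ) (t : ℝ) (x : ℝ × ℝ) (i : Fin n) : ℝ := TT n t x (i + 1) - TT n t x i

lemma gg_nonneg (n k : ℕ) : 0 ≤ gg n k := by unfold gg; positivity

lemma gg_lt {n : ℕ} (hn : 0 < n) (k : ℕ) : gg n k < 1 / 4 := by
  unfold gg
  have h1 : ((k % n : ℕ) : ℝ) < n := by exact_mod_cast Nat.mod_lt k hn
  have h2 : (0 : ℝ) < n := by exact_mod_cast hn
  rw [div_lt_iff₀ (by positivity)]
  linarith

lemma gg_add (n k : ℕ) : gg n (k + n) = gg n k := by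
  unfold gg; rw [Nat.add_mod_right]

lemma gg_sep {n k l : ℕ} (hn : 0 < n) (h : k % n ≠ l % n) : 1 / (4 * n) ≤ |gg n k - gg n l| := by
  unfold gg
  have h2 : (0 : ℝ) < n := by exact_mod_cast hn
  rw [← sub_div, abs_div, abs_of_pos (show (0 : ℝ) < 4 * n by positivity)]
  apply div_le_div_of_nonneg_right _ (by positivity)
  have h3 : ((k % n : ℕ) : ℤ) - ((l % n : ℕ) : ℤ) ≠ 0 := by
    intro h4
    apply h
    have : ((k % n : ℕ) : ℤ) = ((l % n : ℕ) : ℤ) := by linarith
    exact_mod_cast this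
  have h4 := Int.one_le_abs h3
  have h5 : ((1 : ℤ) : ℝ) ≤ ((|((k % n : ℕ) : ℤ) - ((l % n : ℕ) : ℤ)| : ℤ) : ℝ) := by
    exact_mod_cast h4
  rw [Int.cast_abs, Int.cast_sub, Int.cast_natCast, Int.cast_natCast, Int.cast_one] at h5
  exact h5

lemma TT_add {n : ℕ} (hn : 0 < n) (t : ℝ) (x : ℝ × ℝ) (k : ℕ) :
    TT n t x (k + n) = TT n t x k + t := by
  have h2 : (0 : ℝ) < n := by exact_mod_cast hn
  unfold TT
  rw [gg_add]
  push_cast
  field_simp
  ring

/-- the unit square -/
def Sq : Set (ℝ × ℝ) := Set.Icc 0 1 ×ˢ Set.Icc 0 1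

lemma TT_step {n : ℕ} (hn : 0 < n) {t : ℝ} (ht : 0 < t) {x : ℝ × ℝ} (hx : x ∈ Sq) (k : ℕ) :
    0 < TT n t x (k + 1) - TT n t x k ∧ TT n t x (k + 1) - TT n t x k ≤ 2 * t / n := by
  obtain ⟨⟨h1, h2⟩, h3, h4⟩ := hx
  have hn' : (0 : ℝ) < n := by exact_mod_cast hn
  have a1 := gg_nonneg n k
  have a2 := gg_nonneg n (k + 1)
  have a3 := gg_lt hn k
  have a4 := gg_lt hn (k + 1)
  have e : TT n t x (k + 1) - TT n t x k
      = (1 + x.1 * (gg n (k + 1) - gg n k) + x.2 * (gg n (k + 1) ^ 2 - gg n k ^ 2)) * (t / n) := by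
    unfold TT; push_cast; ring
  have b1 : |x.1 * (gg n (k + 1) - gg n k)| ≤ 1 / 4 := by
    rw [abs_mul]
    have : |gg n (k + 1) - gg n k| ≤ 1 / 4 := abs_le.mpr ⟨by linarith only [a2, a3], by linarith only [a1, a4]⟩
    calc |x.1| * |gg n (k + 1) - gg n k| ≤ 1 * (1 / 4) := by
          apply mul_le_mul _ this (abs_nonneg _) zero_le_one
          rw [abs_of_nonneg h1]; exact h2
      _ = 1 / 4 := one_mul _
  have b2 : |x.2 * (gg n (k + 1) ^ 2 - gg n k ^ 2)| ≤ 1 / 4 := by
    rw [abs_mul]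
    have c1 : gg n k ^ 2 ≤ 1 / 4 := by nlinarith only [a3, a1]
    have c2 : gg n (k + 1) ^ 2 ≤ 1 / 4 := by nlinarith only [a4, a2]
    have : |gg n (k + 1) ^ 2 - gg n k ^ 2| ≤ 1 / 4 :=
      abs_le.mpr ⟨by linarith only [c1, sq_nonneg (gg n (k + 1))], by linarith only [c2, sq_nonneg (gg n k)]⟩
    calc |x.2| * |gg n (k + 1) ^ 2 - gg n k ^ 2| ≤ 1 * (1 / 4) := by
          apply mul_le_mul _ this (abs_nonneg _) zero_le_one
          rw [abs_of_nonneg h3]; exact h4
      _ = 1 / 4 := one_mul _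
  rw [abs_le] at b1 b2
  rw [e]
  constructor
  · apply mul_pos _ (by positivity)
    linarith only [b1.1, b2.1]
  · rw [mul_div_assoc]
    apply mul_le_mul_of_nonneg_right _ (by positivity)
    linarith only [b1.2, b2.2]

lemma TT_mono {n : ℕ} (hn : 0 < n) {t : ℝ} (ht : 0 < t) {x : ℝ × ℝ} (hx : x ∈ Sq) :
    StrictMono (TT n t x) :=
  strictMono_nat_of_lt_succ fun k => by linarith [(TT_step hn ht hx k).1]

lemma TT_mod {n : ℕ} (hn : 0 < n) (t : ℝ) (x : ℝ × ℝ) (k : ℕ) :
    TT n t x (k + 1) - TT n t x k = TT n t x (k % n + 1) - TT n t x (k % n) := by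
  have h : ∀ m l : ℕ, TT n t x (l + n * m) = TT n t x l + m * t := by
    intro m l
    induction m with
    | zero => simp
    | succ m ih =>
        have : l + n * (m + 1) = l + n * m + n := by ring
        rw [this, TT_add hn, ih]; push_cast; ring
  have h1 := h (k / n) (k % n)
  have h2 := h (k / n) (k % n + 1)
  have e1 : k % n + n * (k / n) = k := Nat.mod_add_div k n
  have e2 : k % n + 1 + n * (k / n) = k + 1 := by omega
  rw [e1] at h1
  rw [e2] at h2
  rw [h1, h2]; ring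

lemma dur_tt {n : ℕ} [NeZero n] (t : ℝ) (x : ℝ × ℝ) (j : Fin n) {a b : ℕ} (hab : a ≤ b) :
    dur (rot j (tt n t x)) a b = TT n t x (j + b) - TT n t x (j + a) := by
  have hn : 0 < n := Nat.pos_of_ne_zero (NeZero.ne n)
  unfold dur rot
  have h : ∀ l : ℕ, tt n t x (Fin.ofNat n l + j) = TT n t x (j + (l + 1)) - TT n t x (j + l) := by
    intro l
    have e : ((Fin.ofNat n l + j : Fin n) : ℕ) = (j + l) % n := by
      rw [Fin.val_add, Fin.val_ofNat, Nat.mod_add_mod, add_comm]
    unfold tt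
    rw [e, ← TT_mod hn]
    rfl
  rw [Finset.sum_congr rfl fun l _ => h l]
  exact Finset.sum_Ico_sub (fun l => TT n t x (j + l)) hab

lemma sum_tt {n : ℕ} [NeZero n] (t : ℝ) (x : ℝ × ℝ) : ∑ j, tt n t x j = t := by
  have hn : 0 < n := Nat.pos_of_ne_zero (NeZero.ne n)
  unfold tt
  rw [Fin.sum_univ_eq_sum_range (fun i => TT n t x (i + 1) - TT n t x i) n, Finset.sum_range_sub]
  have := TT_add hn t x 0
  rw [zero_add] at this
  rw [this]; ring

/-- linear change of variables in the plane -/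
lemma affine_int {F : ℝ × ℝ → ℝ≥0∞} (hF : Measurable F) (a b c d e f : ℝ)
    (h : a * d - b * c ≠ 0) :
    ∫⁻ x : ℝ × ℝ, F (a * x.1 + b * x.2 + e, c * x.1 + d * x.2 + f)
      = ENNReal.ofReal |(a * d - b * c)⁻¹| * ∫⁻ y : ℝ × ℝ, F y := by
  set L : ℝ × ℝ →ₗ[ℝ] ℝ × ℝ := Matrix.toLin (Module.Basis.finTwoProd ℝ) (Module.Basis.finTwoProd ℝ)
    !![a, b; c, d] with hL
  have hdet : LinearMap.det L = a * d - b * c := by
    rw [hL, LinearMap.det_toLin, Matrix.det_fin_two_of]
  have hmap := Measure.map_linearMap_addHaar_eq_smul_addHaar (μ := (volume : Measure (ℝ × ℝ)))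
    (f := L) (by rw [hdet]; exact h)
  rw [hdet] at hmap
  have happ : ∀ x : ℝ × ℝ, L x = (a * x.1 + b * x.2, c * x.1 + d * x.2) := by
    intro x
    rw [hL, Matrix.toLin_finTwoProd_apply]
  have hLm : Measurable L := L.continuous_of_finiteDimensional.measurable
  calc ∫⁻ x : ℝ × ℝ, F (a * x.1 + b * x.2 + e, c * x.1 + d * x.2 + f)
      = ∫⁻ x : ℝ × ℝ, F (L x + (e, f)) := by
        apply lintegral_congr; intro x; rw [happ]; rfl
    _ = ∫⁻ y : ℝ × ℝ, F (y + (e, f)) ∂(Measure.map L volume) := by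
        rw [lintegral_map (f := fun y => F (y + (e, f)))
          (hF.comp (measurable_id.add_const _)) hLm]
    _ = ENNReal.ofReal |(a * d - b * c)⁻¹| * ∫⁻ y : ℝ × ℝ, F (y + (e, f)) := by
        rw [hmap, lintegral_smul_measure]; rfl
    _ = _ := by rw [lintegral_add_right_eq_self]

/-- one cut -/
lemma cut_int {W : ℝ → ℝ → ℝ → ℝ≥0∞} (hW : Measurable (fun p : ℝ × ℝ × ℝ => W p.1 p.2.1 p.2.2))
    {t : ℝ} (a b c d e f : ℝ) (h : a * d - b * c ≠ 0)
    (hpos : ∀ x ∈ Sq, 0 < a * x.1 + b * x.2 + e ∧ 0 < c * x.1 + d * x.2 + f ∧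
      (a * x.1 + b * x.2 + e) + (c * x.1 + d * x.2 + f) < t) :
    ∫⁻ x in Sq, W (a * x.1 + b * x.2 + e) (c * x.1 + d * x.2 + f)
        (t - (a * x.1 + b * x.2 + e) - (c * x.1 + d * x.2 + f))
      ≤ ENNReal.ofReal |(a * d - b * c)⁻¹| * Q3 W t := by
  set D : Set (ℝ × ℝ) := {p | 0 < p.1 ∧ 0 < p.2 ∧ p.1 + p.2 < t} with hD
  have hDm : MeasurableSet D := by
    apply MeasurableSet.inter
    · exact measurableSet_lt measurable_const measurable_fst
    · apply MeasurableSet.inter
      · exact measurableSet_lt measurable_const measurable_snd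
      · exact measurableSet_lt (measurable_fst.add measurable_snd) measurable_const
  set F : ℝ × ℝ → ℝ≥0∞ := D.indicator fun p => W p.1 p.2 (t - p.1 - p.2) with hF
  have hWm : Measurable fun p : ℝ × ℝ => W p.1 p.2 (t - p.1 - p.2) := by
    have : Measurable fun p : ℝ × ℝ => (p.1, p.2, t - p.1 - p.2) := by fun_prop
    exact hW.comp this
  have hFm : Measurable F := hWm.indicator hDm
  have hSqm : MeasurableSet Sq := measurableSet_Icc.prod measurableSet_Icc
  calc ∫⁻ x in Sq, W (a * x.1 + b * x.2 + e) (c * x.1 + d * x.2 + f)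
        (t - (a * x.1 + b * x.2 + e) - (c * x.1 + d * x.2 + f))
      = ∫⁻ x in Sq, F (a * x.1 + b * x.2 + e, c * x.1 + d * x.2 + f) := by
        apply setLIntegral_congr_fun hSqm
        intro x hx
        have : (a * x.1 + b * x.2 + e, c * x.1 + d * x.2 + f) ∈ D := hpos x hx
        simp only [hF, Set.indicator_of_mem this]
    _ ≤ ∫⁻ x : ℝ × ℝ, F (a * x.1 + b * x.2 + e, c * x.1 + d * x.2 + f) :=
        setLIntegral_le_lintegral _ _
    _ = ENNReal.ofReal |(a * d - b * c)⁻¹| * ∫⁻ y, F y := affine_int hFm a b c d e f h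
    _ = _ := by
        congr 1
        rw [Measure.volume_eq_prod, lintegral_prod _ hFm.aemeasurable]
        unfold Q3
        rw [← lintegral_indicator measurableSet_Ioo]
        apply lintegral_congr
        intro s1
        by_cases h1 : s1 ∈ Set.Ioo 0 t
        · rw [Set.indicator_of_mem h1, ← lintegral_indicator measurableSet_Ioo]
          apply lintegral_congr
          intro s2
          by_cases h2 : s2 ∈ Set.Ioo 0 (t - s1)
          · have : (s1, s2) ∈ D := ⟨h1.1, h2.1, by have := h2.2; simp only; linarith⟩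
            rw [Set.indicator_of_mem h2, hF, Set.indicator_of_mem this]
          · have : (s1, s2) ∉ D := fun h3 => h2 ⟨h3.2.1, by have := h3.2.2; simp only at this; linarith⟩
            rw [Set.indicator_of_notMem h2, hF, Set.indicator_of_notMem this]
        · rw [Set.indicator_of_notMem h1]
          have : ∀ s2, F (s1, s2) = 0 := by
            intro s2
            rw [hF, Set.indicator_of_notMem]
            intro h3
            exact h1 ⟨h3.1, by have := h3.2.1; have := h3.2.2; simp only at *; linarith⟩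
          simp [this]

/-- the determinant -/
lemma det_bd {n : ℕ} (hn : 0 < n) {t : ℝ} (ht : 0 < t) {p q r : ℕ} (h1 : q % n ≠ p % n)
    (h2 : r % n ≠ q % n) (h3 : r % n ≠ p % n) {D : ℝ}
    (hD : |D| = (t / n) ^ 2 * (|gg n q - gg n p| * |gg n r - gg n q| * |gg n r - gg n p|)) :
    D ≠ 0 ∧ |D⁻¹| ≤ 64 * n ^ 5 / t ^ 2 := by
  have hn' : (0 : ℝ) < n := by exact_mod_cast hn
  have a1 := gg_sep hn h1
  have a2 := gg_sep hn h2
  have a3 := gg_sep hn h3
  have b : t ^ 2 / (64 * n ^ 5) ≤ |D| := by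
    rw [hD]
    calc t ^ 2 / (64 * n ^ 5) = (t / n) ^ 2 * (1 / (4 * n) * (1 / (4 * n)) * (1 / (4 * n))) := by
          field_simp; ring
      _ ≤ _ := by gcongr
  have hpos : 0 < |D| := lt_of_lt_of_le (by positivity) b
  refine ⟨abs_pos.mp hpos, ?_⟩
  rw [abs_inv]
  calc |D|⁻¹ ≤ (t ^ 2 / (64 * n ^ 5))⁻¹ := inv_anti₀ (by positivity) b
    _ = _ := by rw [inv_div]

/-- the term of a cut -/
noncomputable def tm {n : ℕ} [NeZero n] (W : ℝ → ℝ → ℝ → ℝ≥0∞) (τ : Fin n → ℝ) (j : Fin n)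
    (a b : ℕ) : ℝ≥0∞ :=
  W (dur (rot j τ) 0 a) (dur (rot j τ) a b) (dur (rot j τ) b n)
    + W (dur (rot j τ) b n) (dur (rot j τ) a b) (dur (rot j τ) 0 a)

lemma TT_meas (n : ℕ) (t : ℝ) (k : ℕ) : Measurable fun x : ℝ × ℝ => TT n t x k := by
  unfold TT; fun_prop

lemma tm_int {n : ℕ} [NeZero n] {W : ℝ → ℝ → ℝ → ℝ≥0∞}
    (hW : Measurable (fun p : ℝ × ℝ × ℝ => W p.1 p.2.1 p.2.2)) {t : ℝ} (ht : 0 < t) (j : Fin n)
    {a b : ℕ} (ha : 0 < a) (hab : a < b) (hb : b < n) :
    Measurable (fun x => tm W (tt n t x) j a b) ∧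
      ∫⁻ x in Sq, tm W (tt n t x) j a b ≤ ENNReal.ofReal (128 * n ^ 5 / t ^ 2) * Q3 W t := by
  have hn : 0 < n := Nat.pos_of_ne_zero (NeZero.ne n)
  have hn' : (0 : ℝ) < n := by exact_mod_cast hn
  have hj := j.isLt
  set p : ℕ := (j : ℕ) with hp
  have e1 : ∀ x, dur (rot j (tt n t x)) 0 a = TT n t x (p + a) - TT n t x p := fun x => by
    rw [dur_tt t x j ha.le]; rfl
  have e2 : ∀ x, dur (rot j (tt n t x)) a b = TT n t x (p + b) - TT n t x (p + a) := fun x =>
    dur_tt t x j hab.le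
  have e3 : ∀ x, dur (rot j (tt n t x)) b n = TT n t x (p + n) - TT n t x (p + b) := fun x =>
    dur_tt t x j hb.le
  have m1 : Measurable fun x => dur (rot j (tt n t x)) 0 a := by
    simp_rw [e1]; exact (TT_meas n t _).sub (TT_meas n t _)
  have m2 : Measurable fun x => dur (rot j (tt n t x)) a b := by
    simp_rw [e2]; exact (TT_meas n t _).sub (TT_meas n t _)
  have m3 : Measurable fun x => dur (rot j (tt n t x)) b n := by
    simp_rw [e3]; exact (TT_meas n t _).sub (TT_meas n t _)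
  have M1 : Measurable fun x => W (dur (rot j (tt n t x)) 0 a) (dur (rot j (tt n t x)) a b)
      (dur (rot j (tt n t x)) b n) := hW.comp (m1.prodMk (m2.prodMk m3))
  have M2 : Measurable fun x => W (dur (rot j (tt n t x)) b n) (dur (rot j (tt n t x)) a b)
      (dur (rot j (tt n t x)) 0 a) := hW.comp (m3.prodMk (m2.prodMk m1))
  refine ⟨M1.add M2, ?_⟩
  -- residues
  have r1 : (p + a) % n ≠ p % n := by
    intro h
    have := (Nat.ModEq.add_left_cancel' p (show p + a ≡ p + 0 [MOD n] from h))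
    have h2 := Nat.ModEq.eq_of_lt_of_lt this (by omega) hn
    omega
  have r2 : (p + b) % n ≠ (p + a) % n := by
    intro h
    have := (Nat.ModEq.add_left_cancel' p (show p + b ≡ p + a [MOD n] from h))
    have h2 := Nat.ModEq.eq_of_lt_of_lt this hb (by omega)
    omega
  have r3 : (p + b) % n ≠ p % n := by
    intro h
    have := (Nat.ModEq.add_left_cancel' p (show p + b ≡ p + 0 [MOD n] from h))
    have h2 := Nat.ModEq.eq_of_lt_of_lt this hb hn
    omega
  set g0 := gg n p with hg0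
  set g1 := gg n (p + a) with hg1
  set g2 := gg n (p + b) with hg2
  have f1 : ∀ x : ℝ × ℝ, TT n t x (p + a) - TT n t x p
      = (t / n * (g1 - g0)) * x.1 + (t / n * (g1 ^ 2 - g0 ^ 2)) * x.2 + a * (t / n) := by
    intro x; unfold TT; rw [← hg0, ← hg1]; push_cast; ring
  have f2 : ∀ x : ℝ × ℝ, TT n t x (p + b) - TT n t x (p + a)
      = (t / n * (g2 - g1)) * x.1 + (t / n * (g2 ^ 2 - g1 ^ 2)) * x.2 + (b - a) * (t / n) := by
    intro x; unfold TT; rw [← hg1, ← hg2]; push_cast; ring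
  have f3 : ∀ x : ℝ × ℝ, TT n t x (p + n) - TT n t x (p + b)
      = (-(t / n * (g2 - g0))) * x.1 + (-(t / n * (g2 ^ 2 - g0 ^ 2))) * x.2
        + (t - b * (t / n)) := by
    intro x; rw [TT_add hn]; unfold TT; rw [← hg0, ← hg2]; push_cast; ring
  have hst : ∀ x ∈ Sq, 0 < TT n t x (p + a) - TT n t x p ∧
      0 < TT n t x (p + b) - TT n t x (p + a) ∧ 0 < TT n t x (p + n) - TT n t x (p + b) := by
    intro x hx
    have hm := TT_mono hn ht hx
    have k1 := hm (show p < p + a by omega)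
    have k2 := hm (show p + a < p + b by omega)
    have k3 := hm (show p + b < p + n by omega)
    exact ⟨by linarith, by linarith, by linarith⟩
  have hsum : ∀ x : ℝ × ℝ, (TT n t x (p + a) - TT n t x p)
      + (TT n t x (p + b) - TT n t x (p + a)) + (TT n t x (p + n) - TT n t x (p + b)) = t := by
    intro x; rw [TT_add hn]; ring
  -- first order
  have I1 : ∫⁻ x in Sq, W (dur (rot j (tt n t x)) 0 a) (dur (rot j (tt n t x)) a b)
      (dur (rot j (tt n t x)) b n) ≤ ENNReal.ofReal (64 * n ^ 5 / t ^ 2) * Q3 W t := by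
    obtain ⟨d1, d2⟩ := det_bd hn ht r1 r2 r3
      (D := t / n * (g1 - g0) * (t / n * (g2 ^ 2 - g1 ^ 2))
        - t / n * (g1 ^ 2 - g0 ^ 2) * (t / n * (g2 - g1))) (by
      rw [← hg0, ← hg1, ← hg2, ← abs_mul, ← abs_mul, ← abs_of_nonneg (sq_nonneg (t / (n : ℝ))),
        ← abs_mul]
      congr 1
      ring)
    have := cut_int hW (t := t) (t / n * (g1 - g0)) (t / n * (g1 ^ 2 - g0 ^ 2))
      (t / n * (g2 - g1)) (t / n * (g2 ^ 2 - g1 ^ 2)) (a * (t / n)) ((b - a) * (t / n)) d1
      (fun x hx => by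
        rw [← f1, ← f2]
        have h1 := hst x hx
        have h2 := hsum x
        exact ⟨h1.1, h1.2.1, by linarith [h1.2.2]⟩)
    calc _ = ∫⁻ x in Sq, W (t / n * (g1 - g0) * x.1 + t / n * (g1 ^ 2 - g0 ^ 2) * x.2 + a * (t / n))
          (t / n * (g2 - g1) * x.1 + t / n * (g2 ^ 2 - g1 ^ 2) * x.2 + (b - a) * (t / n))
          (t - (t / n * (g1 - g0) * x.1 + t / n * (g1 ^ 2 - g0 ^ 2) * x.2 + a * (t / n))
            - (t / n * (g2 - g1) * x.1 + t / n * (g2 ^ 2 - g1 ^ 2) * x.2 + (b - a) * (t / n))) := by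
          apply lintegral_congr
          intro x
          rw [e1, e2, e3, ← f1, ← f2]
          congr 1
          linarith only [hsum x]
      _ ≤ _ := this
      _ ≤ _ := mul_le_mul_left (ENNReal.ofReal_le_ofReal d2) _
  have I2 : ∫⁻ x in Sq, W (dur (rot j (tt n t x)) b n) (dur (rot j (tt n t x)) a b)
      (dur (rot j (tt n t x)) 0 a) ≤ ENNReal.ofReal (64 * n ^ 5 / t ^ 2) * Q3 W t := by
    obtain ⟨d1, d2⟩ := det_bd hn ht r1 r2 r3
      (D := -(t / n * (g2 - g0)) * (t / n * (g2 ^ 2 - g1 ^ 2))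
        - -(t / n * (g2 ^ 2 - g0 ^ 2)) * (t / n * (g2 - g1))) (by
      rw [← hg0, ← hg1, ← hg2, ← abs_mul, ← abs_mul, ← abs_of_nonneg (sq_nonneg (t / (n : ℝ))),
        ← abs_mul, ← abs_neg]
      congr 1
      ring)
    have := cut_int hW (t := t) (-(t / n * (g2 - g0))) (-(t / n * (g2 ^ 2 - g0 ^ 2)))
      (t / n * (g2 - g1)) (t / n * (g2 ^ 2 - g1 ^ 2)) (t - b * (t / n)) ((b - a) * (t / n)) d1
      (fun x hx => by
        rw [← f3, ← f2]
        have h1 := hst x hx
        have h2 := hsum x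
        exact ⟨h1.2.2, h1.2.1, by linarith [h1.1]⟩)
    calc _ = ∫⁻ x in Sq, W
          (-(t / n * (g2 - g0)) * x.1 + -(t / n * (g2 ^ 2 - g0 ^ 2)) * x.2 + (t - b * (t / n)))
          (t / n * (g2 - g1) * x.1 + t / n * (g2 ^ 2 - g1 ^ 2) * x.2 + (b - a) * (t / n))
          (t - (-(t / n * (g2 - g0)) * x.1 + -(t / n * (g2 ^ 2 - g0 ^ 2)) * x.2
              + (t - b * (t / n)))
            - (t / n * (g2 - g1) * x.1 + t / n * (g2 ^ 2 - g1 ^ 2) * x.2 + (b - a) * (t / n))) := by
          apply lintegral_congr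
          intro x
          rw [e1, e2, e3, ← f3, ← f2]
          congr 1
          linarith only [hsum x]
      _ ≤ _ := this
      _ ≤ _ := mul_le_mul_left (ENNReal.ofReal_le_ofReal d2) _
  calc ∫⁻ x in Sq, tm W (tt n t x) j a b
      = (∫⁻ x in Sq, W (dur (rot j (tt n t x)) 0 a) (dur (rot j (tt n t x)) a b)
          (dur (rot j (tt n t x)) b n))
        + ∫⁻ x in Sq, W (dur (rot j (tt n t x)) b n) (dur (rot j (tt n t x)) a b)
          (dur (rot j (tt n t x)) 0 a) := lintegral_add_left M1 _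
    _ ≤ ENNReal.ofReal (64 * n ^ 5 / t ^ 2) * Q3 W t
        + ENNReal.ofReal (64 * n ^ 5 / t ^ 2) * Q3 W t := add_le_add I1 I2
    _ = _ := by
        rw [← add_mul, ← ENNReal.ofReal_add (by positivity) (by positivity)]
        congr 2
        ring

theorem avg : AvgStatement := by
  intro n _ hn3
  have hn : 0 < n := by omega
  have hn' : (0 : ℝ) < n := by exact_mod_cast hn
  refine ⟨128 * n ^ 8, by positivity, ?_⟩
  intro W hW t V B ht hV
  have hSqm : MeasurableSet Sq := measurableSet_Icc.prod measurableSet_Icc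
  have hvol : (volume : Measure (ℝ × ℝ)) Sq = 1 := by
    rw [Sq, Measure.volume_eq_prod, Measure.prod_prod]
    simp
  have h1 : ∀ x ∈ Sq, V ≤ SumW W (tt n t x) + B := by
    intro x hx
    apply hV
    · intro j; exact (TT_step hn ht hx j).1
    · intro j; exact (TT_step hn ht hx j).2
    · exact sum_tt t x
  -- the sum as a sum of measurable functions
  have h2 : ∀ x, SumW W (tt n t x) = ∑ j : Fin n, ∑ a ∈ Finset.range n, ∑ b ∈ Finset.range n,
      if 0 < a ∧ a < b then tm W (tt n t x) j a b else 0 := by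
    intro x
    unfold SumW tm
    refine Finset.sum_congr rfl fun j _ => Finset.sum_congr rfl fun a _ =>
      Finset.sum_congr rfl fun b _ => ?_
    split_ifs <;> rfl
  have hm : ∀ (j : Fin n) (a : ℕ), ∀ b ∈ Finset.range n,
      Measurable (fun x => if 0 < a ∧ a < b then tm W (tt n t x) j a b else 0) := by
    intro j a b hb
    by_cases hab : 0 < a ∧ a < b
    · simp only [hab, and_self, if_true]
      exact (tm_int hW ht j hab.1 hab.2 (Finset.mem_range.mp hb)).1
    · simp only [hab, if_false]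
      exact measurable_const
  have h3 : ∫⁻ x in Sq, SumW W (tt n t x) ≤ ENNReal.ofReal (128 * n ^ 8 / t ^ 2) * Q3 W t := by
    simp_rw [h2]
    rw [lintegral_finsetSum _ fun j _ => Finset.measurable_sum _ fun a _ =>
      Finset.measurable_sum _ fun b hb => hm j a b hb]
    have k1 : ∀ j ∈ (Finset.univ : Finset (Fin n)),
        ∫⁻ x in Sq, ∑ a ∈ Finset.range n, ∑ b ∈ Finset.range n,
          (if 0 < a ∧ a < b then tm W (tt n t x) j a b else 0)
        ≤ (n : ℝ≥0∞) * ((n : ℝ≥0∞) * (ENNReal.ofReal (128 * n ^ 5 / t ^ 2) * Q3 W t)) := by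
      intro j _
      rw [lintegral_finsetSum _ fun a _ => Finset.measurable_sum _ fun b hb => hm j a b hb]
      have k2 : ∀ a ∈ Finset.range n,
          ∫⁻ x in Sq, ∑ b ∈ Finset.range n,
            (if 0 < a ∧ a < b then tm W (tt n t x) j a b else 0)
          ≤ (n : ℝ≥0∞) * (ENNReal.ofReal (128 * n ^ 5 / t ^ 2) * Q3 W t) := by
        intro a _
        rw [lintegral_finsetSum' _ fun b hb => (hm j a b hb).aemeasurable]
        have k3 : ∀ b ∈ Finset.range n,
            ∫⁻ x in Sq, (if 0 < a ∧ a < b then tm W (tt n t x) j a b else 0)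
            ≤ ENNReal.ofReal (128 * n ^ 5 / t ^ 2) * Q3 W t := by
          intro b hb
          by_cases hab : 0 < a ∧ a < b
          · simp only [hab, and_self, if_true]
            exact (tm_int hW ht j hab.1 hab.2 (Finset.mem_range.mp hb)).2
          · simp only [hab, if_false]
            simp
        refine (Finset.sum_le_card_nsmul _ _ _ k3).trans ?_
        rw [Finset.card_range, nsmul_eq_mul]
      refine (Finset.sum_le_card_nsmul _ _ _ k2).trans ?_
      rw [Finset.card_range, nsmul_eq_mul]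
    refine (Finset.sum_le_card_nsmul _ _ _ k1).trans ?_
    rw [Finset.card_univ, Fintype.card_fin, nsmul_eq_mul]
    apply le_of_eq
    have e : (n : ℝ≥0∞) = ENNReal.ofReal (n : ℝ) := by simp
    rw [e, ← mul_assoc, ← mul_assoc, ← mul_assoc, ← ENNReal.ofReal_mul (by positivity),
      ← ENNReal.ofReal_mul (by positivity), ← ENNReal.ofReal_mul (by positivity)]
    congr 2
    ring
  calc V = ∫⁻ _ in Sq, V := by
        rw [lintegral_const, Measure.restrict_apply MeasurableSet.univ, Set.univ_inter, hvol,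
          mul_one]
    _ ≤ ∫⁻ x in Sq, (SumW W (tt n t x) + B) := setLIntegral_mono' hSqm h1
    _ = (∫⁻ x in Sq, SumW W (tt n t x)) + B := by
        rw [lintegral_add_right _ measurable_const, lintegral_const,
          Measure.restrict_apply MeasurableSet.univ, Set.univ_inter, hvol, mul_one]
    _ ≤ _ := add_le_add h3 le_rfl

end Pool.Agent.XQ.K4.H29
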