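import Pool.Agent.Helper16_XQ.StmtG
import Pool.Agent.Helper20_AEU.Gap
import Pool.Agent.Helper69_AEU.Per
import Pool.Agent.Helper69_AEU.Lam
import Pool.Agent.Helper69_AEU.Tools

/-!
Squad XQ, module EXX: the exit lemma for finite sets of half-planes.
-/

namespace Pool.Agent.XQ.H29

open MeasureTheory Complex Filter Topology Pool.Agent.H62T
open Pool.Agent.H16F (Sublin)
open Pool.Agent.AEU

theorem in_cl {X : Finset HP} {h : ℂ → ℝ} (hF : Fits X h) {x : ℂ} (hx : In x h) : x ∈ Cl X :=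
  fun s hs => (hx s.1).trans (hF s hs)

/-- two points of a body -/
theorem two_pts {h : ℂ → ℝ} (hs : Sublin h) {a b : ℂ} (ha : In a h) (hb : In b h) :
    2 * ‖a - b‖ ≤ lam h := by
  obtain ⟨h1, -, -, h4, -, -⟩ := AEU.H69.hul 1 ![a, b]
  have h2 : ∀ w, hf ![a, b] w ≤ h w := h4 h (by
    intro i
    fin_cases i
    · exact ha
    · exact hb)
  have h3 := (AEU.H69.lamS.2.1 _ _ h1 hs h2).1
  rwa [AEU.H69.per.1] at h3

/-- a body touching two nonparallel lines is bounded in terms of its perimeter -/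
theorem bounded_touch {s t : HP} (hs1 : ‖s.1‖ = 1) (ht1 : ‖t.1‖ = 1) (hd : dt s.1 t.1 ≠ 0)
    (C : ℝ) : ∃ R : ℝ, ∀ h : ℂ → ℝ, Sublin h → h s.1 = s.2 → h t.1 = t.2 → lam h ≤ C →
      ∀ z, In z h → ‖z‖ ≤ R := by
  refine ⟨(|t.2| + C / 2 + |s.2|) / |dt s.1 t.1| + C / 2, fun h hs h1 h2 hC z hz => ?_⟩
  obtain ⟨a, ha, hae⟩ := (AEU.H69.sup h hs).2.2.2 s.1
  obtain ⟨b, hb, hbe⟩ := (AEU.H69.sup h hs).2.2.2 t.1
  have p1 := two_pts hs ha hb
  have p2 := two_pts hs ha hz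
  have q1 : ‖a - b‖ ≤ C / 2 := by linarith
  have q2 : ‖a - z‖ ≤ C / 2 := by linarith
  have hip : ∀ u w : ℂ, |ip u w| ≤ ‖u‖ * ‖w‖ := by
    intro u w
    have e : ip u w = ((starRingEnd ℂ) u * w).re := by
      unfold ip
      simp
    rw [e]
    calc |((starRingEnd ℂ) u * w).re| ≤ ‖(starRingEnd ℂ) u * w‖ := Complex.abs_re_le_norm _
      _ = ‖u‖ * ‖w‖ := by rw [norm_mul, RCLike.norm_conj]
  have q3 : |ip t.1 a| ≤ |t.2| + C / 2 := by
    have e : ip t.1 a = t.2 + ip t.1 (a - b) := by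
      rw [← h2, ← hbe]
      unfold ip
      simp only [Complex.sub_re, Complex.sub_im]
      ring
    rw [e]
    refine (abs_add_le _ _).trans ?_
    have := hip t.1 (a - b)
    rw [ht1, one_mul] at this
    linarith
  have q4 : |ip s.1 a| = |s.2| := by rw [hae, h1]
  have e : (dt s.1 t.1 : ℂ) * a = I * ((ip t.1 a : ℂ) * s.1 - (ip s.1 a : ℂ) * t.1) := by
    apply Complex.ext
    · simp [dt, ip]
      ring
    · simp [dt, ip]
      ring
  have q5 : |dt s.1 t.1| * ‖a‖ ≤ |t.2| + C / 2 + |s.2| := by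
    have e1 := congrArg norm e
    rw [norm_mul, norm_mul, Complex.norm_real, Complex.norm_I, one_mul, Real.norm_eq_abs] at e1
    rw [e1]
    refine (norm_sub_le _ _).trans ?_
    rw [norm_mul, norm_mul, Complex.norm_real, Complex.norm_real, hs1, ht1, mul_one, mul_one,
      Real.norm_eq_abs, Real.norm_eq_abs, q4]
    linarith
  have q6 : ‖a‖ ≤ (|t.2| + C / 2 + |s.2|) / |dt s.1 t.1| := by
    rw [le_div_iff₀ (abs_pos.2 hd)]
    linarith
  have q7 : ‖z‖ ≤ ‖a‖ + ‖a - z‖ := by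
    have : z = a - (a - z) := by ring
    calc ‖z‖ = ‖a - (a - z)‖ := by rw [← this]
      _ ≤ ‖a‖ + ‖a - z‖ := norm_sub_le _ _
  linarith

theorem isClosed_cl (X : Finset HP) : IsClosed (Cl X) := by
  have : Cl X = ⋂ s ∈ X, {x : ℂ | ip s.1 x ≤ s.2} := by
    ext x
    simp [Cl]
  rw [this]
  refine isClosed_biInter fun s _ => isClosed_le ?_ continuous_const
  unfold ip
  fun_prop

theorem isCompact_box (X : Finset HP) (R : ℝ) (m : ℕ) :
    IsCompact {x : Fin (m + 1) → ℂ | ∀ i, x i ∈ Cl X ∩ Metric.closedBall 0 R} := by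
  have hc : IsCompact (Cl X ∩ Metric.closedBall (0 : ℂ) R) :=
    (isCompact_closedBall 0 R).inter_left (isClosed_cl X)
  have h1 := isCompact_univ_pi (fun _ : Fin (m + 1) => hc)
  have h2 : {x : Fin (m + 1) → ℂ | ∀ i, x i ∈ Cl X ∩ Metric.closedBall 0 R} =
      Set.pi Set.univ fun _ => Cl X ∩ Metric.closedBall 0 R := by
    ext x
    simp [Set.mem_pi]
  rw [h2]
  exact h1

theorem gap_four (X : Finset HP) (hu : ∀ s ∈ X, ‖s.1‖ = 1) (S : Finset HP) (hSX : S ⊆ X)
    (hS3 : S.card = 3) (hnp : Np S) (L : ℝ)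
    (H : ∀ h, Sublin h → Fits X h → S ⊆ touch X h → lam h ≤ L → touch X h = S) :
    ∃ δ > 0, ∀ h, Sublin h → Fits X h → S ⊆ touch X h → lam h < L + δ → touch X h = S := by
  obtain ⟨s, hs, t, ht, hst⟩ := Finset.one_lt_card.1 (by omega : 1 < S.card)
  obtain ⟨R, hR⟩ := bounded_touch (hu s (hSX hs)) (hu t (hSX ht)) (hnp s hs t ht hst) (L + 1)
  have hK : IsCompact ({x : Fin (3 + 1) → ℂ | ∀ i, x i ∈ Cl X ∩ Metric.closedBall 0 R} ∩
      ({x : Fin (3 + 1) → ℂ | S ⊆ touch X (hf x)} ∩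
        {x : Fin (3 + 1) → ℂ | 4 ≤ (touch X (hf x)).card})) :=
    (isCompact_box X R 3).inter_right
      ((AEU.H20.isClosed_touch AEU.H69.cnt X S hSX 3).inter
        (AEU.H20.isClosed_card AEU.H69.cnt X 4 3))
  obtain ⟨δ, hδ, hgap⟩ := AEU.H20.exists_gap AEU.H69.cnt hK L fun x hx => by
    by_contra hlt
    have h1 := H (hf x) (AEU.H69.hul 3 x).1 ((AEU.H69.mixS X).2.2 3 x fun i => (hx.1 i).1).1
      hx.2.1 (not_lt.1 hlt)
    have h4 : 4 ≤ (touch X (hf x)).card := hx.2.2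
    rw [h1] at h4
    omega
  refine ⟨min δ 1, lt_min hδ one_pos, fun h hsub hF hSt hlt => ?_⟩
  by_contra hne
  have hss : S ⊂ touch X h := lt_of_le_of_ne hSt (Ne.symm hne)
  obtain ⟨r, hr1, hr2⟩ := Finset.exists_of_ssubset hss
  obtain ⟨y, hy, hye⟩ := (AEU.H69.sup h hsub).2.2.2 r.1
  obtain ⟨x, hx1, hx2, _, hx4, hx5, hx6, hx7⟩ := AEU.H20.hull_contacts AEU.H69.sup AEU.H69.hul
    AEU.H69.lamS (P := X) (fun h hF x hx => in_cl hF hx) hsub hF S hSt hy 3 (by omega)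
  have hrx : r ∈ touch X (hf x) :=
    AEU.H20.touch_of_point (AEU.H20.touch_subset _ _ hr1) hx4 hx6
      (hye.trans (AEU.H20.mem_touch.1 hr1).2)
  have h4 : 4 ≤ (touch X (hf x)).card := by
    classical
    have h5 : insert r S ⊆ touch X (hf x) := Finset.insert_subset hrx hx5
    have h6 := Finset.card_le_card h5
    rw [Finset.card_insert_of_notMem hr2, hS3] at h6
    exact h6
  have hlt1 : lam h < L + δ := hlt.trans_le (by linarith [min_le_left δ 1])
  have hlt2 : lam h ≤ L + 1 := (hlt.trans_le (by linarith [min_le_right δ 1])).le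
  have hin : ∀ i, In (x i) h := fun i w => ((AEU.H69.hul 3 x).2.1 i w).trans (hx2 w)
  have hbox : ∀ i, x i ∈ Cl X ∩ Metric.closedBall 0 R := by
    intro i
    refine ⟨hx1 i, ?_⟩
    rw [mem_closedBall_zero_iff]
    exact hR h hsub (AEU.H20.mem_touch.1 (hSt hs)).2 (AEU.H20.mem_touch.1 (hSt ht)).2 hlt2 _
      (hin i)
  have := hgap x ⟨hbox, hx5, h4⟩
  linarith

/-- EXX -/
theorem exx : ExxStatement := by
  classical
  intro X hu S L hSX hS3 hnp hex H
  obtain ⟨h₀, hs₀, hF₀, hS₀, hL₀⟩ := hex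
  obtain ⟨δ, hδ, hgap⟩ := gap_four X hu S hSX hS3 hnp L H
  refine ⟨δ, hδ, fun h hs hl hlt => ?_⟩
  have hfit : Fits X h := by
    by_contra hnf
    simp only [Fits] at hnf
    push Not at hnf
    set T := X.filter fun s => s.2 < h s.1 with hT
    have hTne : T.Nonempty := by
      obtain ⟨s, h1, h2⟩ := hnf
      exact ⟨s, by simp [hT, h1, h2]⟩
    obtain ⟨t, htT, htmin⟩ := T.exists_min_image
      (fun s => (s.2 - h₀ s.1) / (h s.1 - h₀ s.1)) hTne
    have htP : t ∈ X := (Finset.mem_filter.1 htT).1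
    have htl : t.2 < h t.1 := (Finset.mem_filter.1 htT).2
    have hden : 0 < h t.1 - h₀ t.1 := by have := hF₀ t htP; linarith
    set τ := (t.2 - h₀ t.1) / (h t.1 - h₀ t.1) with hτ
    have hτ0 : 0 ≤ τ := div_nonneg (by have := hF₀ t htP; linarith) hden.le
    have hτ1 : τ ≤ 1 := by rw [hτ, div_le_one hden]; linarith
    obtain ⟨m1, m2, _, _⟩ := (AEU.H69.mixS X).1 h₀ h hs₀ hs τ hτ0 hτ1
    have hSm : ∀ s ∈ S, mix τ h₀ h s.1 = s.2 := by
      intro s hsS
      have e1 := (AEU.H20.mem_touch.1 (hS₀ hsS)).2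
      have e2 := hl s hsS
      simp only [mix, e1, e2]
      ring
    have hFm : Fits X (mix τ h₀ h) := by
      intro s hsP
      by_cases hsT : s ∈ T
      · have h1 := htmin s hsT
        have hsl : s.2 < h s.1 := (Finset.mem_filter.1 hsT).2
        have hden' : 0 < h s.1 - h₀ s.1 := by have := hF₀ s hsP; linarith
        rw [le_div_iff₀ hden'] at h1
        simp only [mix]
        have : (s.2 - h₀ s.1) / (h s.1 - h₀ s.1) * (h s.1 - h₀ s.1) = s.2 - h₀ s.1 :=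
          div_mul_cancel₀ _ hden'.ne'
        nlinarith [h1]
      · have hsl : h s.1 ≤ s.2 := by
          by_contra hc
          exact hsT (Finset.mem_filter.2 ⟨hsP, not_le.1 hc⟩)
        have h0l := hF₀ s hsP
        simp only [mix]
        nlinarith
    have hSt : S ⊆ touch X (mix τ h₀ h) := fun s hsS =>
      AEU.H20.mem_touch.2 ⟨hSX hsS, hSm s hsS⟩
    have hlm : lam (mix τ h₀ h) < L + δ := by
      rw [m2]
      rcases hτ0.eq_or_lt with h0 | h0
      · rw [← h0]; linarith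
      · nlinarith
    have hte := hgap _ m1 hFm hSt hlm
    have htm : t ∈ touch X (mix τ h₀ h) := by
      refine AEU.H20.mem_touch.2 ⟨htP, ?_⟩
      simp only [mix, hτ]
      field_simp
      ring
    rw [hte] at htm
    have := hl t htm
    linarith
  have hSt : S ⊆ touch X h := fun s hsS => AEU.H20.mem_touch.2 ⟨hSX hsS, hl s hsS⟩
  exact ⟨hfit, hgap h hs hfit hSt hlt⟩

end Pool.Agent.XQ.H29
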