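import Pool.Agent.Helper29_XQ.Unq
import Pool.Agent.Helper69_AEU.Lam
import Pool.Agent.Helper72_AEU.ACT
import Pool.Agent.Helper72_AEU.REF

/-!
Squad XQ, module TOE, part 3: frames and small lemmas.
-/

namespace Pool.Agent.XQ.H29

open MeasureTheory Complex Filter Topology Pool.Agent.H62T
open Pool.Agent.H16F (Sublin)
open Pool.Agent.AEU
open Pool.Agent.AEU.H69 (ee ee_per sub_ii ee_add ee_neg)

/-! ### Isometries -/

/-- rotation -/
noncomputable def rot (φ : ℝ) : ℂ ≃ₗᵢ[ℝ] ℂ := rotation (Circle.exp φ)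

theorem rot_apply (φ : ℝ) (z : ℂ) : rot φ z = ee φ * z := by
  unfold rot ee
  rw [rotation_apply, Circle.coe_exp]

/-- rotation after conjugation -/
noncomputable def rotc (φ : ℝ) : ℂ ≃ₗᵢ[ℝ] ℂ := Complex.conjLIE.trans (rot φ)

theorem rotc_apply (φ : ℝ) (z : ℂ) : rotc φ z = ee φ * (starRingEnd ℂ) z := by
  unfold rotc
  rw [LinearIsometryEquiv.trans_apply, rot_apply, Complex.conjLIE_apply]

theorem frame {a c : ℂ} (ha : ‖a‖ = 1) (hc : ‖c‖ = 1) (h1 : a ≠ c) (h2 : a ≠ -c) :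
    ∃ (L : ℂ ≃ₗᵢ[ℝ] ℂ) (γ : ℝ), 0 < γ ∧ γ < Real.pi / 2 ∧ L a = ee (-γ) ∧ L c = ee γ := by
  obtain ⟨α, -, ea⟩ := ex_angle 0 ha
  obtain ⟨β, hβ, ec⟩ := ex_angle (α - Real.pi) hc
  have n1 : β ≠ α := by
    rintro rfl
    exact h1 (ea.symm.trans ec)
  have n2 : β ≠ α + Real.pi := by
    rintro rfl
    rw [AEU.H69.ee_pi, ea] at ec
    apply h2
    rw [← ec, neg_neg]
  have n3 : β ≠ α - Real.pi := by
    rintro rfl
    have : ee α = -ee (α - Real.pi) := by
      rw [← AEU.H69.ee_pi, sub_add_cancel]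
    rw [ea, ec] at this
    exact h2 this
  rcases lt_or_gt_of_ne n1 with hlt | hlt
  · have hb : α - Real.pi < β := lt_of_le_of_ne hβ.1 (Ne.symm n3)
    refine ⟨rotc ((α + β) / 2), (α - β) / 2, by linarith, by linarith, ?_, ?_⟩
    · rw [rotc_apply, ← ea, ← ee_neg, ← ee_add]
      congr 1
      ring
    · rw [rotc_apply, ← ec, ← ee_neg, ← ee_add]
      congr 1
      ring
  · have hb : β < α + Real.pi := lt_of_le_of_ne (by linarith [hβ.2]) n2
    refine ⟨rot (-((α + β) / 2)), (β - α) / 2, by linarith, by linarith, ?_, ?_⟩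
    · rw [rot_apply, ← ea, ← ee_add]
      congr 1
      ring
    · rw [rot_apply, ← ec, ← ee_add]
      congr 1
      ring

/-- the isometry with linear part `L` which maps `v` to `0` -/
noncomputable def mkIso (L : ℂ ≃ₗᵢ[ℝ] ℂ) (v : ℂ) : Iso2 :=
  AffineIsometryEquiv.mk' (fun z => L (z - v)) L v (fun z => by simp)

theorem mkIso_apply (L : ℂ ≃ₗᵢ[ℝ] ℂ) (v z : ℂ) : mkIso L v z = L (z - v) := rfl

theorem mkIso_lin (L : ℂ ≃ₗᵢ[ℝ] ℂ) (v : ℂ) : (mkIso L v).linearIsometryEquiv = L := by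
  unfold mkIso
  simp

theorem mv_mkIso (L : ℂ ≃ₗᵢ[ℝ] ℂ) (v : ℂ) (s : HP) :
    mv (mkIso L v) s = (L s.1, s.2 - ip s.1 v) := by
  unfold mv
  rw [mkIso_lin, mkIso_apply, zero_sub, map_neg]
  congr 1
  have : ip (L s.1) (-L v) = -ip s.1 v := by
    have e : -L v = L (-v) := by rw [map_neg]
    rw [e, AEU.H72.ip_map]
    simp [ip]
    ring
  rw [this]
  ring

/-! ### Bodies -/

/-- small displacements inside a polygon -/
theorem nbhd (X : Finset HP) {x d : ℂ}
    (h : ∀ s ∈ X, ip s.1 x < s.2 ∨ (ip s.1 x = s.2 ∧ ip s.1 d ≤ 0)) :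
    ∃ ε > 0, ∀ t : ℝ, 0 ≤ t → t < ε → x + t * d ∈ Cl X := by
  have h1 : ∀ s ∈ X, ∀ᶠ t : ℝ in 𝓝 0, 0 ≤ t → ip s.1 (x + t * d) ≤ s.2 := by
    intro s hs
    rcases h s hs with h2 | ⟨h2, h3⟩
    · have hc : Continuous fun t : ℝ => ip s.1 (x + t * d) := by
        unfold ip
        fun_prop
      have h4 : ip s.1 (x + ((0 : ℝ) : ℂ) * d) < s.2 := by simpa using h2
      filter_upwards [hc.continuousAt.eventually_lt continuousAt_const h4] with t ht _
      exact ht.le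
    · filter_upwards with t ht
      rw [AEU.H72.ip_add, AEU.H72.ip_smul, h2]
      nlinarith
  have h2 : ∀ᶠ t : ℝ in 𝓝 0, ∀ s ∈ X, 0 ≤ t → ip s.1 (x + t * d) ≤ s.2 :=
    (Filter.eventually_all_finset X).2 h1
  obtain ⟨ε, hε, h3⟩ := Metric.eventually_nhds_iff.1 h2
  refine ⟨ε, hε, fun t h0 ht s hs => ?_⟩
  refine h3 ?_ s hs h0
  rw [Real.dist_eq, sub_zero, abs_of_nonneg h0]
  exact ht

/-- using minimality -/
theorem minf_le {X : Finset HP} {h : ℂ → ℝ} (hM : MinF X h) {m : ℕ} (z : Fin (m + 1) → ℂ)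
    (hz : ∀ i, z i ∈ Cl X) (ht : ∀ s ∈ touch X h, ∃ i, ip s.1 (z i) = s.2) :
    lam h ≤ lam (hf z) := by
  obtain ⟨h1, h2⟩ := (AEU.H69.mixS X).2.2 m z hz
  refine hM _ (AEU.H69.hul m z).1 h1 (fun s hs => (h2 s).2 ⟨(Finset.mem_filter.1 hs).1, ht s hs⟩)

theorem she_cl {X : Finset HP} {h : ℂ → ℝ} {i j q r : HP} {v x y : ℂ}
    (he : ShE X h i j q r v x y) : v ∈ Cl X ∧ x ∈ Cl X ∧ y ∈ Cl X := by
  refine ⟨he.vi.cl, fun s hs => ?_, fun s hs => ?_⟩
  · by_cases e : s = q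
    · rw [e, he.xq]
    · exact (he.xs s hs e).le
  · by_cases e : s = r
    · rw [e, he.yr]
    · exact (he.ys s hs e).le

theorem she_touch (vxx : VxxStatement) {X : Finset HP} (hX : Pg X) {h : ℂ → ℝ} {i j q r : HP}
    {v x y : ℂ} (he : ShE X h i j q r v x y) : touch X h = {i, j, q, r} := by
  classical
  obtain ⟨c1, c2, c3⟩ := she_cl he
  obtain ⟨-, h2⟩ := (AEU.H69.mixS X).2.2 2 ![v, x, y] (by
    intro k
    fin_cases k
    · exact c1
    · exact c2
    · exact c3)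
  ext s
  rw [he.body, h2]
  simp only [Finset.mem_insert, Finset.mem_singleton]
  constructor
  · rintro ⟨hs, k, hk⟩
    fin_cases k
    · rcases (vxx X hX).1 i j v he.vi s hs hk with e | e
      · exact Or.inl e
      · exact Or.inr (Or.inl e)
    · by_contra hcon
      push Not at hcon
      exact absurd hk (he.xs s hs hcon.2.2.1).ne
    · by_contra hcon
      push Not at hcon
      exact absurd hk (he.ys s hs hcon.2.2.2).ne
  · rintro (rfl | rfl | rfl | rfl)
    · exact ⟨he.vi.mem₁, 0, he.vi.on₁⟩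
    · exact ⟨he.vi.mem₂, 0, he.vi.on₂⟩
    · exact ⟨he.qX, 1, he.xq⟩
    · exact ⟨he.rX, 2, he.yr⟩

/-! ### Trigonometry -/

theorem ee_diff (m d : ℝ) : ee (m - d) - ee (m + d)
    = ((2 * Real.sin d : ℝ) : ℂ) * ee (m - Real.pi / 2) := by
  apply Complex.ext
  · simp only [Complex.sub_re, Complex.mul_re, ee_re, ee_im, Complex.ofReal_re,
      Complex.ofReal_im]
    rw [Real.cos_sub m d, Real.cos_add, Real.cos_sub_pi_div_two]
    ring
  · simp only [Complex.sub_im, Complex.mul_im, ee_re, ee_im, Complex.ofReal_re,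
      Complex.ofReal_im]
    rw [Real.sin_sub m d, Real.sin_add, Real.sin_sub_pi_div_two]
    ring

theorem ee_sum (m d : ℝ) : ee (m - d) + ee (m + d) = ((2 * Real.cos d : ℝ) : ℂ) * ee m := by
  apply Complex.ext
  · simp only [Complex.add_re, Complex.mul_re, ee_re, ee_im, Complex.ofReal_re,
      Complex.ofReal_im]
    rw [Real.cos_sub m d, Real.cos_add]
    ring
  · simp only [Complex.add_im, Complex.mul_im, ee_re, ee_im, Complex.ofReal_re,
      Complex.ofReal_im]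
    rw [Real.sin_sub m d, Real.sin_add]
    ring

theorem unit_eq {κ c : ℝ} {w u : ℂ} (hκ : 0 < κ) (hc : 0 < c) (hw : ‖w‖ = 1) (hu : ‖u‖ = 1)
    (h : ((κ : ℝ) : ℂ) * w = ((c : ℝ) : ℂ) * u) : w = u := by
  have e := congrArg norm h
  rw [norm_mul, norm_mul, hw, hu, Complex.norm_real, Complex.norm_real, Real.norm_of_nonneg hκ.le,
    Real.norm_of_nonneg hc.le, mul_one, mul_one] at e
  rw [e] at h
  have : (c : ℂ) ≠ 0 := by exact_mod_cast hc.ne'
  exact mul_left_cancel₀ this h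

/-- angles of a triangle -/
theorem tri_angle {γ φ l1 l2 l3 : ℝ} (g0 : 0 < γ) (g1 : γ < Real.pi / 2) (h1 : 0 < l1)
    (h2 : 0 < l2) (h3 : 0 < l3) (hφ : -Real.pi < φ) (hφ' : φ ≤ Real.pi)
    (h : (l1 : ℂ) * ee (-γ) + (l2 : ℂ) * ee φ = (l3 : ℂ) * ee γ) :
    γ < φ ∧ φ < Real.pi - γ ∧ l1 * Real.sin (φ + γ) = l3 * Real.sin (φ - γ) := by
  have hre := congrArg Complex.re h
  have him := congrArg Complex.im h
  simp only [Complex.add_re, Complex.add_im, Complex.mul_re, Complex.mul_im, ee_re, ee_im,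
    Complex.ofReal_re, Complex.ofReal_im, Real.cos_neg, Real.sin_neg] at hre him
  have sg : 0 < Real.sin γ := Real.sin_pos_of_pos_of_lt_pi g0 (by linarith [Real.pi_pos])
  have cg : 0 < Real.cos γ := Real.cos_pos_of_mem_Ioo ⟨by linarith, g1⟩
  have e1 : l2 * Real.sin φ = (l1 + l3) * Real.sin γ := by linarith
  have e2 : l2 * Real.cos φ = (l3 - l1) * Real.cos γ := by linarith
  have hs : 0 < Real.sin φ := by
    by_contra hc
    have : 0 < (l1 + l3) * Real.sin γ := by positivity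
    nlinarith [not_lt.1 hc]
  have p0 : 0 < φ := by
    by_contra hc
    have := Real.sin_nonpos_of_nonpos_of_neg_pi_le (not_lt.1 hc) hφ.le
    linarith
  have p1 : φ < Real.pi := by
    rcases hφ'.lt_or_eq with h' | h'
    · exact h'
    · rw [h', Real.sin_pi] at hs
      exact absurd hs (lt_irrefl _)
  have q := Real.sin_sq_add_cos_sq φ
  have q' := Real.sin_sq_add_cos_sq γ
  have hl : l2 < l1 + l3 := by
    have e3 : l2 ^ 2 = (l1 + l3) ^ 2 - 4 * l1 * l3 * Real.cos γ ^ 2 := by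
      have : l2 ^ 2 = (l2 * Real.sin φ) ^ 2 + (l2 * Real.cos φ) ^ 2 := by
        linear_combination (-(l2 ^ 2)) * q
      rw [this, e1, e2]
      linear_combination (l1 + l3) ^ 2 * q'
    have : 0 < 4 * l1 * l3 * Real.cos γ ^ 2 := by positivity
    nlinarith
  have hss : Real.sin γ < Real.sin φ := by
    by_contra hc
    have := not_lt.1 hc
    nlinarith
  refine ⟨?_, ?_, ?_⟩
  · by_contra hc
    have := Real.sin_le_sin_of_le_of_le_pi_div_two (by linarith) g1.le (not_lt.1 hc)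
    linarith
  · by_contra hc
    have h4 : Real.pi - φ ≤ γ := by linarith [not_lt.1 hc]
    have := Real.sin_le_sin_of_le_of_le_pi_div_two (by linarith) g1.le h4
    rw [Real.sin_pi_sub] at this
    linarith
  · rw [Real.sin_add, Real.sin_sub]
    have e3 : l2 * (Real.sin φ * ((l3 - l1) * Real.cos γ) - Real.cos φ * ((l1 + l3)
        * Real.sin γ)) = 0 := by
      rw [← e1, ← e2]
      ring
    have e4 := (mul_eq_zero.1 e3).resolve_left h2.ne'
    linarith

/-- a side at the vertex -/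
theorem side_angle {γ : ℝ} {w : ℂ} (g0 : 0 < γ) (g1 : γ < Real.pi / 2) (hw : ‖w‖ = 1)
    (h1 : ip w (ee (-γ)) < 0) (h2 : ip w (ee γ) < 0) :
    ∃ η, γ < η ∧ η < Real.pi - γ ∧ w = ee (Real.pi / 2 + η) := by
  obtain ⟨ψ, hψ, e⟩ := ex_angle (-(Real.pi / 2)) hw
  rw [← e, ip_ee_ee] at h1 h2
  have a1 : Real.pi / 2 + γ < ψ := by
    by_contra hc
    have hc' := not_lt.1 hc
    by_cases h3 : -(Real.pi / 2) + γ ≤ ψ
    · have := Real.cos_nonneg_of_neg_pi_div_two_le_of_le (x := ψ - γ) (by linarith)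
        (by linarith)
      linarith
    · have := Real.cos_nonneg_of_neg_pi_div_two_le_of_le (x := ψ - -γ) (by linarith [hψ.1])
        (by linarith [not_le.1 h3])
      linarith
  have a2 : ψ < 3 * Real.pi / 2 - γ := by
    by_contra hc
    have hc' := not_lt.1 hc
    have h4 : Real.cos (ψ - -γ) = Real.cos (ψ + γ - 2 * Real.pi) := by
      rw [Real.cos_sub_two_pi]
      congr 1
      ring
    have := Real.cos_nonneg_of_neg_pi_div_two_le_of_le (x := ψ + γ - 2 * Real.pi)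
      (by linarith) (by linarith [hψ.2])
    linarith
  refine ⟨ψ - Real.pi / 2, by linarith, by linarith, ?_⟩
  rw [← e]
  congr 1
  ring

/-- length of a segment after a small displacement -/
theorem norm_near {l s a b : ℝ} (hl : 0 < l) :
    ‖(l : ℂ) * ee a - (s : ℂ) * ee b‖ ≤ l - s * Real.cos (a - b) + s ^ 2 / (2 * l) := by
  have e : ‖(l : ℂ) * ee a - (s : ℂ) * ee b‖ ^ 2
      = l ^ 2 - 2 * l * s * Real.cos (a - b) + s ^ 2 := by
    rw [Complex.sq_norm, Complex.normSq_apply]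
    simp only [Complex.sub_re, Complex.sub_im, Complex.mul_re, Complex.mul_im, ee_re, ee_im,
      Complex.ofReal_re, Complex.ofReal_im]
    rw [Real.cos_sub]
    have h3 := Real.sin_sq_add_cos_sq a
    have h4 := Real.sin_sq_add_cos_sq b
    linear_combination l ^ 2 * h3 + s ^ 2 * h4
  have h1 : 0 ≤ (‖(l : ℂ) * ee a - (s : ℂ) * ee b‖ - l) ^ 2 := sq_nonneg _
  have h2 : l - s * Real.cos (a - b) + s ^ 2 / (2 * l)
      = (l ^ 2 - 2 * l * s * Real.cos (a - b) + s ^ 2 + l ^ 2) / (2 * l) := by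
    field_simp
    ring
  rw [h2, le_div_iff₀ (by positivity), ← e]
  nlinarith

end Pool.Agent.XQ.H29
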