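import Pool.Agent.Helper29_XQ.Frm

/-!
Squad XQ, module TOE, part 4: existence of a frame.
-/

namespace Pool.Agent.XQ.H29

open MeasureTheory Complex Filter Topology Pool.Agent.H62T
open Pool.Agent.H16F (Sublin)
open Pool.Agent.AEU
open Pool.Agent.AEU.H69 (ee ee_per sub_ii ee_add ee_neg lam3 lam4_le hf3)
open Pool.Agent.AEU.H72 (ip_map ip_add ip_sub ip_smul)

theorem Ne4.sw1 {a b c d : HP} (h : Ne4 a b c d) : Ne4 b a c d := by
  obtain ⟨h1, h2, h3, h4, h5, h6⟩ := h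
  exact ⟨h1.symm, h4, h5, h2, h3, h6⟩

theorem Ne4.sw2 {a b c d : HP} (h : Ne4 a b c d) : Ne4 a b d c := by
  obtain ⟨h1, h2, h3, h4, h5, h6⟩ := h
  exact ⟨h1, h3, h2, h5, h4, h6.symm⟩

theorem VxOf.sw {P : Finset HP} {s t : HP} {v : ℂ} (h : VxOf P s t v) : VxOf P t s v :=
  ⟨h.cl, h.mem₂, h.mem₁, h.ne.symm, h.on₂, h.on₁⟩

theorem hf3_sw (a b c : ℂ) : hf ![a, b, c] = hf ![a, c, b] := by
  funext w
  rw [hf3, hf3, max_assoc, max_assoc, max_comm (ip w b)]

section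

variable {X : Finset HP} {h : ℂ → ℝ} {i j q r : HP} {v x y : ℂ}

theorem ShE.sw1 (he : ShE X h i j q r v x y) : ShE X h j i q r v x y :=
  ⟨VxOf.sw he.vi, he.qX, he.rX, Ne4.sw1 he.ne, he.xq, he.yr, he.xs, he.ys, he.body⟩

theorem ShE.sw2 (he : ShE X h i j q r v x y) : ShE X h i j r q v y x :=
  ⟨he.vi, he.rX, he.qX, Ne4.sw2 he.ne, he.yr, he.xq, he.ys, he.xs,
    he.body.trans (hf3_sw v x y)⟩

/-- reflection law at the point `x` -/
theorem refl_x (vxx : VxxStatement) (hX : Pg X) (he : ShE X h i j q r v x y) (hM : MinF X h) :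
    ∃ κ : ℝ, 0 < κ ∧ (v - x) / (‖v - x‖ : ℂ) + (y - x) / (‖y - x‖ : ℂ)
      = -((κ : ℂ) * q.1) := by
  obtain ⟨c1, c2, c3⟩ := she_cl he
  have hv : ip q.1 v < q.2 :=
    (vxx X hX).2.1 i j v he.vi q he.qX he.ne.2.1.symm he.ne.2.2.2.1.symm
  have hy : ip q.1 y < q.2 := he.ys q he.qX he.ne.2.2.2.2.2
  refine (AEU.H72.ref q.1 v y x q.2 (hX.unit q he.qX) he.xq hv hy ?_).1
  have hd : ip q.1 (I * q.1) = 0 := by
    simp [ip]
    ring
  have hd' : ip q.1 (-(I * q.1)) = 0 := by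
    simp [ip]
    ring
  obtain ⟨ε1, e1, n1⟩ := nbhd X (x := x) (d := I * q.1) (fun s hs => by
    by_cases e : s = q
    · subst e
      exact Or.inr ⟨he.xq, hd.le⟩
    · exact Or.inl (he.xs s hs e))
  obtain ⟨ε2, e2, n2⟩ := nbhd X (x := x) (d := -(I * q.1)) (fun s hs => by
    by_cases e : s = q
    · subst e
      exact Or.inr ⟨he.xq, hd'.le⟩
    · exact Or.inl (he.xs s hs e))
  refine ⟨min ε1 ε2, lt_min e1 e2, fun t ht => ?_⟩
  have hcl : x + t * (I * q.1) ∈ Cl X := by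
    rcases le_total 0 t with h0 | h0
    · rw [abs_of_nonneg h0] at ht
      exact n1 t h0 (ht.trans_le (min_le_left _ _))
    · rw [abs_of_nonpos h0] at ht
      have := n2 (-t) (by linarith) (ht.trans_le (min_le_right _ _))
      have e3 : x + ((-t : ℝ) : ℂ) * -(I * q.1) = x + t * (I * q.1) := by
        push_cast
        ring
      rwa [e3] at this
  have h1 := minf_le hM ![v, x + t * (I * q.1), y] (by
    intro k
    fin_cases k
    · exact c1
    · exact hcl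
    · exact c3) (by
    rw [she_touch vxx hX he]
    intro s hs
    simp only [Finset.mem_insert, Finset.mem_singleton] at hs
    rcases hs with rfl | rfl | rfl | rfl
    · exact ⟨0, he.vi.on₁⟩
    · exact ⟨0, he.vi.on₂⟩
    · refine ⟨1, ?_⟩
      show ip s.1 (x + t * (I * s.1)) = s.2
      rw [ip_add, ip_smul, hd, he.xq]
      ring
    · exact ⟨2, he.yr⟩)
  rw [he.body, lam3, lam3] at h1
  linarith

/-- a frame, without the inequality which follows from minimality at the vertex -/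
structure Frm0 (X : Finset HP) (h : ℂ → ℝ) (i j q r : HP) (v x y : ℂ) (g : Iso2)
    (η1 η2 δ1 δ2 ρ l1 l3 : ℝ) : Prop where
  she : ShE X h i j q r v x y
  min : MinF X h
  gv : g v = 0
  gx : g x = (l1 : ℂ) * ee (-(δ2 - δ1 - Real.pi / 2))
  gy : g y = (l3 : ℂ) * ee (δ2 - δ1 - Real.pi / 2)
  l1p : 0 < l1
  l3p : 0 < l3
  gi : mv g i = lnU η1
  gj : mv g j = lnD η2
  gq : mv g q = lnN δ1 ρ
  gr : mv g r = lnN δ2 ρ
  ρ0 : 0 < ρ
  a3 : η1 + η2 < Real.pi
  b1 : -(Real.pi / 2) < δ1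
  b1' : δ1 < 0
  b2 : 0 < δ2
  b2' : δ2 < Real.pi / 2
  k : Real.pi / 2 < δ2 - δ1
  k1 : δ2 - δ1 - Real.pi / 2 < η1
  k2 : δ2 - δ1 - Real.pi / 2 < η2
  gxy : ∃ l2 : ℝ, 0 < l2 ∧ g y - g x = (l2 : ℂ) * ee (δ1 + δ2 + Real.pi / 2)

theorem L_smul (L : ℂ ≃ₗᵢ[ℝ] ℂ) (c : ℝ) (z : ℂ) : L ((c : ℂ) * z) = (c : ℂ) * L z := by
  rw [← Complex.real_smul, map_smul, Complex.real_smul]

theorem unit_smul {z : ℂ} (hz : z ≠ 0) : z = ((‖z‖ : ℝ) : ℂ) * (z / (‖z‖ : ℂ)) := by
  have : (‖z‖ : ℂ) ≠ 0 := by exact_mod_cast norm_ne_zero_iff.2 hz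
  field_simp

theorem ip_ee_real (δ ρ : ℝ) : ip (ee δ) (ρ : ℂ) = ρ * Real.cos δ := by
  unfold ip
  rw [ee_re, ee_im, Complex.ofReal_re, Complex.ofReal_im]
  ring

theorem exists_frm0 (vxx : VxxStatement) (hX : Pg X) (he : ShE X h i j q r v x y)
    (hM : MinF X h) (hd : dt i.1 j.1 ≠ 0) : ∃ (g : Iso2) (η1 η2 δ1 δ2 ρ l1 l3 : ℝ),
      Frm0 X h i j q r v x y g η1 η2 δ1 δ2 ρ l1 l3 ∨
        Frm0 X h j i q r v x y g η1 η2 δ1 δ2 ρ l1 l3 := by
  obtain ⟨κ, hκ, hrx⟩ := refl_x vxx hX he hM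
  obtain ⟨κ', hκ', hry⟩ := refl_x vxx hX (ShE.sw2 he) hM
  have hqv : ip q.1 v < q.2 :=
    (vxx X hX).2.1 i j v he.vi q he.qX he.ne.2.1.symm he.ne.2.2.2.1.symm
  have hrv : ip r.1 v < r.2 :=
    (vxx X hX).2.1 i j v he.vi r he.rX he.ne.2.2.1.symm he.ne.2.2.2.2.1.symm
  have hxv : x - v ≠ 0 := by
    intro e
    rw [sub_eq_zero] at e
    rw [← e, he.xq] at hqv
    exact lt_irrefl _ hqv
  have hyv : y - v ≠ 0 := by
    intro e
    rw [sub_eq_zero] at e
    rw [← e, he.yr] at hrv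
    exact lt_irrefl _ hrv
  have hyx : y - x ≠ 0 := by
    intro e
    rw [sub_eq_zero] at e
    have := he.ys q he.qX he.ne.2.2.2.2.2
    rw [e, he.xq] at this
    exact lt_irrefl _ this
  set l1 := ‖x - v‖ with hl1
  set l2 := ‖y - x‖ with hl2
  set l3 := ‖y - v‖ with hl3
  have p1 : 0 < l1 := norm_pos_iff.2 hxv
  have p2 : 0 < l2 := norm_pos_iff.2 hyx
  have p3 : 0 < l3 := norm_pos_iff.2 hyv
  set a := (x - v) / (l1 : ℂ) with ha
  set c := (y - v) / (l3 : ℂ) with hc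
  set e2 := (y - x) / (l2 : ℂ) with he2
  have na : ‖a‖ = 1 := AEU.H72.norm_unit hxv
  have nc : ‖c‖ = 1 := AEU.H72.norm_unit hyv
  have ne : ‖e2‖ = 1 := AEU.H72.norm_unit hyx
  have xa : x - v = (l1 : ℂ) * a := unit_smul hxv
  have yc : y - v = (l3 : ℂ) * c := unit_smul hyv
  have ye : y - x = (l2 : ℂ) * e2 := unit_smul hyx
  have rx : a - e2 = (κ : ℂ) * q.1 := by
    have e1 : (v - x) / (‖v - x‖ : ℂ) = -a := by
      rw [ha, hl1, norm_sub_rev x v]
      ring
    rw [e1] at hrx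
    linear_combination -hrx
  have ry : c + e2 = (κ' : ℂ) * r.1 := by
    have e1 : (v - y) / (‖v - y‖ : ℂ) = -c := by
      rw [hc, hl3, norm_sub_rev y v]
      ring
    have e3 : (x - y) / (‖x - y‖ : ℂ) = -e2 := by
      rw [he2, hl2, norm_sub_rev y x]
      ring
    rw [e1, e3] at hry
    linear_combination -hry
  have nq := hX.unit q he.qX
  have nr := hX.unit r he.rX
  have tri : (l1 : ℂ) * a + (l2 : ℂ) * e2 = (l3 : ℂ) * c := by
    rw [← xa, ← yc, ← ye]
    ring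
  have hia : ip i.1 a < 0 := by
    have h1 := he.xs i he.vi.mem₁ he.ne.2.1
    have h2 : ip i.1 (x - v) = l1 * ip i.1 a := by rw [xa, ip_smul]
    rw [ip_sub, he.vi.on₁] at h2
    by_contra hcon
    have := mul_nonneg p1.le (not_lt.1 hcon)
    linarith
  have hic : ip i.1 c < 0 := by
    have h1 := he.ys i he.vi.mem₁ he.ne.2.2.1
    have h2 : ip i.1 (y - v) = l3 * ip i.1 c := by rw [yc, ip_smul]
    rw [ip_sub, he.vi.on₁] at h2
    by_contra hcon
    have := mul_nonneg p3.le (not_lt.1 hcon)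
    linarith
  have hja : ip j.1 a < 0 := by
    have h1 := he.xs j he.vi.mem₂ he.ne.2.2.2.1
    have h2 : ip j.1 (x - v) = l1 * ip j.1 a := by rw [xa, ip_smul]
    rw [ip_sub, he.vi.on₂] at h2
    by_contra hcon
    have := mul_nonneg p1.le (not_lt.1 hcon)
    linarith
  have hjc : ip j.1 c < 0 := by
    have h1 := he.ys j he.vi.mem₂ he.ne.2.2.2.2.1
    have h2 : ip j.1 (y - v) = l3 * ip j.1 c := by rw [yc, ip_smul]
    rw [ip_sub, he.vi.on₂] at h2
    by_contra hcon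
    have := mul_nonneg p3.le (not_lt.1 hcon)
    linarith
  have hac' : a ≠ -c := by
    intro e
    rw [e] at hia
    have : ip i.1 (-c) = -ip i.1 c := by
      simp [ip]
      ring
    linarith
  have hac : a ≠ c := by
    intro e
    rw [← e] at tri ry
    have t1 : (l2 : ℂ) * e2 = ((l3 - l1 : ℝ) : ℂ) * a := by
      push_cast
      linear_combination tri
    rcases lt_trichotomy l1 l3 with h1 | h1 | h1
    · have t2 : e2 = a := unit_eq p2 (by linarith : 0 < l3 - l1) ne na t1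
      rw [t2, sub_self] at rx
      have := congrArg norm rx
      rw [norm_mul, nq, Complex.norm_real, Real.norm_of_nonneg hκ.le, norm_zero] at this
      linarith
    · rw [h1, sub_self, Complex.ofReal_zero, zero_mul] at t1
      have := congrArg norm t1
      rw [norm_mul, ne, Complex.norm_real, Real.norm_of_nonneg p2.le, norm_zero] at this
      linarith
    · have t2 : e2 = -a := by
        apply unit_eq p2 (by linarith : 0 < l1 - l3) ne (by rw [norm_neg]; exact na)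
        rw [t1]
        push_cast
        ring
      rw [t2, add_neg_cancel] at ry
      have := congrArg norm ry
      rw [norm_mul, nr, Complex.norm_real, Real.norm_of_nonneg hκ'.le, norm_zero] at this
      linarith
  obtain ⟨L, γ, g0, g1, La, Lc⟩ := frame na nc hac hac'
  have nLe : ‖L e2‖ = 1 := by rw [L.norm_map, ne]
  have Le : L e2 = ee (Complex.arg (L e2)) := by
    have := Complex.norm_mul_exp_arg_mul_I (L e2)
    rw [nLe, Complex.ofReal_one, one_mul] at this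
    exact this.symm
  set φ := Complex.arg (L e2) with hφ
  have tri' : (l1 : ℂ) * ee (-γ) + (l2 : ℂ) * ee φ = (l3 : ℂ) * ee γ := by
    rw [← La, ← Lc, ← Le, ← L_smul, ← L_smul, ← L_smul, ← map_add, tri]
  obtain ⟨f1, f2, f3⟩ := tri_angle g0 g1 p1 p2 p3 (Complex.neg_pi_lt_arg _)
    (Complex.arg_le_pi _) tri'
  have hpi := Real.pi_pos
  -- the normals of the sides `q`, `r`
  have Lq : L q.1 = ee ((φ - γ) / 2 - Real.pi / 2) := by
    have s0 : 0 < 2 * Real.sin ((φ + γ) / 2) := by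
      have := Real.sin_pos_of_pos_of_lt_pi (x := (φ + γ) / 2) (by linarith) (by linarith)
      linarith
    apply unit_eq hκ s0 (by rw [L.norm_map, nq]) (AEU.H69.norm_ee _)
    rw [← ee_diff, ← L_smul, ← rx, map_sub, La, Le]
    congr 2
    · ring
    · ring
  have Lr : L r.1 = ee ((φ + γ) / 2) := by
    have s0 : 0 < 2 * Real.cos ((φ - γ) / 2) := by
      have := Real.cos_pos_of_mem_Ioo (x := (φ - γ) / 2) ⟨by linarith, by linarith⟩
      linarith
    apply unit_eq hκ' s0 (by rw [L.norm_map, nr]) (AEU.H69.norm_ee _)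
    rw [← ee_sum, ← L_smul, ← ry, map_add, Lc, Le]
    congr 2
    · ring
    · ring
  set δ1 := (φ - γ) / 2 - Real.pi / 2 with hδ1
  set δ2 := (φ + γ) / 2 with hδ2
  have dd : δ2 - δ1 - Real.pi / 2 = γ := by
    rw [hδ1, hδ2]
    ring
  have cd1 : 0 < Real.cos δ1 := Real.cos_pos_of_mem_Ioo ⟨by linarith, by linarith⟩
  have sd2 : 0 < Real.sin δ2 := Real.sin_pos_of_pos_of_lt_pi (by linarith) (by linarith)
  have f3' : l1 * (Real.sin δ2 * Real.cos δ2) = -(l3 * (Real.sin δ1 * Real.cos δ1)) := by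
    have e1 : φ + γ = 2 * δ2 := by
      rw [hδ2]
      ring
    have e3 : φ - γ = 2 * δ1 + Real.pi := by
      rw [hδ1]
      ring
    rw [e1, e3, Real.sin_add_pi, Real.sin_two_mul, Real.sin_two_mul] at f3
    linarith only [f3]
  have q2 : q.2 - ip q.1 v = l1 * Real.sin δ2 := by
    have e1 : q.2 - ip q.1 v = ip q.1 (x - v) := by rw [ip_sub, he.xq]
    rw [e1, xa, ip_smul, ← ip_map L, Lq, La, ip_ee_ee]
    congr 1
    have e3 : δ1 - -γ = δ2 - Real.pi / 2 := by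
      rw [hδ1, hδ2]
      ring
    rw [e3, Real.cos_sub_pi_div_two]
  have r2 : r.2 - ip r.1 v = -(l3 * Real.sin δ1) := by
    have e1 : r.2 - ip r.1 v = ip r.1 (y - v) := by rw [ip_sub, he.yr]
    rw [e1, yc, ip_smul, ← ip_map L, Lr, Lc, ip_ee_ee]
    have e3 : δ2 - γ = δ1 + Real.pi / 2 := by
      rw [hδ1, hδ2]
      ring
    rw [e3, Real.cos_add_pi_div_two]
    ring
  set ρ := l1 * Real.sin δ2 / Real.cos δ1 with hρ
  have hρ0 : 0 < ρ := by positivity
  have gq : mv (mkIso L v) q = lnN δ1 ρ := by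
    rw [mv_mkIso, Lq, q2]
    have : lnN δ1 ρ = (ee δ1, ip (ee δ1) (ρ : ℂ)) := rfl
    rw [this, ip_ee_real, hρ]
    congr 1
    field_simp
  have gr : mv (mkIso L v) r = lnN δ2 ρ := by
    rw [mv_mkIso, Lr, r2]
    have : lnN δ2 ρ = (ee δ2, ip (ee δ2) (ρ : ℂ)) := rfl
    rw [this, ip_ee_real, hρ]
    congr 1
    field_simp
    linarith only [f3']
  have gv : (mkIso L v) v = 0 := by
    rw [mkIso_apply, sub_self, map_zero]
  have gx : (mkIso L v) x = (l1 : ℂ) * ee (-(δ2 - δ1 - Real.pi / 2)) := by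
    rw [dd, mkIso_apply, xa, L_smul, La]
  have gy : (mkIso L v) y = (l3 : ℂ) * ee (δ2 - δ1 - Real.pi / 2) := by
    rw [dd, mkIso_apply, yc, L_smul, Lc]
  have gxy : ∃ l2 : ℝ, 0 < l2 ∧ (mkIso L v) y - (mkIso L v) x
      = (l2 : ℂ) * ee (δ1 + δ2 + Real.pi / 2) := by
    refine ⟨l2, p2, ?_⟩
    have e1 : δ1 + δ2 + Real.pi / 2 = φ := by
      rw [hδ1, hδ2]
      ring
    rw [e1, mkIso_apply, mkIso_apply, ← map_sub, show y - v - (x - v) = y - x by ring, ye,
      L_smul, Le]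
  obtain ⟨ηi, i1, i2, Li⟩ := side_angle (w := L i.1) g0 g1
    (by rw [L.norm_map, hX.unit i he.vi.mem₁]) (by rw [← La, ip_map]; exact hia)
    (by rw [← Lc, ip_map]; exact hic)
  obtain ⟨ηj, j1, j2, Lj⟩ := side_angle (w := L j.1) g0 g1
    (by rw [L.norm_map, hX.unit j he.vi.mem₂]) (by rw [← La, ip_map]; exact hja)
    (by rw [← Lc, ip_map]; exact hjc)
  have mvi : mv (mkIso L v) i = (ee (Real.pi / 2 + ηi), 0) := by
    rw [mv_mkIso, Li, he.vi.on₁, sub_self]
  have mvj : mv (mkIso L v) j = (ee (Real.pi / 2 + ηj), 0) := by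
    rw [mv_mkIso, Lj, he.vi.on₂, sub_self]
  have up : ∀ η : ℝ, ((ee (Real.pi / 2 + η), 0) : HP) = lnU η := fun η =>
    Prod.ext (lnU_ee η).symm rfl
  have dn : ∀ η : ℝ, ((ee (Real.pi / 2 + η), 0) : HP) = lnD (Real.pi - η) := fun η =>
    Prod.ext (by
      rw [lnD_ee]
      show ee (Real.pi / 2 + η) = _
      congr 1
      ring) rfl
  have hij : ηi ≠ ηj := by
    intro e
    rw [e, ← Lj] at Li
    have : i.1 = j.1 := L.injective Li
    apply hd
    rw [this]
    unfold dt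
    ring
  rcases lt_or_gt_of_ne hij with hlt | hlt
  · refine ⟨mkIso L v, ηi, Real.pi - ηj, δ1, δ2, ρ, l1, l3, Or.inl ?_⟩
    exact ⟨he, hM, gv, gx, gy, p1, p3, mvi.trans (up _), mvj.trans (dn _), gq, gr, hρ0,
      by linarith, by linarith only [f1, hδ1], by linarith only [g0, f2, hδ1], by linarith only [g0, f1, hδ2], by linarith only [f2, hδ2], by linarith only [g0, hδ1, hδ2], by linarith only [hδ1, hδ2, i1],
      by linarith only [hδ1, hδ2, j2], gxy⟩
  · refine ⟨mkIso L v, ηj, Real.pi - ηi, δ1, δ2, ρ, l1, l3, Or.inr ?_⟩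
    exact ⟨ShE.sw1 he, hM, gv, gx, gy, p1, p3, mvj.trans (up _), mvi.trans (dn _), gq, gr, hρ0,
      by linarith only [hlt], by linarith only [f1, hδ1], by linarith only [g0, f2, hδ1], by linarith only [g0, f1, hδ2], by linarith only [f2, hδ2], by linarith only [g0, hδ1, hδ2], by linarith only [hδ1, hδ2, j1],
      by linarith only [hδ1, hδ2, i2], gxy⟩

end

end Pool.Agent.XQ.H29
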