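import Pool.Agent.Helper29_XQ.Frm2

/-!
Squad XQ, module TOE, part 5: minimality at the vertex.
-/

namespace Pool.Agent.XQ.H29

open MeasureTheory Complex Filter Topology Pool.Agent.H62T
open Pool.Agent.H16F (Sublin)
open Pool.Agent.AEU
open Pool.Agent.AEU.H69 (ee ee_per sub_ii ee_add ee_neg lam3 lam4_le hf3)
open Pool.Agent.AEU.H72 (ip_map ip_add ip_sub ip_smul)

theorem nrm_g (g : Iso2) (a b : ℂ) : ‖a - b‖ = ‖g a - g b‖ := by
  have := g.dist_map a b
  rw [dist_eq_norm, dist_eq_norm] at this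
  exact this.symm

theorem g_shift (g : Iso2) {v : ℂ} (hv : g v = 0) (t : ℝ) (w : ℂ) :
    g (v + t * g.linearIsometryEquiv.symm w) = (t : ℂ) * w := by
  have h1 := AEU.H72.app g v
  have h2 := AEU.H72.app g (v + t * g.linearIsometryEquiv.symm w)
  rw [hv] at h1
  rw [h2, map_add, L_smul, LinearIsometryEquiv.apply_symm_apply]
  linear_combination -h1

theorem le_of_small {a b M ε : ℝ} (hε : 0 < ε) (hM : 0 ≤ M)
    (h : ∀ τ : ℝ, 0 < τ → τ < ε → a ≤ b + τ * M) : a ≤ b := by
  by_contra hcon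
  have hab : 0 < a - b := by linarith [not_le.1 hcon]
  have h1 := h (min (ε / 2) ((a - b) / (2 * (M + 1)))) (lt_min (by linarith) (by positivity))
    ((min_le_left _ _).trans_lt (by linarith))
  have h2 : min (ε / 2) ((a - b) / (2 * (M + 1))) * M ≤ (a - b) / (2 * (M + 1)) * (M + 1) :=
    mul_le_mul (min_le_right _ _) (by linarith) hM (by positivity)
  have h3 : (a - b) / (2 * (M + 1)) * (M + 1) = (a - b) / 2 := by
    field_simp
  linarith

section

variable {X : Finset HP} {h : ℂ → ℝ} {i j q r : HP} {v x y : ℂ} {g : Iso2}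
  {η1 η2 δ1 δ2 ρ l1 l3 : ℝ}

theorem Frm0.ka (vxx : VxxStatement) (hX : Pg X)
    (f : Frm0 X h i j q r v x y g η1 η2 δ1 δ2 ρ l1 l3) (hne : ip i.1 j.1 + ip q.1 r.1 ≠ 0) :
    δ2 - δ1 < η1 + η2 := by
  have hpi := Real.pi_pos
  have he := f.she
  obtain ⟨c1, c2, c3⟩ := she_cl he
  have gx := f.gx
  have gy := f.gy
  set γ := δ2 - δ1 - Real.pi / 2 with hγ
  have g0 : 0 < γ := by linarith [f.k]
  have g1 : γ < Real.pi / 2 := by linarith [f.b1, f.b2']
  have k1 : γ < η1 := f.k1
  have k2 : γ < η2 := f.k2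
  have a3 := f.a3
  set L := g.linearIsometryEquiv with hL
  have Li : L i.1 = ee (Real.pi / 2 + η1) := by
    have := congrArg Prod.fst f.gi
    rw [lnU_ee] at this
    exact this
  have Lj : L j.1 = ee (3 * Real.pi / 2 - η2) := by
    have := congrArg Prod.fst f.gj
    rw [lnD_ee] at this
    exact this
  have Lq : L q.1 = ee δ1 := congrArg Prod.fst f.gq
  have Lr : L r.1 = ee δ2 := congrArg Prod.fst f.gr
  have ipl : ∀ (s : HP) (w : ℂ), ip s.1 (L.symm w) = ip (L s.1) w := by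
    intro s w
    rw [← ip_map L s.1 (L.symm w), LinearIsometryEquiv.apply_symm_apply]
  have sa : 0 < Real.sin (η1 + η2) := Real.sin_pos_of_pos_of_lt_pi (by linarith) a3
  obtain ⟨ε1, e1, n1⟩ := nbhd X (x := v) (d := L.symm (ee η1)) (fun s hs => by
    by_cases hi : s = i
    · subst hi
      refine Or.inr ⟨he.vi.on₁, ?_⟩
      rw [ipl, Li, ip_ee_ee, show Real.pi / 2 + η1 - η1 = Real.pi / 2 by ring,
        Real.cos_pi_div_two]
    · by_cases hj : s = j
      · subst hj
        refine Or.inr ⟨he.vi.on₂, ?_⟩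
        rw [ipl, Lj, ip_ee_ee, show 3 * Real.pi / 2 - η2 - η1
          = (Real.pi / 2 - (η1 + η2)) + Real.pi by ring, Real.cos_add_pi,
          Real.cos_pi_div_two_sub]
        linarith
      · exact Or.inl ((vxx X hX).2.1 i j v he.vi s hs hi hj))
  obtain ⟨ε2, e2, n2⟩ := nbhd X (x := v) (d := L.symm (ee (-η2))) (fun s hs => by
    by_cases hi : s = i
    · subst hi
      refine Or.inr ⟨he.vi.on₁, ?_⟩
      rw [ipl, Li, ip_ee_ee, show Real.pi / 2 + η1 - -η2 = (η1 + η2) + Real.pi / 2 by ring,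
        Real.cos_add_pi_div_two]
      linarith
    · by_cases hj : s = j
      · subst hj
        refine Or.inr ⟨he.vi.on₂, ?_⟩
        rw [ipl, Lj, ip_ee_ee, show 3 * Real.pi / 2 - η2 - -η2
          = Real.pi / 2 + Real.pi by ring, Real.cos_add_pi, Real.cos_pi_div_two]
        linarith
      · exact Or.inl ((vxx X hX).2.1 i j v he.vi s hs hi hj))
  set A := Real.sin (η2 - γ) with hA
  set B := Real.sin (η1 - γ) with hB
  have A0 : 0 < A := Real.sin_pos_of_pos_of_lt_pi (by linarith) (by linarith)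
  have B0 : 0 < B := Real.sin_pos_of_pos_of_lt_pi (by linarith) (by linarith)
  have A1 : A ≤ 1 := Real.sin_le_one _
  have B1 : B ≤ 1 := Real.sin_le_one _
  set D := ‖(A : ℂ) * ee η1 - (B : ℂ) * ee (-η2)‖ with hD
  have p1 := f.l1p
  have p3 := f.l3p
  have key : A * Real.cos (γ - η1) + B * Real.cos (-γ - -η2) ≤ D := by
    apply le_of_small (lt_min e1 e2) (M := A ^ 2 / (2 * l3) + B ^ 2 / (2 * l1)) (by positivity)
    intro τ t0 t1
    have s1 : τ * A < ε1 := by
      have := t1.trans_le (min_le_left _ _)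
      nlinarith only [e1, A1, A0, this]
    have s2 : τ * B < ε2 := by
      have := t1.trans_le (min_le_right _ _)
      nlinarith only [e2, B1, B0, this]
    have q1 := n1 (τ * A) (by positivity) s1
    have q2 := n2 (τ * B) (by positivity) s2
    set v1 := v + ((τ * A : ℝ) : ℂ) * L.symm (ee η1) with hv1
    set v2 := v + ((τ * B : ℝ) : ℂ) * L.symm (ee (-η2)) with hv2
    have h1 := minf_le f.min ![x, y, v1, v2] (by
      intro k
      fin_cases k
      · exact c2
      · exact c3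
      · exact q1
      · exact q2) (by
      rw [she_touch vxx hX he]
      intro s hs
      simp only [Finset.mem_insert, Finset.mem_singleton] at hs
      rcases hs with rfl | rfl | rfl | rfl
      · refine ⟨2, ?_⟩
        show ip s.1 v1 = s.2
        rw [hv1, ip_add, ip_smul, ipl, Li, ip_ee_ee,
          show Real.pi / 2 + η1 - η1 = Real.pi / 2 by ring, Real.cos_pi_div_two, he.vi.on₁]
        ring
      · refine ⟨3, ?_⟩
        show ip s.1 v2 = s.2
        rw [hv2, ip_add, ip_smul, ipl, Lj, ip_ee_ee, show 3 * Real.pi / 2 - η2 - -η2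
          = Real.pi / 2 + Real.pi by ring, Real.cos_add_pi, Real.cos_pi_div_two, he.vi.on₂]
        ring
      · exact ⟨0, he.xq⟩
      · exact ⟨1, he.yr⟩)
    have h2 := h1.trans (lam4_le x y v1 v2)
    rw [he.body, lam3] at h2
    have gv1 : g v1 = ((τ * A : ℝ) : ℂ) * ee η1 := g_shift g f.gv _ _
    have gv2 : g v2 = ((τ * B : ℝ) : ℂ) * ee (-η2) := g_shift g f.gv _ _
    have m1 : ‖v - x‖ = l1 := by
      rw [nrm_g g, f.gv, gx, zero_sub, norm_neg, norm_mul, AEU.H69.norm_ee,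
        Complex.norm_real, Real.norm_of_nonneg p1.le, mul_one]
    have m3 : ‖y - v‖ = l3 := by
      rw [nrm_g g, f.gv, gy, sub_zero, norm_mul, AEU.H69.norm_ee,
        Complex.norm_real, Real.norm_of_nonneg p3.le, mul_one]
    have m4 : ‖y - v1‖ ≤ l3 - (τ * A) * Real.cos (γ - η1) + (τ * A) ^ 2 / (2 * l3) := by
      rw [nrm_g g, gy, gv1]
      exact norm_near p3
    have m5 : ‖v2 - x‖ ≤ l1 - (τ * B) * Real.cos (-γ - -η2) + (τ * B) ^ 2 / (2 * l1) := by
      rw [norm_sub_rev, nrm_g g, gx, gv2]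
      exact norm_near p1
    have m6 : ‖v1 - v2‖ = τ * D := by
      rw [nrm_g g, gv1, gv2, hD]
      have : ((τ * A : ℝ) : ℂ) * ee η1 - ((τ * B : ℝ) : ℂ) * ee (-η2)
          = ((τ : ℝ) : ℂ) * ((A : ℂ) * ee η1 - (B : ℂ) * ee (-η2)) := by
        push_cast
        ring
      rw [this, norm_mul, Complex.norm_real, Real.norm_of_nonneg t0.le]
    rw [m1, m3, m6] at h2
    have h3 : τ * (A * Real.cos (γ - η1) + B * Real.cos (-γ - -η2))
        ≤ τ * (D + τ * (A ^ 2 / (2 * l3) + B ^ 2 / (2 * l1))) := by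
      have e3 : (τ * A) ^ 2 / (2 * l3) = τ * (τ * (A ^ 2 / (2 * l3))) := by ring
      have e4 : (τ * B) ^ 2 / (2 * l1) = τ * (τ * (B ^ 2 / (2 * l1))) := by ring
      rw [e3] at m4
      rw [e4] at m5
      linarith only [h2, m4, m5]
    exact le_of_mul_le_mul_left h3 t0
  have D2 : D ^ 2 = A ^ 2 + B ^ 2 - 2 * A * B * Real.cos (η1 + η2) := by
    rw [hD, Complex.sq_norm, Complex.normSq_apply]
    simp only [Complex.sub_re, Complex.sub_im, Complex.mul_re, Complex.mul_im, ee_re, ee_im,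
      Complex.ofReal_re, Complex.ofReal_im]
    rw [Real.cos_add, Real.cos_neg, Real.sin_neg]
    have h3 := Real.sin_sq_add_cos_sq η1
    have h4 := Real.sin_sq_add_cos_sq η2
    linear_combination A ^ 2 * h3 + B ^ 2 * h4
  have e3 : Real.cos (γ - η1) = Real.cos (η1 - γ) := by
    rw [← Real.cos_neg]
    congr 1
    ring
  have e4 : Real.cos (-γ - -η2) = Real.cos (η2 - γ) := by
    congr 1
    ring
  rw [e3, e4] at key
  have hsum : A * Real.cos (η1 - γ) + B * Real.cos (η2 - γ) = Real.sin (η1 + η2 - 2 * γ) := by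
    rw [hA, hB, show η1 + η2 - 2 * γ = (η2 - γ) + (η1 - γ) by ring, Real.sin_add]
    ring
  have hpos : 0 < Real.sin (η1 + η2 - 2 * γ) :=
    Real.sin_pos_of_pos_of_lt_pi (by linarith) (by linarith)
  rw [hsum] at key
  have hsq : Real.sin (η1 + η2 - 2 * γ) ^ 2 ≤ D ^ 2 := by nlinarith only [key, hpos]
  have hid : Real.sin (η1 + η2 - 2 * γ) ^ 2
      = A ^ 2 + B ^ 2 + 2 * A * B * Real.cos (η1 + η2 - 2 * γ) := by
    rw [← hsum, show η1 + η2 - 2 * γ = (η2 - γ) + (η1 - γ) by ring, Real.cos_add, ← hA, ← hB]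
    have h3 := Real.sin_sq_add_cos_sq (η1 - γ)
    have h4 := Real.sin_sq_add_cos_sq (η2 - γ)
    rw [← hB] at h3
    rw [← hA] at h4
    linear_combination A ^ 2 * h3 + B ^ 2 * h4
  rw [hid, D2] at hsq
  have hAB : 0 < A * B := mul_pos A0 B0
  have hc1 : Real.cos (η1 + η2 - 2 * γ) + Real.cos (η1 + η2) ≤ 0 := by
    by_contra hcon
    have := mul_pos hAB (not_le.1 hcon)
    linarith only [hsq, this]
  have hc2 : Real.cos (η1 + η2 - 2 * γ) + Real.cos (η1 + η2)
      = 2 * Real.cos (η1 + η2 - γ) * Real.cos γ := by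
    rw [show η1 + η2 - 2 * γ = (η1 + η2 - γ) - γ by ring, Real.cos_sub (η1 + η2 - γ) γ]
    have : Real.cos (η1 + η2) = Real.cos ((η1 + η2 - γ) + γ) := by
      congr 1
      ring
    rw [this, Real.cos_add (η1 + η2 - γ) γ]
    ring
  have cg : 0 < Real.cos γ := Real.cos_pos_of_mem_Ioo ⟨by linarith, g1⟩
  have hc3 : Real.cos (η1 + η2 - γ) ≤ 0 := by
    rw [hc2] at hc1
    by_contra hcon
    have := mul_pos (not_le.1 hcon) cg
    linarith
  have h5 : Real.pi / 2 ≤ η1 + η2 - γ := by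
    by_contra hcon
    have := Real.cos_pos_of_mem_Ioo (x := η1 + η2 - γ) ⟨by linarith, not_le.1 hcon⟩
    linarith
  rcases h5.lt_or_eq with h6 | h6
  · linarith
  · exfalso
    apply hne
    rw [← ip_map L i.1, ← ip_map L q.1, Li, Lj, Lq, Lr, ip_ee_ee, ip_ee_ee]
    have a1 : Real.pi / 2 + η1 - (3 * Real.pi / 2 - η2) = γ - Real.pi / 2 := by linarith only [h6]
    have a2 : δ1 - δ2 = -(γ + Real.pi / 2) := by linarith only [hγ]
    rw [a1, a2, Real.cos_neg, Real.cos_sub_pi_div_two, Real.cos_add_pi_div_two]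
    ring

end

end Pool.Agent.XQ.H29
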