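import Pool.Agent.Helper29_XQ.Stmt

/-!
Squad XQ, part N: generic angles (x1, x2) and Fubini.
-/

namespace Pool.Agent.XQ.H29

open MeasureTheory Complex Filter Topology Pool.Agent.H62T
open Pool.Agent.AEU
open Pool.Agent.AEU.H29 (GA GU GI Di Sa un Dl El Fl Rn)
open Pool.Agent.AEU.H75 (ae_sin)

variable {n : ℕ}

/-- for angles `x`, `y` with `cos (x - y) ≠ 0` -/
theorem ne_I_exp {x y : ℝ} (h : Real.cos (x - y) ≠ 0) :
    Complex.exp (x * I) ≠ I * Complex.exp (y * I) ∧
      Complex.exp (x * I) ≠ -(I * Complex.exp (y * I)) := by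
  have hc := Real.cos_sub x y
  constructor
  · intro e
    have e1 := congrArg Complex.re e
    have e2 := congrArg Complex.im e
    rw [Complex.exp_ofReal_mul_I_re] at e1
    rw [Complex.exp_ofReal_mul_I_im] at e2
    simp only [Complex.mul_re, Complex.mul_im, Complex.I_re, Complex.I_im,
      Complex.exp_ofReal_mul_I_re, Complex.exp_ofReal_mul_I_im] at e1 e2
    apply h
    rw [hc, e1, e2]
    ring
  · intro e
    have e1 := congrArg Complex.re e
    have e2 := congrArg Complex.im e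
    rw [Complex.exp_ofReal_mul_I_re] at e1
    rw [Complex.exp_ofReal_mul_I_im] at e2
    simp only [Complex.neg_re, Complex.neg_im, Complex.mul_re, Complex.mul_im, Complex.I_re,
      Complex.I_im, Complex.exp_ofReal_mul_I_re, Complex.exp_ofReal_mul_I_im] at e1 e2
    apply h
    rw [hc, e1, e2]
    ring

theorem un_mul (θ : Fin n → ℝ) (i j : Fin n) :
    un θ i * un θ j = Complex.exp (((θ i + θ j : ℝ) : ℂ) * I) := by
  unfold un
  rw [← Complex.exp_add]
  push_cast
  ring_nf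

theorem ae_cos (ℓ : (Fin n → ℝ) →ₗ[ℝ] ℝ) (m : Fin n) (hm : ℓ (Pi.single m 1) ≠ 0) :
    ∀ᵐ θ : Fin n → ℝ, Real.cos (ℓ θ) ≠ 0 := by
  filter_upwards [ae_sin ℓ m hm (Real.pi / 2)] with θ h
  rwa [Real.sin_add_pi_div_two] at h

theorem ae_x1 (a b c d : Fin n) (h : D4 a b c d) : ∀ᵐ θ : Fin n → ℝ,
    un θ a * un θ c ≠ I * (un θ b * un θ d) ∧ un θ a * un θ c ≠ -(I * (un θ b * un θ d)) := by
  obtain ⟨h1, h2, h3, h4, h5, h6⟩ := h
  have := ae_cos (H75.pr a + H75.pr c - (H75.pr b + H75.pr d)) a (by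
    simp [Pi.single_eq_of_ne h1.symm, Pi.single_eq_of_ne h2.symm, Pi.single_eq_of_ne h3.symm])
  filter_upwards [this] with θ hθ
  rw [un_mul, un_mul]
  exact ne_I_exp hθ

theorem ae_x2 (a b c : Fin n) (h : Di a b c) : ∀ᵐ θ : Fin n → ℝ,
    un θ a * un θ a ≠ I * (un θ b * un θ c) ∧ un θ a * un θ a ≠ -(I * (un θ b * un θ c)) := by
  obtain ⟨h1, h2, h3⟩ := h
  have := ae_cos (H75.pr a + H75.pr a - (H75.pr b + H75.pr c)) a (by
    simp [Pi.single_eq_of_ne h1.symm, Pi.single_eq_of_ne h2.symm])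
  filter_upwards [this] with θ hθ
  rw [un_mul, un_mul]
  exact ne_I_exp hθ

/-- ANGX -/
theorem angX : AngXStatement := by
  intro n
  have h1 : ∀ᵐ θ : Fin n → ℝ, ∀ a b c d, D4 a b c d → un θ a * un θ c ≠ I * (un θ b * un θ d) ∧
      un θ a * un θ c ≠ -(I * (un θ b * un θ d)) :=
    ae_all_iff.2 fun a => ae_all_iff.2 fun b => ae_all_iff.2 fun c => ae_all_iff.2 fun d =>
      ae_all_iff.2 fun h => ae_x1 a b c d h
  have h2 : ∀ᵐ θ : Fin n → ℝ, ∀ a b c, Di a b c → un θ a * un θ a ≠ I * (un θ b * un θ c) ∧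
      un θ a * un θ a ≠ -(I * (un θ b * un θ c)) :=
    ae_all_iff.2 fun a => ae_all_iff.2 fun b => ae_all_iff.2 fun c =>
      ae_all_iff.2 fun h => ae_x2 a b c h
  filter_upwards [H75.ang n, h1, h2] with θ g g1 g2
  exact { toGA := g, nr := AEU.H29.norm_un θ, x1 := g1, x2 := g2 }

/-- Fubini: a measurable condition which holds for generic normals and almost all support
numbers -/
theorem fub {C : (Fin n → ℂ) → (Fin n → ℝ) → Prop}
    (hC : MeasurableSet {p : (Fin n → ℂ) × (Fin n → ℝ) | C p.1 p.2})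
    (h : ∀ u, GUX u → ∀ᵐ H : Fin n → ℝ, C u H) :
    ∀ᵐ p : (Fin n → ℝ) × (Fin n → ℝ), C (un p.1) p.2 := by
  have hm : Measurable fun p : (Fin n → ℝ) × (Fin n → ℝ) => ((un p.1, p.2) :
      (Fin n → ℂ) × (Fin n → ℝ)) :=
    (AEU.H29.measurable_un.comp measurable_fst).prodMk measurable_snd
  have hs : MeasurableSet {p : (Fin n → ℝ) × (Fin n → ℝ) | ¬ C (un p.1) p.2} :=
    (hm hC).compl
  rw [ae_iff, Measure.volume_eq_prod, Measure.measure_prod_null hs]
  filter_upwards [angX n] with θ hθ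
  exact h (un θ) hθ

/-- Fubini in one coordinate: for every base point, the condition holds for almost all values of
the coordinate `m` -/
theorem line {C : (Fin n → ℝ) → Prop} (m : Fin n) (hC : MeasurableSet {H | C H})
    (h : ∀ H, ∀ᵐ t : ℝ, C (Function.update H m t)) : ∀ᵐ H : Fin n → ℝ, C H := by
  refine H75.ae_of_line m C hC (fun H => ?_)
  have e : ∀ t : ℝ, H + t • Pi.single m 1 = Function.update H m (H m + t) := by
    intro t
    funext k
    by_cases hk : k = m
    · subst hk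
      simp
    · simp [hk]
  simp only [e]
  have h1 := h H
  have h2 : MeasurePreserving (fun t : ℝ => H m + t) := measurePreserving_add_left volume (H m)
  exact h2.quasiMeasurePreserving.ae h1

end Pool.Agent.XQ.H29
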