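import Pool.Agent.Helper16_XQ.StmtG
import Pool.Agent.Helper69_AEU.Per

/-!
Squad XQ, module TOE, part 1: the certificate of a torn body of type E in standard position.
-/

namespace Pool.Agent.XQ.H29

open MeasureTheory Complex Filter Topology Pool.Agent.H62T
open Pool.Agent.H16F (Sublin)
open Pool.Agent.AEU
open Pool.Agent.AEU.H69 (ee ee_per sub_ii)

theorem ee_re (x : ℝ) : (ee x).re = Real.cos x := Complex.exp_ofReal_mul_I_re x

theorem ee_im (x : ℝ) : (ee x).im = Real.sin x := Complex.exp_ofReal_mul_I_im x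

theorem chord (c l : ℝ) :
    I * ee (c - l) - I * ee (c + l) = ((2 * Real.sin l : ℝ) : ℂ) * ee c := by
  apply Complex.ext
  · simp only [Complex.sub_re, Complex.mul_re, Complex.I_re, Complex.I_im, ee_re, ee_im,
      Complex.ofReal_re, Complex.ofReal_im, Real.sin_add, Real.sin_sub]
    ring
  · simp only [Complex.sub_im, Complex.mul_im, Complex.I_re, Complex.I_im, ee_re, ee_im,
      Complex.ofReal_re, Complex.ofReal_im, Real.cos_add, Real.cos_sub]
    ring

theorem lam_shift (h : ℂ → ℝ) (a : ℝ) :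
    lam h = ∫ θ in a..(a + 2 * Real.pi), h (ee θ) := by
  have hp : Function.Periodic (fun θ => h (ee θ)) (2 * Real.pi) := fun θ => by
    simp only [ee_per θ]
  have := hp.intervalIntegral_add_eq 0 a
  rw [zero_add] at this
  exact this

/-- one arc -/
theorem arc1 (arc : ArcStatement) {h : ℂ → ℝ} (hs : Sublin h) {c l : ℝ} (hl : 0 < l)
    (hl' : l < Real.pi) :
    2 * Real.sin l * h (ee c) ≤ ∫ θ in (c - l)..(c + l), h (ee θ) ∧
      (∫ θ in (c - l)..(c + l), h (ee θ) ≤ 2 * Real.sin l * h (ee c) →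
        ∃ y : ℂ, In y h ∧ ∀ θ ∈ Set.Icc (c - l) (c + l), h (ee θ) = ip (ee θ) y) := by
  have h1 := arc h hs (c - l) (c + l) (by linarith) (by linarith)
  have h2 : h (I * ee (c - l) - I * ee (c + l)) = 2 * Real.sin l * h (ee c) := by
    rw [chord, hs.2 _ _ (by
      have := Real.sin_pos_of_pos_of_lt_pi hl hl'
      positivity)]
  have h3 : h (I * exp ((c - l : ℝ) * I) - I * exp ((c + l : ℝ) * I))
      = 2 * Real.sin l * h (ee c) := h2
  rw [h3] at h1
  exact ⟨h1.1, fun h4 => h1.2 h4 (by linarith)⟩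

/-- parameters of a torn body of type E -/
structure Par (η1 η2 δ1 δ2 : ℝ) : Prop where
  a1 : 0 < η1
  a2 : 0 < η2
  a3 : η1 + η2 < Real.pi
  b1 : -(Real.pi / 2) < δ1
  b1' : δ1 < 0
  b2 : 0 < δ2
  b2' : δ2 < Real.pi / 2
  k : Real.pi / 2 < δ2 - δ1
  ka : δ2 - δ1 < η1 + η2
  k1 : δ2 - δ1 - Real.pi / 2 < η1
  k2 : δ2 - δ1 - Real.pi / 2 < η2
  alt : (η1 < Real.pi / 2 ∧ η2 < Real.pi / 2) ∨ Real.pi / 2 < η1

/-- coefficient of the upper side -/
noncomputable def cI (η1 η2 κ : ℝ) : ℝ := 2 * Real.sin κ * Real.cos η2 / Real.sin (η1 + η2)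

/-- coefficient of the lower side -/
noncomputable def cJ (η1 η2 κ : ℝ) : ℝ := 2 * Real.sin κ * Real.cos η1 / Real.sin (η1 + η2)

theorem lnU_fst (η : ℝ) : (lnU η).1 = I * ee η := rfl

theorem lnD_fst (η : ℝ) : (lnD η).1 = -(I * ee (-η)) := by
  unfold lnD ee
  simp

theorem lnN_fst (δ : ℝ) (a : ℂ) : (lnN δ a).1 = ee δ := rfl

theorem lnU_ee (η : ℝ) : (lnU η).1 = ee (Real.pi / 2 + η) := by
  rw [lnU_fst]
  apply Complex.ext
  · rw [ee_re, Real.cos_add, Real.cos_pi_div_two, Real.sin_pi_div_two]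
    simp only [Complex.mul_re, Complex.I_re, Complex.I_im, ee_re, ee_im]
  · rw [ee_im, Real.sin_add, Real.cos_pi_div_two, Real.sin_pi_div_two]
    simp only [Complex.mul_im, Complex.I_re, Complex.I_im, ee_re, ee_im]
    ring

theorem lnD_ee (η : ℝ) : (lnD η).1 = ee (3 * Real.pi / 2 - η) := by
  rw [lnD_fst]
  have e : 3 * Real.pi / 2 - η = (Real.pi / 2 - η) + Real.pi := by ring
  apply Complex.ext
  · simp only [Complex.neg_re, Complex.mul_re, Complex.I_re, Complex.I_im, ee_re, ee_im]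
    rw [e, Real.cos_add_pi, Real.cos_pi_div_two_sub, Real.sin_neg]
    ring
  · simp only [Complex.neg_im, Complex.mul_im, Complex.I_re, Complex.I_im, ee_re, ee_im]
    rw [e, Real.sin_add_pi, Real.sin_pi_div_two_sub, Real.cos_neg]
    ring

theorem chord_v (κ : ℝ) : I * ee κ - I * ee (2 * Real.pi - κ)
    = ((-(2 * Real.sin κ) : ℝ) : ℂ) := by
  apply Complex.ext
  · simp only [Complex.sub_re, Complex.mul_re, Complex.I_re, Complex.I_im, ee_re, ee_im,
      Complex.ofReal_re, Real.sin_two_pi_sub]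
    ring
  · simp only [Complex.sub_im, Complex.mul_im, Complex.I_re, Complex.I_im, ee_re, ee_im,
      Complex.ofReal_im, Real.cos_two_pi_sub]
    ring

section

variable {η1 η2 δ1 δ2 : ℝ} (p : Par η1 η2 δ1 δ2)

include p

theorem Par.sk : 0 < Real.sin (δ2 - δ1) :=
  Real.sin_pos_of_pos_of_lt_pi (by linarith [p.b1', p.b2]) (by linarith [p.b1, p.b2'])

theorem Par.sa : 0 < Real.sin (η1 + η2) :=
  Real.sin_pos_of_pos_of_lt_pi (by linarith [p.a1, p.a2]) p.a3

theorem Par.cos2 : 0 < Real.cos η2 := by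
  have := p.a2
  have := p.a3
  rcases p.alt with h | h
  · exact Real.cos_pos_of_mem_Ioo ⟨by linarith [Real.pi_pos], h.2⟩
  · exact Real.cos_pos_of_mem_Ioo ⟨by linarith [Real.pi_pos], by linarith⟩

theorem Par.ci_pos : 0 < cI η1 η2 (δ2 - δ1) := by
  unfold cI
  have := p.sk
  have := p.sa
  have := p.cos2
  positivity

/-- the dependence at the vertex -/
theorem Par.dep : ((cI η1 η2 (δ2 - δ1) : ℝ) : ℂ) * (lnU η1).1
    + ((cJ η1 η2 (δ2 - δ1) : ℝ) : ℂ) * (lnD η2).1 = ((-(2 * Real.sin (δ2 - δ1)) : ℝ) : ℂ) := by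
  have h := p.sa.ne'
  rw [lnU_fst, lnD_fst]
  unfold cI cJ
  apply Complex.ext
  · simp only [Complex.add_re, Complex.neg_re, Complex.neg_im, Complex.mul_re, Complex.mul_im,
      Complex.I_re, Complex.I_im, ee_re, ee_im, Complex.ofReal_re, Complex.ofReal_im,
      Real.sin_neg, Real.cos_neg]
    field_simp
    rw [Real.sin_add]
    ring
  · simp only [Complex.add_im, Complex.neg_re, Complex.neg_im, Complex.mul_re, Complex.mul_im,
      Complex.I_re, Complex.I_im, ee_re, ee_im, Complex.ofReal_re, Complex.ofReal_im,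
      Real.sin_neg, Real.cos_neg]
    field_simp
    ring

/-- the arc of the vertex -/
theorem arcv (arc : ArcStatement) (arz : ArzStatement) {h : ℂ → ℝ} (hs : Sublin h) :
    cI η1 η2 (δ2 - δ1) * h (lnU η1).1 + cJ η1 η2 (δ2 - δ1) * h (lnD η2).1
      ≤ ∫ θ in (δ2 - δ1)..(2 * Real.pi - (δ2 - δ1)), h (ee θ) ∧
    (∫ θ in (δ2 - δ1)..(2 * Real.pi - (δ2 - δ1)), h (ee θ)
      ≤ cI η1 η2 (δ2 - δ1) * h (lnU η1).1 + cJ η1 η2 (δ2 - δ1) * h (lnD η2).1 →
      ∃ y : ℂ, In y h ∧ ∀ θ ∈ Set.Icc (δ2 - δ1) (2 * Real.pi - (δ2 - δ1)),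
        h (ee θ) = ip (ee θ) y) := by
  set κ := δ2 - δ1 with hκ
  have k1 : Real.pi / 2 < κ := p.k
  have k2 : κ < Real.pi := by linarith [p.b1, p.b2']
  have hdep := p.dep
  rw [← hκ] at hdep
  have hch := chord_v κ
  have hci : 0 < cI η1 η2 κ := p.ci_pos
  rcases p.alt with ⟨ha, hb⟩ | ha
  · -- both angles are acute
    have hc1 : 0 < Real.cos η1 :=
      Real.cos_pos_of_mem_Ioo ⟨by linarith [Real.pi_pos, p.a1], ha⟩
    have hcj : 0 < cJ η1 η2 κ := by
      unfold cJ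
      have := p.sk
      have := p.sa
      positivity
    have key : cI η1 η2 κ < 2 * Real.cos (κ - η1) := by
      unfold cI
      rw [div_lt_iff₀ p.sa]
      have h1 : 0 < Real.sin (η1 + η2 - κ) :=
        Real.sin_pos_of_pos_of_lt_pi (by linarith [p.ka]) (by linarith [p.a3, p.b1', p.b2])
      have h2 : Real.cos (κ - η1) * Real.sin (η1 + η2) - Real.sin κ * Real.cos η2
          = Real.cos η1 * Real.sin (η1 + η2 - κ) := by
        rw [Real.sin_sub (η1 + η2) κ, Real.cos_sub κ η1, Real.sin_add η1 η2, Real.cos_add η1 η2]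
        have h3 := Real.sin_sq_add_cos_sq η1
        linear_combination (Real.sin κ * Real.cos η2) * h3
      nlinarith [mul_pos hc1 h1]
    set z : ℂ := I * ee κ - (cI η1 η2 κ : ℂ) * (lnU η1).1 with hz
    have z1 : I * ee κ - z = (cI η1 η2 κ : ℂ) * (lnU η1).1 := by
      rw [hz]
      ring
    have z2 : z - I * ee (2 * Real.pi - κ) = (cJ η1 η2 κ : ℂ) * (lnD η2).1 := by
      rw [hz]
      linear_combination hch - hdep
    have z3 : ‖z‖ < 1 := by
      have e : ‖z‖ ^ 2 = 1 - 2 * cI η1 η2 κ * Real.cos (κ - η1) + cI η1 η2 κ ^ 2 := by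
        rw [hz, lnU_fst, Complex.sq_norm, Complex.normSq_apply]
        simp only [Complex.sub_re, Complex.sub_im, Complex.mul_re, Complex.mul_im, Complex.I_re,
          Complex.I_im, ee_re, ee_im, Complex.ofReal_re, Complex.ofReal_im]
        rw [Real.cos_sub κ η1]
        have h3 := Real.sin_sq_add_cos_sq κ
        have h4 := Real.sin_sq_add_cos_sq η1
        linear_combination h3 + cI η1 η2 κ ^ 2 * h4
      have : ‖z‖ ^ 2 < 1 := by
        rw [e]
        nlinarith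
      nlinarith [norm_nonneg z]
    have z4 : 0 < ip (z - I * exp (κ * I))
        (I * exp ((((κ + (2 * Real.pi - κ)) / 2 : ℝ) : ℂ) * I)) := by
      have e1 : z - I * exp (κ * I) = -((cI η1 η2 κ : ℂ) * (lnU η1).1) := by
        have : I * exp (κ * I) = I * ee κ := rfl
        rw [this, ← z1]
        ring
      have e2 : (κ + (2 * Real.pi - κ)) / 2 = Real.pi := by ring
      rw [e1, e2, Complex.exp_pi_mul_I, lnU_fst]
      unfold ip
      simp only [Complex.neg_re, Complex.neg_im, Complex.mul_re, Complex.mul_im, Complex.I_re,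
        Complex.I_im, ee_re, ee_im, Complex.ofReal_re, Complex.ofReal_im, Complex.one_re,
        Complex.one_im]
      have := mul_pos hci hc1
      nlinarith
    have h5 := arz h hs κ (2 * Real.pi - κ) z (by linarith) (by linarith) z3 z4
    have f1 : h (I * exp (κ * I) - z) = cI η1 η2 κ * h (lnU η1).1 := by
      have : I * exp (κ * I) - z = I * ee κ - z := rfl
      rw [this, z1, hs.2 _ _ hci.le]
    have f2 : h (z - I * exp ((2 * Real.pi - κ : ℝ) * I)) = cJ η1 η2 κ * h (lnD η2).1 := by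
      have : z - I * exp ((2 * Real.pi - κ : ℝ) * I) = z - I * ee (2 * Real.pi - κ) := rfl
      rw [this, z2, hs.2 _ _ hcj.le]
    rw [f1, f2] at h5
    refine ⟨h5.1, fun h6 => ?_⟩
    obtain ⟨y, hy1, hy2, -, -⟩ := h5.2 h6
    exact ⟨y, hy1, hy2⟩
  · -- the upper angle is obtuse
    have hc1 : Real.cos η1 < 0 :=
      Real.cos_neg_of_pi_div_two_lt_of_lt ha (by linarith [p.a3, p.a2, Real.pi_pos])
    have hcj : cJ η1 η2 κ < 0 := by
      unfold cJ
      have h1 := p.sk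
      have h2 := p.sa
      apply div_neg_of_neg_of_pos _ h2
      have : 0 < Real.sin κ := h1
      nlinarith
    have h5 := arc h hs κ (2 * Real.pi - κ) (by linarith) (by linarith)
    have h6 : h (I * exp (κ * I) - I * exp ((2 * Real.pi - κ : ℝ) * I))
        = h (I * ee κ - I * ee (2 * Real.pi - κ)) := rfl
    rw [h6] at h5
    have h7 : cI η1 η2 κ * h (lnU η1).1 + cJ η1 η2 κ * h (lnD η2).1
        ≤ h (I * ee κ - I * ee (2 * Real.pi - κ)) := by
      have e : ((cI η1 η2 κ : ℝ) : ℂ) * (lnU η1).1 = (I * ee κ - I * ee (2 * Real.pi - κ))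
          + ((-(cJ η1 η2 κ) : ℝ) : ℂ) * (lnD η2).1 := by
        push_cast
        linear_combination hdep - hch
      have e1 := hs.1 (I * ee κ - I * ee (2 * Real.pi - κ))
        (((-(cJ η1 η2 κ) : ℝ) : ℂ) * (lnD η2).1)
      rw [← e, hs.2 _ _ hci.le, hs.2 _ _ (by linarith)] at e1
      linarith
    exact ⟨h7.trans h5.1, fun h8 => h5.2 (h8.trans h7) (by linarith)⟩

/-- the certificate in standard position -/
theorem std_cert (arc : ArcStatement) (arz : ArzStatement) {h : ℂ → ℝ} (hs : Sublin h) :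
    cI η1 η2 (δ2 - δ1) * h (lnU η1).1 + cJ η1 η2 (δ2 - δ1) * h (lnD η2).1
      + 2 * Real.sin δ2 * h (ee δ1) + (-(2 * Real.sin δ1)) * h (ee δ2) ≤ lam h ∧
    (lam h ≤ cI η1 η2 (δ2 - δ1) * h (lnU η1).1 + cJ η1 η2 (δ2 - δ1) * h (lnD η2).1
      + 2 * Real.sin δ2 * h (ee δ1) + (-(2 * Real.sin δ1)) * h (ee δ2) →
      ∃ yv yx yy : ℂ, In yv h ∧ In yx h ∧ In yy h ∧
        (∀ θ ∈ Set.Icc (δ1 - δ2) (δ1 + δ2), h (ee θ) = ip (ee θ) yx) ∧
        (∀ θ ∈ Set.Icc (δ1 + δ2) (δ2 - δ1), h (ee θ) = ip (ee θ) yy) ∧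
        ∀ θ ∈ Set.Icc (δ2 - δ1) (2 * Real.pi - (δ2 - δ1)), h (ee θ) = ip (ee θ) yv) := by
  have hx := arc1 arc hs (c := δ1) (l := δ2) p.b2 (by linarith [p.b2', Real.pi_pos])
  have hy := arc1 arc hs (c := δ2) (l := -δ1) (by linarith [p.b1'])
    (by linarith [p.b1, Real.pi_pos])
  have hv := arcv p arc arz hs
  rw [Real.sin_neg, show δ2 - -δ1 = δ1 + δ2 by ring, show δ2 + -δ1 = δ2 - δ1 by ring] at hy
  have hsum : lam h = (∫ θ in (δ1 - δ2)..(δ1 + δ2), h (ee θ))
      + (∫ θ in (δ1 + δ2)..(δ2 - δ1), h (ee θ))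
      + ∫ θ in (δ2 - δ1)..(2 * Real.pi - (δ2 - δ1)), h (ee θ) := by
    rw [lam_shift h (δ1 - δ2), intervalIntegral.integral_add_adjacent_intervals
      (sub_ii hs _ _) (sub_ii hs _ _), intervalIntegral.integral_add_adjacent_intervals
      (sub_ii hs _ _) (sub_ii hs _ _)]
    congr 1
    ring
  refine ⟨by rw [hsum]; linarith [hx.1, hy.1, hv.1], fun hle => ?_⟩
  rw [hsum] at hle
  obtain ⟨yx, a1, a2⟩ := hx.2 (by linarith [hx.1, hy.1, hv.1])
  obtain ⟨yy, b1, b2⟩ := hy.2 (by linarith [hx.1, hy.1, hv.1])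
  obtain ⟨yv, c1, c2⟩ := hv.2 (by linarith [hx.1, hy.1, hv.1])
  exact ⟨yv, yx, yy, c1, a1, b1, a2, b2, c2⟩

end

end Pool.Agent.XQ.H29
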