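import Pool.Agent.Helper16_XQ.Defs
import Pool.Agent.Helper29_AEU.GencFinal

/-!
Squad XQ, part N (null sets): almost every convex polygon satisfies `GenX`. Statements in terms of
the unit normals `u` and the support numbers `H`.
-/

namespace Pool.Agent.XQ.H29

open MeasureTheory Complex Filter Topology Pool.Agent.H62T
open Pool.Agent.AEU
open Pool.Agent.AEU.H29 (GA GU GI Di Sa un Dl El Fl Rn)

/-- four different indices -/
def D4 {n : ℕ} (i j k l : Fin n) : Prop := i ≠ j ∧ i ≠ k ∧ i ≠ l ∧ j ≠ k ∧ j ≠ l ∧ k ≠ l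

/-- the same four indices -/
def S4 {n : ℕ} (i j k l i' j' k' l' : Fin n) : Prop :=
  ∀ m, (m = i ∨ m = j ∨ m = k ∨ m = l) ↔ (m = i' ∨ m = j' ∨ m = k' ∨ m = l')

/-- genericity of the unit normals -/
structure GUX {n : ℕ} (u : Fin n → ℂ) : Prop extends GU u where
  x1 : ∀ a b c d, D4 a b c d → u a * u c ≠ I * (u b * u d) ∧ u a * u c ≠ -(I * (u b * u d))
  x2 : ∀ a b c, Di a b c → u a * u a ≠ I * (u b * u c) ∧ u a * u a ≠ -(I * (u b * u c))

/-- ANGX (helper29) -/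
def AngXStatement : Prop := ∀ n : ℕ, ∀ᵐ θ : Fin n → ℝ, GUX (un θ)

/-- intersection point of two lines -/
noncomputable def V {n : ℕ} (u : Fin n → ℂ) (H : Fin n → ℝ) (i j : Fin n) : ℂ :=
  vx (u i, H i) (u j, H j)

/-- the reflection which exchanges the half-planes `a` and `c` -/
noncomputable def rf {n : ℕ} (u : Fin n → ℂ) (H : Fin n → ℝ) (a c : Fin n) (x : ℂ) : ℂ :=
  u a * u c * (starRingEnd ℂ) x + vx (u a, H a - H c) (u c, H c - H a)

/-! ### The conditions -/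

/-- flipq (helper29) -/
def CF {n : ℕ} (u : Fin n → ℂ) (H : Fin n → ℝ) : Prop :=
  ∀ i j q a b c, Di i j q → Di a b c → |Fl u i j q q H| ≠ |El u a b c H|

/-- n1 (helper1) -/
def C1 {n : ℕ} (u : Fin n → ℂ) (H : Fin n → ℝ) : Prop :=
  ∀ i j q r, D4 i j q r → ip (V u H i j - V u H q r) (I * u i) ≠ 0

/-- n2 (helper41) -/
def C2 {n : ℕ} (u : Fin n → ℂ) (H : Fin n → ℝ) : Prop :=
  ∀ i j q r q' r', D4 i j q r → D4 i j q' r' →
    |dt (u q) (u r)| * ‖V u H i j - V u H q r‖ = |dt (u q') (u r')| * ‖V u H i j - V u H q' r'‖ →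
    (q = q' ∧ r = r') ∨ (q = r' ∧ r = q')

/-- n3 (helper41) -/
def C3 {n : ℕ} (u : Fin n → ℂ) (H : Fin n → ℝ) : Prop :=
  ∀ i j k l i' j' k' l', D4 i j k l → D4 i' j' k' l' →
    ‖V u H i j - V u H k l‖ = ‖V u H i' j' - V u H k' l'‖ → S4 i j k l i' j' k' l'

/-- n4 (helper41) -/
def C4 {n : ℕ} (u : Fin n → ℂ) (H : Fin n → ℝ) : Prop :=
  ∀ a b b' c i j k l, D4 a b b' c → D4 i j k l →
    ‖V u H a b - rf u H a c (V u H a b')‖ ≠ ‖V u H i j - V u H k l‖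

/-- n5 (helper41) -/
def C5 {n : ℕ} (u : Fin n → ℂ) (H : Fin n → ℝ) : Prop :=
  ∀ a b b' c, D4 a b b' c → ip (V u H a b - rf u H a c (V u H a b')) (I * u b) ≠ 0

/-- n6 (helper1) -/
def C6 {n : ℕ} (u : Fin n → ℂ) (H : Fin n → ℝ) : Prop :=
  ∀ i j k s, D4 i j k s →
    dt (rl (u s, H s) (V u H j k) - V u H i j)
      (u i * u i * (starRingEnd ℂ) (V u H j k - V u H i j)) ≠ 0

/-- n8 (helper1) -/
def C8 {n : ℕ} (u : Fin n → ℂ) (H : Fin n → ℝ) : Prop :=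
  ∀ i j q r, D4 i j q r → ∀ α θ : ℝ, 0 < α → α < Real.pi →
    Real.cos α = -ip (u i) (u j) → 0 < θ → θ < Real.pi →
    Real.cos θ * ‖V u H q r - V u H i j‖ = ip (I * u i) (V u H q r - V u H i j) → ∀ m : ℤ,
    4 * Real.cos (2 * Real.pi * θ / α) ≠ m ∧ 4 * Real.cos (2 * Real.pi * (Real.pi - θ) / α) ≠ m

/-- `C` holds for almost all angles and support numbers -/
def Ae (C : ∀ {n : ℕ}, (Fin n → ℂ) → (Fin n → ℝ) → Prop) : Prop :=
  ∀ n : ℕ, ∀ᵐ p : (Fin n → ℝ) × (Fin n → ℝ), C (un p.1) p.2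

/-- CF1 (helper29) -/
def CFStatement : Prop := Ae CF
/-- NN1 (helper1) -/
def N1Statement : Prop := Ae C1
/-- NN2 (helper41) -/
def N2Statement : Prop := Ae C2
/-- NN3 (helper41) -/
def N3Statement : Prop := Ae C3
/-- NN4 (helper41) -/
def N4Statement : Prop := Ae C4
/-- NN5 (helper41) -/
def N5Statement : Prop := Ae C5
/-- NN6 (helper1) -/
def N6Statement : Prop := Ae C6
/-- NN8 (helper1) -/
def N8Statement : Prop := Ae C8

/-- almost all convex polygons are generic, in the sense of squad XQ (helper29) -/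
def GenXStatement : Prop :=
  ∀ (n : ℕ) [NeZero n], 3 ≤ n → ∀ᵐ v : Fin n → ℂ, H1Gen.CCW v →
    GenX (sides (H62T.H85.nrm v) (H62T.H85.off v))

end Pool.Agent.XQ.H29
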