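import Pool.Agent.Helper29_XQ.Frm3

/-!
Squad XQ, module TOE: the certificate of a torn body of type E.
-/

namespace Pool.Agent.XQ.H29

open MeasureTheory Complex Filter Topology Pool.Agent.H62T
open Pool.Agent.H16F (Sublin)
open Pool.Agent.AEU
open Pool.Agent.AEU.H69 (ee ee_per sub_ii ee_add ee_neg lam2 lam3 lam4_le hf3)
open Pool.Agent.AEU.H72 (ip_map ip_add ip_sub ip_smul)

theorem eq_vx' {s t : HP} (h : dt s.1 t.1 ≠ 0) {x : ℂ} (h1 : ip s.1 x = s.2)
    (h2 : ip t.1 x = t.2) : x = vx s t := by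
  have a : (dt s.1 t.1 : ℂ) ≠ 0 := by exact_mod_cast h
  unfold vx
  rw [eq_div_iff a, ← h1, ← h2]
  apply Complex.ext
  · simp [dt, ip]
    ring
  · simp [dt, ip]
    ring

theorem vx_sw (s t : HP) : vx s t = vx t s := by
  unfold vx
  have e : (dt t.1 s.1 : ℂ) = -(dt s.1 t.1 : ℂ) := by
    have : dt t.1 s.1 = -dt s.1 t.1 := by
      unfold dt
      ring
    rw [this]
    push_cast
    rfl
  rw [e, div_neg, ← neg_div]
  congr 1
  ring

open Classical in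
theorem sum4 {M : Type*} [AddCommMonoid M] {i j q r : HP} (h : Ne4 i j q r) (f : HP → M) :
    ∑ s ∈ ({i, j, q, r} : Finset HP), f s = f i + (f j + (f q + f r)) := by
  obtain ⟨h1, h2, h3, h4, h5, h6⟩ := h
  rw [Finset.sum_insert (by simp [h1, h2, h3]), Finset.sum_insert (by simp [h4, h5]),
    Finset.sum_insert (by simp [h6]), Finset.sum_singleton]

theorem card4 {i j q r : HP} (h : Ne4 i j q r) : ({i, j, q, r} : Finset HP).card = 4 := by
  classical
  obtain ⟨h1, h2, h3, h4, h5, h6⟩ := h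
  rw [Finset.card_insert_of_notMem (by simp [h1, h2, h3]),
    Finset.card_insert_of_notMem (by simp [h4, h5]),
    Finset.card_insert_of_notMem (by simp [h6]), Finset.card_singleton]

/-- the conclusion of TOE -/
def Concl (X : Finset HP) (h : ℂ → ℝ) (i j q r : HP) (v : ℂ) : Prop :=
  ∃ (c : HP → ℝ) (α θ γ : ℝ),
    TornC X {i, j, q, r} h (lam h) c ∧ StdE {i, j, q, r} (Mm {i, j, q, r} c) (lam h) α θ γ ∧
    lam h = 2 * hE i j q r ∧ Real.cos α = -ip i.1 j.1 ∧ 0 < α ∧ α < Real.pi ∧ 0 < θ ∧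
    θ < Real.pi ∧ ∃ s, (s = i ∨ s = j) ∧
      (Real.cos θ * ‖vx q r - v‖ = ip (I * s.1) (vx q r - v) ∨
        Real.cos θ * ‖vx q r - v‖ = -ip (I * s.1) (vx q r - v))

theorem Concl.sw {X : Finset HP} {h : ℂ → ℝ} {i j q r : HP} {v : ℂ} (H : Concl X h j i r q v) :
    Concl X h i j q r v := by
  classical
  have e : ({j, i, r, q} : Finset HP) = {i, j, q, r} := by
    ext s
    simp only [Finset.mem_insert, Finset.mem_singleton]
    tauto
  obtain ⟨c, α, θ, γ, h1, h2, h3, h4, h5, h6, h7, h8, s, hs, h9⟩ := H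
  rw [e] at h1 h2
  rw [vx_sw r q] at h9
  have e2 : hE j i r q = hE i j q r := by
    unfold hE
    rw [vx_sw j i, vx_sw r q]
    congr 1
    rw [← abs_neg]
    congr 1
    unfold dt
    ring
  rw [e2] at h3
  rw [AEU.H72.ip_comm] at h4
  exact ⟨c, α, θ, γ, h1, h2, h3, h4, h5, h6, h7, h8, s, hs.symm, h9⟩

theorem Concl.sw1 {X : Finset HP} {h : ℂ → ℝ} {i j q r : HP} {v : ℂ}
    (H : Concl X h j i q r v) : Concl X h i j q r v := by
  classical
  have e : ({j, i, q, r} : Finset HP) = {i, j, q, r} := by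
    ext s
    simp only [Finset.mem_insert, Finset.mem_singleton]
    tauto
  obtain ⟨c, α, θ, γ, h1, h2, h3, h4, h5, h6, h7, h8, s, hs, h9⟩ := H
  rw [e] at h1 h2
  have e2 : hE j i q r = hE i j q r := by
    unfold hE
    rw [vx_sw j i]
  rw [e2] at h3
  rw [AEU.H72.ip_comm] at h4
  exact ⟨c, α, θ, γ, h1, h2, h3, h4, h5, h6, h7, h8, s, hs.symm, h9⟩

section

variable {X : Finset HP} {h : ℂ → ℝ} {i j q r : HP} {v x y : ℂ} {g : Iso2}
  {η1 η2 δ1 δ2 ρ l1 l3 : ℝ}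

/-- the mirror image of a frame -/
theorem Frm0.sw (f : Frm0 X h i j q r v x y g η1 η2 δ1 δ2 ρ l1 l3) :
    Frm0 X h j i r q v y x (Complex.conjLIE.toAffineIsometryEquiv * g) η2 η1 (-δ2) (-δ1) ρ
      l3 l1 := by
  have app : ∀ z, (Complex.conjLIE.toAffineIsometryEquiv * g : Iso2) z
      = (starRingEnd ℂ) (g z) := fun z => rfl
  have mvc : ∀ s : HP, mv (Complex.conjLIE.toAffineIsometryEquiv : Iso2) s
      = ((starRingEnd ℂ) s.1, s.2) := by
    intro s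
    unfold mv
    have e1 : (Complex.conjLIE.toAffineIsometryEquiv : Iso2).linearIsometryEquiv s.1
        = (starRingEnd ℂ) s.1 := by
      rfl
    have e2 : (Complex.conjLIE.toAffineIsometryEquiv : Iso2) 0 = 0 := by
      show Complex.conjLIE 0 = 0
      exact map_zero _
    rw [e1, e2]
    simp [ip]
  have mvm : ∀ s : HP, mv (Complex.conjLIE.toAffineIsometryEquiv * g : Iso2) s
      = ((starRingEnd ℂ) (mv g s).1, (mv g s).2) := by
    intro s
    rw [AEU.H72.act.1, mvc]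
  have cj : ∀ a : ℝ, (starRingEnd ℂ) (ee a) = ee (-a) := fun a => (ee_neg a).symm
  obtain ⟨l2, p2, exy⟩ := f.gxy
  refine ⟨ShE.sw1 (ShE.sw2 f.she), f.min, ?_, ?_, ?_, f.l3p, f.l1p, ?_, ?_, ?_, ?_, f.ρ0, ?_, ?_, ?_,
    ?_, ?_, ?_, ?_, ?_, l2, p2, ?_⟩
  · rw [app, f.gv, map_zero]
  · rw [app, f.gy, map_mul, Complex.conj_ofReal, cj]
    congr 2
    ring
  · rw [app, f.gx, map_mul, Complex.conj_ofReal, cj]
    congr 2
    ring
  · rw [mvm, f.gj]
    refine Prod.ext ?_ rfl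
    rw [lnD_ee, lnU_ee]
    show (starRingEnd ℂ) (ee (3 * Real.pi / 2 - η2)) = _
    rw [cj, ← ee_per]
    congr 1
    ring
  · rw [mvm, f.gi]
    refine Prod.ext ?_ rfl
    rw [lnD_ee, lnU_ee]
    show (starRingEnd ℂ) (ee (Real.pi / 2 + η1)) = _
    rw [cj, ← ee_per]
    congr 1
    ring
  · rw [mvm, f.gr]
    refine Prod.ext (cj δ2) ?_
    show ip (ee δ2) (ρ : ℂ) = ip (ee (-δ2)) (ρ : ℂ)
    rw [ip_ee_real, ip_ee_real, Real.cos_neg]
  · rw [mvm, f.gq]
    refine Prod.ext (cj δ1) ?_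
    show ip (ee δ1) (ρ : ℂ) = ip (ee (-δ1)) (ρ : ℂ)
    rw [ip_ee_real, ip_ee_real, Real.cos_neg]
  · linarith [f.a3]
  · linarith [f.b2']
  · linarith [f.b2]
  · linarith [f.b1']
  · linarith [f.b1]
  · linarith [f.k]
  · linarith [f.k2]
  · linarith [f.k1]
  · rw [app, app, ← map_sub]
    have : g x - g y = -((l2 : ℂ) * ee (δ1 + δ2 + Real.pi / 2)) := by
      rw [← exy]
      ring
    rw [this, map_neg, map_mul, Complex.conj_ofReal, cj, ← mul_neg, ← AEU.H69.ee_pi]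
    congr 2
    ring

/-- the length of the path -/
theorem Frm0.len (f : Frm0 X h i j q r v x y g η1 η2 δ1 δ2 ρ l1 l3) :
    lam h = 2 * ρ * Real.sin (δ2 - δ1) ∧ 2 * l1 < lam h ∧ 2 * l3 < lam h ∧
      ‖v - x‖ = l1 ∧ ‖v - y‖ = l3 := by
  obtain ⟨l2, p2, exy⟩ := f.gxy
  have p1 := f.l1p
  have p3 := f.l3p
  have gx := f.gx
  have gy := f.gy
  have hpi := Real.pi_pos
  have m1 : ‖v - x‖ = l1 := by
    rw [nrm_g g, f.gv, gx, zero_sub, norm_neg, norm_mul, AEU.H69.norm_ee,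
      Complex.norm_real, Real.norm_of_nonneg p1.le, mul_one]
  have m3 : ‖y - v‖ = l3 := by
    rw [nrm_g g, f.gv, gy, sub_zero, norm_mul, AEU.H69.norm_ee,
      Complex.norm_real, Real.norm_of_nonneg p3.le, mul_one]
  have m2 : ‖x - y‖ = l2 := by
    rw [norm_sub_rev, nrm_g g, exy, norm_mul, AEU.H69.norm_ee,
      Complex.norm_real, Real.norm_of_nonneg p2.le, mul_one]
  have hlam : lam h = l1 + l2 + l3 := by
    rw [f.she.body, lam3, m1, m2, m3]
  have e0 : (l3 : ℂ) * ee (δ2 - δ1 - Real.pi / 2) - (l1 : ℂ) * ee (-(δ2 - δ1 - Real.pi / 2))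
      = (l2 : ℂ) * ee (δ1 + δ2 + Real.pi / 2) := by
    rw [← gx, ← gy]
    exact exy
  have pr : ∀ t : ℝ, l3 * Real.cos (t - (δ2 - δ1 - Real.pi / 2))
      - l1 * Real.cos (t - -(δ2 - δ1 - Real.pi / 2))
      = l2 * Real.cos (t - (δ1 + δ2 + Real.pi / 2)) := by
    intro t
    have := congrArg (ip (ee t)) e0
    rwa [ip_sub, ip_smul, ip_smul, ip_smul, ip_ee_ee, ip_ee_ee, ip_ee_ee] at this
  have a1 := pr (δ1 + δ2 + Real.pi / 2)
  rw [sub_self, Real.cos_zero] at a1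
  have b1 : Real.cos (δ1 + δ2 + Real.pi / 2 - (δ2 - δ1 - Real.pi / 2))
      = -Real.cos (2 * δ1) := by
    rw [show δ1 + δ2 + Real.pi / 2 - (δ2 - δ1 - Real.pi / 2) = 2 * δ1 + Real.pi by ring,
      Real.cos_add_pi]
  have b2 : Real.cos (δ1 + δ2 + Real.pi / 2 - -(δ2 - δ1 - Real.pi / 2))
      = Real.cos (2 * δ2) := by
    congr 1
    ring
  rw [b1, b2] at a1
  -- the two feet
  have c1 : l1 * Real.sin δ2 = ρ * Real.cos δ1 := by
    have := AEU.H72.act.2.2.2.2.2.1 g x q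
    rw [f.gq, f.she.xq, sub_self] at this
    have e1 : ip (ee δ1) (g x) = ip (ee δ1) (ρ : ℂ) := sub_eq_zero.1 this
    rw [ip_ee_real, gx, ip_smul, ip_ee_ee, show δ1 - -(δ2 - δ1 - Real.pi / 2)
      = δ2 - Real.pi / 2 by ring, Real.cos_sub_pi_div_two] at e1
    exact e1
  have c2 : -(l3 * Real.sin δ1) = ρ * Real.cos δ2 := by
    have := AEU.H72.act.2.2.2.2.2.1 g y r
    rw [f.gr, f.she.yr, sub_self] at this
    have e1 : ip (ee δ2) (g y) = ip (ee δ2) (ρ : ℂ) := sub_eq_zero.1 this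
    rw [ip_ee_real, gy, ip_smul, ip_ee_ee, show δ2 - (δ2 - δ1 - Real.pi / 2)
      = δ1 + Real.pi / 2 by ring, Real.cos_add_pi_div_two] at e1
    linarith only [e1]
  refine ⟨?_, ?_, ?_, m1, by rw [norm_sub_rev]; exact m3⟩
  · rw [hlam, Real.sin_sub]
    rw [Real.cos_two_mul, Real.cos_two_mul] at a1
    have s1 := Real.sin_sq_add_cos_sq δ1
    have s2 := Real.sin_sq_add_cos_sq δ2
    have e1 : 2 * ρ * (Real.sin δ2 * Real.cos δ1 - Real.cos δ2 * Real.sin δ1)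
        = 2 * Real.sin δ2 * (ρ * Real.cos δ1) - 2 * Real.sin δ1 * (ρ * Real.cos δ2) := by ring
    rw [e1, ← c1, ← c2]
    linear_combination (-1 : ℝ) * a1 - 2 * l1 * s2 - 2 * l3 * s1
  · have a2 := pr (-(δ2 - δ1 - Real.pi / 2))
    rw [sub_self, Real.cos_zero] at a2
    have u1 : Real.cos (-(δ2 - δ1 - Real.pi / 2) - (δ2 - δ1 - Real.pi / 2)) < 1 := by
      rw [← Real.cos_zero, ← Real.cos_neg (-(δ2 - δ1 - Real.pi / 2) - (δ2 - δ1 - Real.pi / 2))]
      apply Real.cos_lt_cos_of_nonneg_of_le_pi le_rfl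
      · linarith only [f.b1, f.b2']
      · linarith only [f.k]
    have u2 := Real.neg_one_le_cos (-(δ2 - δ1 - Real.pi / 2) - (δ1 + δ2 + Real.pi / 2))
    rw [hlam]
    nlinarith only [a2, p2, u2, p3, u1]
  · have a2 := pr (δ2 - δ1 - Real.pi / 2)
    rw [sub_self, Real.cos_zero] at a2
    have u1 : Real.cos (δ2 - δ1 - Real.pi / 2 - -(δ2 - δ1 - Real.pi / 2)) < 1 := by
      rw [← Real.cos_zero]
      apply Real.cos_lt_cos_of_nonneg_of_le_pi le_rfl
      · linarith [f.b1, f.b2']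
      · linarith [f.k]
    have u2 := Real.cos_le_one (δ2 - δ1 - Real.pi / 2 - (δ1 + δ2 + Real.pi / 2))
    rw [hlam]
    nlinarith only [a2, p2, u2, p1, u1]

end

end Pool.Agent.XQ.H29
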