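import Pool.Agent.Helper29_XQ.Toe

/-!
Squad XQ, module TOE: assembly.
-/

namespace Pool.Agent.XQ.H29

open MeasureTheory Complex Filter Topology Pool.Agent.H62T
open Pool.Agent.H16F (Sublin)
open Pool.Agent.AEU
open Pool.Agent.AEU.H69 (ee ee_per sub_ii ee_add ee_neg lam2 lam3 lam4_le hf3)
open Pool.Agent.AEU.H72 (ip_map ip_add ip_sub ip_smul)

/-- a shorter body touching three sides -/
theorem lt_of_pts {X : Finset HP} {m : ℕ} (z : Fin (m + 1) → ℂ) (hz : ∀ k, z k ∈ Cl X)
    {S : Finset HP} (hS : S ⊆ X) (ht : ∀ s ∈ S, ∃ k, ip s.1 (z k) = s.2) {L : ℝ}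
    (hL : lam (hf z) < L) : Lt X S L := by
  obtain ⟨h1, h2⟩ := (AEU.H69.mixS X).2.2 m z hz
  exact ⟨hf z, (AEU.H69.hul m z).1, h1, fun s hs => (h2 s).2 ⟨hS hs, ht s hs⟩, hL⟩

section

variable {X : Finset HP} {h : ℂ → ℝ} {i j q r : HP} {v x y : ℂ} {g : Iso2}
  {η1 η2 δ1 δ2 ρ l1 l3 : ℝ}

open Classical in
theorem core (vxx : VxxStatement) (slx : SlxStatement) (arc : ArcStatement)
    (arz : ArzStatement) (hX : Pg X) (hnp : Np {i, j, q, r})
    (f : Frm0 X h i j q r v x y g η1 η2 δ1 δ2 ρ l1 l3) (p : Par η1 η2 δ1 δ2) :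
    Concl X h i j q r v := by
  have hpi := Real.pi_pos
  have he := f.she
  obtain ⟨cl1, cl2, cl3⟩ := she_cl he
  obtain ⟨hlen, hlt1, hlt3, nvx, nvy⟩ := f.len
  have hne := he.ne
  obtain ⟨ij, iq, ir, jq, jr, qr⟩ := id hne
  have tch := she_touch vxx hX he
  have p1 := f.l1p
  have p3 := f.l3p
  set F : Finset HP := {i, j, q, r} with hF
  have mi : i ∈ F := by simp [hF]
  have mj : j ∈ F := by simp [hF]
  have mq : q ∈ F := by simp [hF]
  have mr : r ∈ F := by simp [hF]
  have hFX : F ⊆ X := by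
    intro s hs
    simp only [hF, Finset.mem_insert, Finset.mem_singleton] at hs
    rcases hs with rfl | rfl | rfl | rfl
    · exact he.vi.mem₁
    · exact he.vi.mem₂
    · exact he.qX
    · exact he.rX
  have hF4 : ∀ s ∈ F, s = i ∨ s = j ∨ s = q ∨ s = r := by
    intro s hs
    simpa [hF] using hs
  -- images
  set L := g.linearIsometryEquiv with hL
  have Li : L i.1 = (lnU η1).1 := congrArg Prod.fst f.gi
  have Lj : L j.1 = (lnD η2).1 := congrArg Prod.fst f.gj
  have Lq : L q.1 = ee δ1 := congrArg Prod.fst f.gq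
  have Lr : L r.1 = ee δ2 := congrArg Prod.fst f.gr
  have sk := p.sk
  have sa := p.sa
  have ci0 := p.ci_pos
  have cos2 := p.cos2
  have sd2 : 0 < Real.sin δ2 := Real.sin_pos_of_pos_of_lt_pi p.b2 (by linarith [p.b2'])
  have sd1 : Real.sin δ1 < 0 := Real.sin_neg_of_neg_of_neg_pi_lt p.b1' (by linarith [p.b1])
  have cos1 : Real.cos η1 ≠ 0 := by
    rcases p.alt with ⟨h1, -⟩ | h1
    · exact (Real.cos_pos_of_mem_Ioo ⟨by linarith [p.a1], h1⟩).ne'
    · exact (Real.cos_neg_of_pi_div_two_lt_of_lt h1 (by linarith [p.a3, p.a2])).ne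
  have cj0 : cJ η1 η2 (δ2 - δ1) ≠ 0 := by
    unfold cJ
    have : 2 * Real.sin (δ2 - δ1) ≠ 0 := by positivity
    exact div_ne_zero (mul_ne_zero this cos1) sa.ne'
  -- the coefficients
  set c : HP → ℝ := fun s => if s = i then cI η1 η2 (δ2 - δ1) else
    if s = j then cJ η1 η2 (δ2 - δ1) else if s = q then 2 * Real.sin δ2
      else -(2 * Real.sin δ1) with hc
  have ci : c i = cI η1 η2 (δ2 - δ1) := by simp [hc]
  have cj : c j = cJ η1 η2 (δ2 - δ1) := by simp [hc, ij.symm]
  have cq : c q = 2 * Real.sin δ2 := by simp [hc, iq.symm, jq.symm]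
  have cr : c r = -(2 * Real.sin δ1) := by simp [hc, ir.symm, jr.symm, qr.symm]
  have depL : ((c i : ℝ) : ℂ) * L i.1 + (((c j : ℝ) : ℂ) * L j.1 + (((c q : ℝ) : ℂ) * L q.1
      + ((c r : ℝ) : ℂ) * L r.1)) = 0 := by
    have h1 := p.dep
    have h2 : ((2 * Real.sin δ2 : ℝ) : ℂ) * ee δ1 + ((-(2 * Real.sin δ1) : ℝ) : ℂ) * ee δ2
        = ((2 * Real.sin (δ2 - δ1) : ℝ) : ℂ) := by
      apply Complex.ext
      · simp only [Complex.add_re, Complex.mul_re, ee_re, ee_im, Complex.ofReal_re,
          Complex.ofReal_im]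
        rw [Real.sin_sub]
        ring
      · simp only [Complex.add_im, Complex.mul_im, ee_re, ee_im, Complex.ofReal_re,
          Complex.ofReal_im]
        ring
    rw [ci, cj, cq, cr, Li, Lj, Lq, Lr, h2, ← add_assoc, h1]
    push_cast
    ring
  have hdep : ∑ s ∈ F, ((c s : ℝ) : ℂ) * s.1 = 0 := by
    rw [hF, sum4 hne]
    apply L.injective
    rw [map_zero, map_add, map_add, map_add, L_smul, L_smul, L_smul, L_smul]
    exact depL
  -- transport of the sums
  have hg0 : ∀ s : HP, (mv g s).2 = s.2 + ip (L s.1) (g 0) := fun s => rfl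
  have ip4 : c i * ip (L i.1) (g 0) + (c j * ip (L j.1) (g 0) + (c q * ip (L q.1) (g 0)
      + c r * ip (L r.1) (g 0))) = 0 := by
    have h1 := congrArg (fun z => ip z (g 0)) depL
    simp only [ip, Complex.add_re, Complex.add_im, Complex.mul_re, Complex.mul_im,
      Complex.ofReal_re, Complex.ofReal_im, Complex.zero_re, Complex.zero_im] at h1
    simp only [ip]
    linarith
  have tr : ∀ h' : ℂ → ℝ, ∑ s ∈ F, c s * h' s.1 = c i * mb g h' (L i.1) + (c j * mb g h' (L j.1)
      + (c q * mb g h' (L q.1) + c r * mb g h' (L r.1))) := by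
    intro h'
    rw [hF, sum4 hne]
    have e : ∀ s : HP, mb g h' (L s.1) = h' s.1 + ip (L s.1) (g 0) := by
      intro s
      unfold mb
      rw [← hL, LinearIsometryEquiv.symm_apply_apply]
    rw [e, e, e, e]
    linear_combination -ip4
  have gi2 : (mv g i).2 = 0 := congrArg Prod.snd f.gi
  have gj2 : (mv g j).2 = 0 := congrArg Prod.snd f.gj
  have gq2 : (mv g q).2 = ρ * Real.cos δ1 := by
    rw [← ip_ee_real]
    exact congrArg Prod.snd f.gq
  have gr2 : (mv g r).2 = ρ * Real.cos δ2 := by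
    rw [← ip_ee_real]
    exact congrArg Prod.snd f.gr
  have hval : ∑ s ∈ F, c s * s.2 = lam h := by
    rw [hF, sum4 hne, hlen, Real.sin_sub]
    rw [hg0] at gi2 gj2 gq2 gr2
    rw [cq] at ip4
    rw [cr] at ip4
    rw [cq, cr]
    linear_combination c i * gi2 + c j * gj2 + 2 * Real.sin δ2 * gq2
      - 2 * Real.sin δ1 * gr2 - ip4
  have hcert : ∀ h' : ℂ → ℝ, Sublin h' → ∑ s ∈ F, c s * h' s.1 ≤ lam h' := by
    intro h' hs'
    have h1 := (std_cert p arc arz (AEU.H72.act.2.2.2.2.2.2.2.2.2.2.1 g h' hs')).1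
    rw [AEU.H69.lam_mb g hs'] at h1
    rw [tr, ci, cj, cq, cr, Li, Lj, Lq, Lr]
    linarith
  have cne : ∀ s ∈ F, c s ≠ 0 := by
    intro s hs
    rcases hF4 s hs with rfl | rfl | rfl | rfl
    · rw [ci]
      exact ci0.ne'
    · rw [cj]
      exact cj0
    · rw [cq]
      positivity
    · rw [cr]
      linarith
  have hsub : Sublin h := by
    rw [he.body]
    exact (AEU.H69.hul 2 _).1
  have hfit : Fits X h := by
    rw [he.body]
    exact ((AEU.H69.mixS X).2.2 2 ![v, x, y] (by
      intro k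
      fin_cases k
      · exact cl1
      · exact cl2
      · exact cl3)).1
  -- uniqueness
  have huniq : ∀ h' : ℂ → ℝ, Sublin h' → (∀ s ∈ F, 0 ≤ c s * (h' s.1 - s.2)) →
      lam h' ≤ lam h → h' = h := by
    intro h' hs' hpos hle
    have h1 := hcert h' hs'
    have h2 : ∑ s ∈ F, c s * (h' s.1 - s.2) ≤ 0 := by
      have : ∑ s ∈ F, c s * (h' s.1 - s.2) = ∑ s ∈ F, c s * h' s.1 - ∑ s ∈ F, c s * s.2 := by
        rw [← Finset.sum_sub_distrib]
        apply Finset.sum_congr rfl
        intro s _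
        ring
      rw [this, hval]
      linarith
    have h3 : ∀ s ∈ F, c s * (h' s.1 - s.2) = 0 :=
      (Finset.sum_eq_zero_iff_of_nonneg hpos).1 (le_antisymm h2 (Finset.sum_nonneg hpos))
    have h4 : ∀ s ∈ F, h' s.1 - s.2 = 0 := fun s hs =>
      (mul_eq_zero.1 (h3 s hs)).resolve_left (cne s hs)
    have h5 : ∀ s ∈ F, mb g h' (mv g s).1 = (mv g s).2 := by
      intro s hs
      have := AEU.H72.act.2.2.2.2.1 g h' s
      rw [h4 s hs] at this
      exact sub_eq_zero.1 this
    have hgx : ip (ee (δ1 - δ2)) (g x) = 0 := by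
      rw [f.gx, ip_smul, ip_ee_ee, show δ1 - δ2 - -(δ2 - δ1 - Real.pi / 2) = -(Real.pi / 2) by
        ring, Real.cos_neg, Real.cos_pi_div_two, mul_zero]
    have hgy : ip (ee (δ2 - δ1)) (g y) = 0 := by
      rw [f.gy, ip_smul, ip_ee_ee, show δ2 - δ1 - (δ2 - δ1 - Real.pi / 2) = Real.pi / 2 by
        ring, Real.cos_pi_div_two, mul_zero]
    have hgx' : ip (ee δ1) (g x) = ρ * Real.cos δ1 := by
      have := AEU.H72.act.2.2.2.2.2.1 g x q
      rw [f.she.xq, sub_self] at this
      have e1 := sub_eq_zero.1 this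
      rw [gq2] at e1
      rw [← e1, ← Lq]
      rfl
    have hgy' : ip (ee δ2) (g y) = ρ * Real.cos δ2 := by
      have := AEU.H72.act.2.2.2.2.2.1 g y r
      rw [f.she.yr, sub_self] at this
      have e1 := sub_eq_zero.1 this
      rw [gr2] at e1
      rw [← e1, ← Lr]
      rfl
    have h6 := std_uniq p arc arz (ρ := ρ) (h := mb g h')
      (AEU.H72.act.2.2.2.2.2.2.2.2.2.2.1 g h' hs') hgx hgx' hgy hgy'
      (by
        have := h5 i mi
        rw [gi2] at this
        rw [← Li]
        exact this)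
      (by
        have := h5 j mj
        rw [gj2] at this
        rw [← Lj]
        exact this)
      (by
        have := h5 q mq
        rw [gq2] at this
        rw [← Lq]
        exact this)
      (by
        have := h5 r mr
        rw [gr2] at this
        rw [← Lr]
        exact this)
      (by rw [AEU.H69.lam_mb g hs', ← hlen]; exact hle)
    have h7 : mb g h = hf ![0, g x, g y] := by
      rw [he.body, AEU.H72.act.2.2.2.2.2.2.2.2.2.2.2.2.1 g 2 ![v, x, y]]
      congr 1
      funext k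
      fin_cases k
      · exact f.gv
      · rfl
      · rfl
    have h8 : mb g h' = mb g h := h6.trans h7.symm
    have h9 := congrArg (mb g⁻¹) h8
    rwa [AEU.H69.mb_inv' AEU.H72.act, AEU.H69.mb_inv' AEU.H72.act] at h9
  -- shorter bodies
  have hxv : x ≠ v := by
    rintro rfl
    rw [sub_self, norm_zero] at nvx
    exact absurd nvx p1.ne
  have hyv : y ≠ v := by
    rintro rfl
    rw [sub_self, norm_zero] at nvy
    exact absurd nvy p3.ne
  set γ := δ2 - δ1 - Real.pi / 2 with hγ
  have cg : 0 < Real.cos γ := by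
    apply Real.cos_pos_of_mem_Ioo
    exact ⟨by linarith [p.k], by linarith [p.b1, p.b2']⟩
  set e : ℂ := (x - v) / (‖x - v‖ : ℂ) + (y - v) / (‖y - v‖ : ℂ) with hee
  have Le : L e = ((2 * Real.cos γ : ℝ) : ℂ) := by
    have e1 : ∀ z : ℂ, L (z - v) = g z - g v := by
      intro z
      rw [AEU.H72.app g z, AEU.H72.app g v, map_sub]
      ring
    have d1 : ∀ (z : ℂ) (l : ℝ), L (z / (l : ℂ)) = L z / (l : ℂ) := by
      intro z l
      have : z / (l : ℂ) = ((l⁻¹ : ℝ) : ℂ) * z := by
        push_cast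
        rw [div_eq_inv_mul]
      rw [this, L_smul]
      push_cast
      rw [div_eq_inv_mul]
    have nx : ‖x - v‖ = l1 := by rw [norm_sub_rev]; exact nvx
    have ny : ‖y - v‖ = l3 := by rw [norm_sub_rev]; exact nvy
    have c1 : (l1 : ℂ) ≠ 0 := by exact_mod_cast p1.ne'
    have c3 : (l3 : ℂ) ≠ 0 := by exact_mod_cast p3.ne'
    rw [hee, map_add, d1, d1, e1, e1, f.gv, f.gx, f.gy, nx, ny, sub_zero, sub_zero,
      mul_div_cancel_left₀ _ c1, mul_div_cancel_left₀ _ c3]
    have := ee_sum 0 γ
    rw [zero_sub, zero_add] at this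
    rw [this]
    have e0 : ee 0 = 1 := by
      unfold ee
      simp
    rw [e0, mul_one]
  have ipe : ∀ s : HP, ip e s.1 = 2 * Real.cos γ * (L s.1).re := by
    intro s
    rw [← ip_map L, Le]
    unfold ip
    rw [Complex.ofReal_re, Complex.ofReal_im]
    ring
  have Lire : (L i.1).re = -Real.sin η1 := by
    rw [Li, lnU_fst]
    simp only [Complex.mul_re, Complex.I_re, Complex.I_im, ee_re, ee_im]
    ring
  have Ljre : (L j.1).re = -Real.sin η2 := by
    rw [Lj, lnD_ee, ee_re, show 3 * Real.pi / 2 - η2 = (Real.pi / 2 - η2) + Real.pi by ring,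
      Real.cos_add_pi, Real.cos_pi_div_two_sub]
  have ipij : ip i.1 j.1 = -Real.cos (η1 + η2) := by
    rw [← ip_map L, Li, Lj, lnU_ee, lnD_ee, ip_ee_ee,
      show Real.pi / 2 + η1 - (3 * Real.pi / 2 - η2) = η1 + η2 - Real.pi by ring,
      Real.cos_sub_pi]
  have hlt : ∀ t ∈ F, 0 < c t → Lt X (F.erase t) (lam h) := by
    intro t ht hct
    have hsubX : F.erase t ⊆ X := (Finset.erase_subset _ _).trans hFX
    rcases hF4 t ht with rfl | rfl | rfl | rfl
    · -- slide along `j`
      have hAc : Ac e j t := by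
        unfold Ac
        rw [ipe, ipe, Lire, Ljre, AEU.H72.ip_comm, ipij]
        have h1 : Real.sin η1 + Real.cos (η1 + η2) * Real.sin η2
            = Real.sin (η1 + η2) * Real.cos η2 := by
          have h3 := Real.sin_sq_add_cos_sq η2
          rw [Real.sin_add, Real.cos_add]
          linear_combination (-Real.sin η1) * h3
        have h2 : 0 < Real.cos γ * (Real.sin (η1 + η2) * Real.cos η2) :=
          mul_pos cg (mul_pos sa cos2)
        rw [← h1] at h2
        linarith only [h2]
      obtain ⟨w', w1, w2, w3, w4⟩ := (slx X hX j t v (VxOf.sw he.vi) x cl2 y cl3 hxv hyv).2 hAc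
      refine lt_of_pts ![w', x, y] (by
        intro k
        fin_cases k
        · exact w1
        · exact cl2
        · exact cl3) hsubX (by
        intro s hs
        rw [Finset.mem_erase] at hs
        rcases hF4 s hs.2 with e1 | e1 | e1 | e1
        · exact absurd e1 hs.1
        · exact ⟨0, by rw [e1]; exact w3⟩
        · exact ⟨1, by rw [e1]; exact he.xq⟩
        · exact ⟨2, by rw [e1]; exact he.yr⟩) ?_
      rw [he.body, lam3, lam3]
      rw [norm_sub_rev x w', norm_sub_rev w' y, norm_sub_rev x v, norm_sub_rev v y] at w4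
      linarith
    · -- slide along `i`
      have hcos1 : 0 < Real.cos η1 := by
        rw [cj] at hct
        unfold cJ at hct
        by_contra hcon
        have h1 : 2 * Real.sin (δ2 - δ1) * Real.cos η1 ≤ 0 :=
          mul_nonpos_of_nonneg_of_nonpos (by positivity) (not_lt.1 hcon)
        have := div_nonpos_of_nonpos_of_nonneg h1 sa.le
        linarith
      have hAc : Ac e i t := by
        unfold Ac
        rw [ipe, ipe, Lire, Ljre, ipij]
        have h1 : Real.sin η2 + Real.cos (η1 + η2) * Real.sin η1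
            = Real.sin (η1 + η2) * Real.cos η1 := by
          have h3 := Real.sin_sq_add_cos_sq η1
          rw [Real.sin_add, Real.cos_add]
          linear_combination (-Real.sin η2) * h3
        have h2 : 0 < Real.cos γ * (Real.sin (η1 + η2) * Real.cos η1) :=
          mul_pos cg (mul_pos sa hcos1)
        rw [← h1] at h2
        linarith only [h2]
      obtain ⟨w', w1, w2, w3, w4⟩ := (slx X hX i t v he.vi x cl2 y cl3 hxv hyv).2 hAc
      refine lt_of_pts ![w', x, y] (by
        intro k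
        fin_cases k
        · exact w1
        · exact cl2
        · exact cl3) hsubX (by
        intro s hs
        rw [Finset.mem_erase] at hs
        rcases hF4 s hs.2 with e1 | e1 | e1 | e1
        · exact ⟨0, by rw [e1]; exact w3⟩
        · exact absurd e1 hs.1
        · exact ⟨1, by rw [e1]; exact he.xq⟩
        · exact ⟨2, by rw [e1]; exact he.yr⟩) ?_
      rw [he.body, lam3, lam3]
      rw [norm_sub_rev x w', norm_sub_rev w' y, norm_sub_rev x v, norm_sub_rev v y] at w4
      linarith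
    · refine lt_of_pts ![v, y] (by
        intro k
        fin_cases k
        · exact cl1
        · exact cl3) hsubX (by
        intro s hs
        rw [Finset.mem_erase] at hs
        rcases hF4 s hs.2 with e1 | e1 | e1 | e1
        · exact ⟨0, by rw [e1]; exact he.vi.on₁⟩
        · exact ⟨0, by rw [e1]; exact he.vi.on₂⟩
        · exact absurd e1 hs.1
        · exact ⟨1, by rw [e1]; exact he.yr⟩) ?_
      rw [lam2, nvy]
      exact hlt3
    · refine lt_of_pts ![v, x] (by
        intro k
        fin_cases k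
        · exact cl1
        · exact cl2) hsubX (by
        intro s hs
        rw [Finset.mem_erase] at hs
        rcases hF4 s hs.2 with e1 | e1 | e1 | e1
        · exact ⟨0, by rw [e1]; exact he.vi.on₁⟩
        · exact ⟨0, by rw [e1]; exact he.vi.on₂⟩
        · exact ⟨1, by rw [e1]; exact he.xq⟩
        · exact absurd e1 hs.1) ?_
      rw [lam2, nvx]
      exact hlt1
  have hT : TornC X F h (lam h) c :=
    ⟨card4 hne, hnp, hsub, hfit, tch, rfl, cne, hdep, hcert, hval, huniq, hlt⟩
  -- standard form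
  have himg : F.image (mv g) = {lnU η1, lnD η2, lnN δ1 ρ, lnN δ2 ρ} := by
    rw [hF]
    simp only [Finset.image_insert, Finset.image_singleton, f.gi, f.gj, f.gq, f.gr]
  have hMm : ∀ s, s ∈ Mm F c ↔ s ∈ F ∧ c s < 0 := by
    intro s
    unfold Mm
    rw [Finset.mem_filter]
  have hSt : StdE F (Mm F c) (lam h) (η1 + η2) η2 γ := by
    refine ⟨g, η1, η2, δ1, δ2, ρ, p.a1, p.a2, p.a3, p.b1, p.b1', p.b2, p.b2', p.k, p.ka, p.k2,
      f.ρ0, himg, ?_, hlen, rfl, rfl, rfl⟩
    rcases p.alt with ⟨h1, h2⟩ | h1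
    · refine Or.inl ⟨h1, h2, ?_⟩
      rw [Finset.eq_empty_iff_forall_notMem]
      intro s hs
      obtain ⟨hs1, hs2⟩ := (hMm s).1 hs
      have hcos1 : 0 < Real.cos η1 := Real.cos_pos_of_mem_Ioo ⟨by linarith [p.a1], h1⟩
      rcases hF4 s hs1 with rfl | rfl | rfl | rfl
      · rw [ci] at hs2
        linarith
      · rw [cj] at hs2
        unfold cJ at hs2
        have : 0 < 2 * Real.sin (δ2 - δ1) * Real.cos η1 / Real.sin (η1 + η2) := by positivity
        linarith
      · rw [cq] at hs2
        linarith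
      · rw [cr] at hs2
        linarith
    · refine Or.inr ⟨h1, ?_⟩
      have hcos1 : Real.cos η1 < 0 :=
        Real.cos_neg_of_pi_div_two_lt_of_lt h1 (by linarith [p.a3, p.a2])
      have hcj : cJ η1 η2 (δ2 - δ1) < 0 := by
        unfold cJ
        apply div_neg_of_neg_of_pos _ sa
        have : 0 < 2 * Real.sin (δ2 - δ1) := by positivity
        nlinarith only [sk, hcos1]
      have hm : Mm F c = {j} := by
        ext s
        rw [hMm, Finset.mem_singleton]
        constructor
        · rintro ⟨hs1, hs2⟩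
          rcases hF4 s hs1 with rfl | rfl | rfl | rfl
          · rw [ci] at hs2
            linarith
          · rfl
          · rw [cq] at hs2
            linarith
          · rw [cr] at hs2
            linarith
        · rintro rfl
          exact ⟨mj, by rw [cj]; exact hcj⟩
      rw [hm, Finset.image_singleton, f.gj]
  -- the excentre
  have hdqr : dt q.1 r.1 ≠ 0 := hnp q mq r mr qr
  have hP0 : g.symm (ρ : ℂ) = vx q r := by
    apply eq_vx' hdqr
    · have := AEU.H72.act.2.2.2.2.2.1 g (g.symm (ρ : ℂ)) q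
      rw [AffineIsometryEquiv.apply_symm_apply, f.gq] at this
      have e2 : ip (lnN δ1 ρ).1 (ρ : ℂ) - (lnN δ1 ρ).2 = 0 := sub_self _
      rw [e2] at this
      linarith
    · have := AEU.H72.act.2.2.2.2.2.1 g (g.symm (ρ : ℂ)) r
      rw [AffineIsometryEquiv.apply_symm_apply, f.gr] at this
      have e2 : ip (lnN δ2 ρ).1 (ρ : ℂ) - (lnN δ2 ρ).2 = 0 := sub_self _
      rw [e2] at this
      linarith
  have gP0 : g (vx q r) = (ρ : ℂ) := by
    rw [← hP0, AffineIsometryEquiv.apply_symm_apply]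
  have nP0 : ‖vx q r - v‖ = ρ := by
    rw [nrm_g g, gP0, f.gv, sub_zero, Complex.norm_real, Real.norm_of_nonneg f.ρ0.le]
  have hvij : v = vx i j := eq_vx' (hnp i mi j mj ij) he.vi.on₁ he.vi.on₂
  have habs : |dt q.1 r.1| = Real.sin (δ2 - δ1) := by
    rw [← AEU.H72.act.2.2.2.2.2.2.2.2.1 g q r, f.gq, f.gr]
    have : dt (lnN δ1 (ρ : ℂ)).1 (lnN δ2 (ρ : ℂ)).1 = Real.sin (δ2 - δ1) := dt_ee_ee _ _
    rw [this, abs_of_pos sk]
  refine ⟨c, η1 + η2, η2, γ, hT, hSt, ?_, ?_, ?_, p.a3, p.a2, ?_, j, Or.inr rfl, ?_⟩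
  · unfold hE
    rw [habs, ← hvij, norm_sub_rev, nP0, hlen]
    ring
  · rw [ipij]
    ring
  · linarith [p.a1, p.a2]
  · linarith [p.a1, p.a3]
  · rw [nP0]
    have h1 : |ip (I * j.1) (vx q r - v)| = Real.cos η2 * ρ := by
      have e1 : ip (I * j.1) (vx q r - v) = dt j.1 (vx q r - v) := by
        simp [ip, dt]
        ring
      have e2 : L (vx q r - v) = (ρ : ℂ) := by
        have h2 := AEU.H72.app g (vx q r)
        have h3 := AEU.H72.app g v
        rw [gP0] at h2
        rw [f.gv] at h3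
        rw [map_sub]
        linear_combination -h2 + h3
      have e3 : dt j.1 (vx q r - v) ^ 2 = dt (L j.1) (L (vx q r - v)) ^ 2 := by
        rw [AEU.H72.dt_sq, AEU.H72.dt_sq, ip_map, L.norm_map, L.norm_map]
      have e4 : dt (L j.1) (ρ : ℂ) = ρ * Real.cos η2 := by
        rw [Lj, lnD_ee]
        unfold dt
        rw [ee_re, ee_im, Complex.ofReal_re, Complex.ofReal_im,
          show 3 * Real.pi / 2 - η2 = (Real.pi / 2 - η2) + Real.pi by ring,
          Real.sin_add_pi, Real.sin_pi_div_two_sub]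
        ring
      rw [e1, ← abs_of_pos (mul_pos cos2 f.ρ0), ← sq_eq_sq_iff_abs_eq_abs, e3, e2, e4]
      ring
    rcases abs_cases (ip (I * j.1) (vx q r - v)) with ⟨h2, -⟩ | ⟨h2, -⟩
    · left
      rw [← h1, h2]
    · right
      rw [← h1, h2]

end

/-- TOE -/
theorem toe (vxx : VxxStatement) (slx : SlxStatement) (arc : ArcStatement)
    (arz : ArzStatement) : ToeStatement := by
  classical
  intro X hX h i j q r v x y he hM hnp hi hj hne
  have fin : ∀ (i j : HP) (g : Iso2) (η1 η2 δ1 δ2 ρ l1 l3 : ℝ), Np {i, j, q, r} →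
      ip (v - vx q r) (I * i.1) ≠ 0 → ip (v - vx q r) (I * j.1) ≠ 0 →
      ip i.1 j.1 + ip q.1 r.1 ≠ 0 → Frm0 X h i j q r v x y g η1 η2 δ1 δ2 ρ l1 l3 →
      Concl X h i j q r v := by
    intro i j g η1 η2 δ1 δ2 ρ l1 l3 hnp hi hj hne f
    have hpi := Real.pi_pos
    have ka := f.ka vxx hX hne
    have Li : g.linearIsometryEquiv i.1 = (lnU η1).1 := congrArg Prod.fst f.gi
    have Lj : g.linearIsometryEquiv j.1 = (lnD η2).1 := congrArg Prod.fst f.gj
    have hdqr : dt q.1 r.1 ≠ 0 :=
      hnp q (by simp) r (by simp) f.she.ne.2.2.2.2.2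
    have hP0 : g.symm (ρ : ℂ) = vx q r := by
      apply eq_vx' hdqr
      · have := AEU.H72.act.2.2.2.2.2.1 g (g.symm (ρ : ℂ)) q
        rw [AffineIsometryEquiv.apply_symm_apply, f.gq] at this
        have e2 : ip (lnN δ1 ρ).1 (ρ : ℂ) - (lnN δ1 ρ).2 = 0 := sub_self _
        rw [e2] at this
        linarith
      · have := AEU.H72.act.2.2.2.2.2.1 g (g.symm (ρ : ℂ)) r
        rw [AffineIsometryEquiv.apply_symm_apply, f.gr] at this
        have e2 : ip (lnN δ2 ρ).1 (ρ : ℂ) - (lnN δ2 ρ).2 = 0 := sub_self _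
        rw [e2] at this
        linarith
    have gP0 : g (vx q r) = (ρ : ℂ) := by
      rw [← hP0, AffineIsometryEquiv.apply_symm_apply]
    have hLP : g.linearIsometryEquiv (v - vx q r) = -(ρ : ℂ) := by
      have h2 := AEU.H72.app g (vx q r)
      have h3 := AEU.H72.app g v
      rw [gP0] at h2
      rw [f.gv] at h3
      rw [map_sub]
      linear_combination h2 - h3
    have hk : ∀ s : HP, ip (v - vx q r) (I * s.1) ≠ 0 →
        dt (g.linearIsometryEquiv s.1) (ρ : ℂ) ≠ 0 := by
      intro s hs e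
      apply hs
      have e1 : ip (v - vx q r) (I * s.1) = dt s.1 (v - vx q r) := by
        simp [ip, dt]
        ring
      have e3 : dt s.1 (v - vx q r) ^ 2 = dt (g.linearIsometryEquiv s.1)
          (g.linearIsometryEquiv (v - vx q r)) ^ 2 := by
        rw [AEU.H72.dt_sq, AEU.H72.dt_sq, ip_map, LinearIsometryEquiv.norm_map,
          LinearIsometryEquiv.norm_map]
      have e4 : dt (g.linearIsometryEquiv s.1) (-(ρ : ℂ)) = 0 := by
        have : dt (g.linearIsometryEquiv s.1) (-(ρ : ℂ))
            = -dt (g.linearIsometryEquiv s.1) (ρ : ℂ) := by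
          simp [dt]
        rw [this, e, neg_zero]
      rw [hLP, e4] at e3
      rw [e1]
      exact pow_eq_zero_iff (two_ne_zero) |>.1 (by rw [e3]; ring)
    have n1 : η1 ≠ Real.pi / 2 := by
      rintro e
      apply hk i hi
      rw [Li, lnU_ee, e]
      unfold dt
      rw [ee_re, ee_im, Complex.ofReal_re, Complex.ofReal_im,
        show Real.pi / 2 + Real.pi / 2 = Real.pi by ring, Real.sin_pi]
      ring
    have n2 : η2 ≠ Real.pi / 2 := by
      rintro e
      apply hk j hj
      rw [Lj, lnD_ee, e]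
      unfold dt
      rw [ee_re, ee_im, Complex.ofReal_re, Complex.ofReal_im,
        show 3 * Real.pi / 2 - Real.pi / 2 = Real.pi by ring, Real.sin_pi]
      ring
    have k1 := f.k1
    have k2 := f.k2
    have k := f.k
    rcases lt_or_gt_of_ne n1 with h1 | h1
    · rcases lt_or_gt_of_ne n2 with h2 | h2
      · exact core vxx slx arc arz hX hnp f ⟨by linarith, by linarith, f.a3, f.b1, f.b1', f.b2,
          f.b2', k, ka, k1, k2, Or.inl ⟨h1, h2⟩⟩
      · apply Concl.sw
        have e : ({j, i, r, q} : Finset HP) = {i, j, q, r} := by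
          ext s
          simp only [Finset.mem_insert, Finset.mem_singleton]
          tauto
        exact core vxx slx arc arz hX (by rw [e]; exact hnp) f.sw ⟨by linarith, by linarith,
          by linarith [f.a3], by linarith [f.b2'], by linarith [f.b2], by linarith [f.b1'],
          by linarith [f.b1], by linarith, by linarith, by linarith, by linarith, Or.inr h2⟩
    · exact core vxx slx arc arz hX hnp f ⟨by linarith, by linarith, f.a3, f.b1, f.b1', f.b2,
        f.b2', k, ka, k1, k2, Or.inr h1⟩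
  have hdij : dt i.1 j.1 ≠ 0 := hnp i (by simp) j (by simp) he.ne.1
  obtain ⟨g, η1, η2, δ1, δ2, ρ, l1, l3, f | f⟩ := exists_frm0 vxx hX he hM hdij
  · exact fin i j g η1 η2 δ1 δ2 ρ l1 l3 hnp hi hj hne f
  · apply Concl.sw1
    have e : ({j, i, q, r} : Finset HP) = {i, j, q, r} := by
      ext s
      simp only [Finset.mem_insert, Finset.mem_singleton]
      tauto
    exact fin j i g η1 η2 δ1 δ2 ρ l1 l3 (by rw [e]; exact hnp) hj hi
      (by rw [AEU.H72.ip_comm]; exact hne) f

end Pool.Agent.XQ.H29
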