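import Pool.Agent.Helper29_XQ.Std
import Pool.Agent.Helper69_AEU.Tools

/-!
Squad XQ, module TOE, part 2: uniqueness of the torn body in standard position.
-/

namespace Pool.Agent.XQ.H29

open MeasureTheory Complex Filter Topology Pool.Agent.H62T
open Pool.Agent.H16F (Sublin)
open Pool.Agent.AEU
open Pool.Agent.AEU.H69 (ee ee_per sub_ii)

theorem ip_ee_ee (a b : ℝ) : ip (ee a) (ee b) = Real.cos (a - b) := by
  unfold ip
  rw [ee_re, ee_re, ee_im, ee_im, Real.cos_sub]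

theorem dt_ee_ee (a b : ℝ) : dt (ee a) (ee b) = Real.sin (b - a) := by
  unfold dt
  rw [ee_re, ee_re, ee_im, ee_im, Real.sin_sub]
  ring

/-- a point is determined by its scalar products with two independent vectors -/
theorem pt_ext {a b : ℂ} (hd : dt a b ≠ 0) {z w : ℂ} (h1 : ip a z = ip a w)
    (h2 : ip b z = ip b w) : z = w := by
  have h3 : ip a (z - w) = 0 := by
    unfold ip at h1 ⊢
    simp only [Complex.sub_re, Complex.sub_im]
    linarith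
  have h4 : ip b (z - w) = 0 := by
    unfold ip at h2 ⊢
    simp only [Complex.sub_re, Complex.sub_im]
    linarith
  unfold ip at h3 h4
  unfold dt at hd
  have e1 : (a.re * b.im - a.im * b.re) * (z - w).re = 0 := by
    linear_combination b.im * h3 - a.im * h4
  have e2 : (a.re * b.im - a.im * b.re) * (z - w).im = 0 := by
    linear_combination a.re * h4 - b.re * h3
  have e3 := (mul_eq_zero.1 e1).resolve_left hd
  have e4 := (mul_eq_zero.1 e2).resolve_left hd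
  exact sub_eq_zero.1 (Complex.ext e3 e4)

theorem ex_angle (a : ℝ) {w : ℂ} (hw : ‖w‖ = 1) :
    ∃ θ ∈ Set.Icc a (a + 2 * Real.pi), ee θ = w := by
  have e : w = ee (Complex.arg w) := by
    have := Complex.norm_mul_exp_arg_mul_I w
    rw [hw, Complex.ofReal_one, one_mul] at this
    exact this.symm
  refine ⟨toIcoMod Real.two_pi_pos a (Complex.arg w), ?_, ?_⟩
  · have h := toIcoMod_mem_Ico Real.two_pi_pos a (Complex.arg w)
    exact ⟨h.1, h.2.le⟩
  · conv_rhs => rw [e]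
    rw [toIcoMod]
    exact ee_per.sub_zsmul_eq _

/-- two sublinear functions which agree on an arc of length `2π` -/
theorem sub_ext {h h' : ℂ → ℝ} (hs : Sublin h) (hs' : Sublin h') (a : ℝ)
    (H : ∀ θ ∈ Set.Icc a (a + 2 * Real.pi), h (ee θ) = h' (ee θ)) : h = h' := by
  funext w
  by_cases hw : w = 0
  · rw [hw, (AEU.H69.sup h hs).1, (AEU.H69.sup h' hs').1]
  · have hn : ‖w‖ ≠ 0 := norm_ne_zero_iff.2 hw
    have h1 : ‖w / (‖w‖ : ℂ)‖ = 1 := by
      rw [norm_div, Complex.norm_real, norm_norm, div_self hn]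
    obtain ⟨θ, h2, h3⟩ := ex_angle a h1
    have e : w = ((‖w‖ : ℝ) : ℂ) * (w / (‖w‖ : ℂ)) := by
      have : (‖w‖ : ℂ) ≠ 0 := by exact_mod_cast hn
      field_simp
    rw [e, hs.2 _ _ (norm_nonneg _), hs'.2 _ _ (norm_nonneg _), ← h3, H θ h2]

/-- three points of a body which attain the support function on three arcs -/
theorem hf_of_arcs {h : ℂ → ℝ} (hs : Sublin h) {a b c : ℂ} (ha : In a h) (hb : In b h)
    (hc : In c h) {t0 : ℝ} (H : ∀ θ ∈ Set.Icc t0 (t0 + 2 * Real.pi),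
      h (ee θ) = ip (ee θ) a ∨ h (ee θ) = ip (ee θ) b ∨ h (ee θ) = ip (ee θ) c) :
    h = hf ![a, b, c] := by
  obtain ⟨h1, h2, -, h4, -, -⟩ := AEU.H69.hul 2 ![a, b, c]
  have h5 : ∀ w, hf ![a, b, c] w ≤ h w := h4 h (by
    intro i
    fin_cases i
    · exact ha
    · exact hb
    · exact hc)
  refine sub_ext hs h1 t0 (fun θ hθ => le_antisymm ?_ (h5 _))
  rcases H θ hθ with e | e | e
  · rw [e]
    exact h2 0 _
  · rw [e]
    exact h2 1 _
  · rw [e]
    exact h2 2 _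

theorem Par.dtij {η1 η2 δ1 δ2 : ℝ} (p : Par η1 η2 δ1 δ2) :
    dt (lnU η1).1 (lnD η2).1 ≠ 0 := by
  rw [lnU_ee, lnD_ee, dt_ee_ee]
  have e : 3 * Real.pi / 2 - η2 - (Real.pi / 2 + η1) = Real.pi - (η1 + η2) := by ring
  rw [e, Real.sin_pi_sub]
  exact p.sa.ne'

/-- uniqueness in standard position -/
theorem std_uniq {η1 η2 δ1 δ2 : ℝ} (p : Par η1 η2 δ1 δ2) (arc : ArcStatement)
    (arz : ArzStatement) {ρ : ℝ} {h : ℂ → ℝ} (hs : Sublin h) {X Y : ℂ}
    (hX : ip (ee (δ1 - δ2)) X = 0) (hX' : ip (ee δ1) X = ρ * Real.cos δ1)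
    (hY : ip (ee (δ2 - δ1)) Y = 0) (hY' : ip (ee δ2) Y = ρ * Real.cos δ2)
    (hi : h (lnU η1).1 = 0) (hj : h (lnD η2).1 = 0) (hq : h (ee δ1) = ρ * Real.cos δ1)
    (hr : h (ee δ2) = ρ * Real.cos δ2) (hL : lam h ≤ 2 * ρ * Real.sin (δ2 - δ1)) :
    h = hf ![0, X, Y] := by
  have hv : lam h ≤ cI η1 η2 (δ2 - δ1) * h (lnU η1).1 + cJ η1 η2 (δ2 - δ1) * h (lnD η2).1
      + 2 * Real.sin δ2 * h (ee δ1) + (-(2 * Real.sin δ1)) * h (ee δ2) := by
    rw [hi, hj, hq, hr]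
    refine hL.trans (le_of_eq ?_)
    rw [Real.sin_sub]
    ring
  obtain ⟨yv, yx, yy, iv, ix, iy, ax, ay, av⟩ := (std_cert p arc arz hs).2 hv
  have e0 : yv = 0 := by
    apply pt_ext p.dtij
    · rw [lnU_ee, ← av _ ⟨by linarith [p.k1], by linarith [p.k2, p.a3]⟩, ← lnU_ee, hi]
      simp [ip]
    · rw [lnD_ee, ← av _ ⟨by linarith [p.k1, p.a3], by linarith [p.k2]⟩, ← lnD_ee, hj]
      simp [ip]
  have hk2 : δ2 - δ1 ≤ 2 * Real.pi - (δ2 - δ1) := by linarith [p.b1, p.b2', Real.pi_pos]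
  have per : ee (2 * Real.pi - (δ2 - δ1)) = ee (δ1 - δ2) := by
    have := ee_per (δ1 - δ2)
    rw [← this]
    congr 1
    ring
  have ex : yx = X := by
    apply pt_ext (a := ee (δ1 - δ2)) (b := ee δ1)
    · rw [dt_ee_ee, show δ1 - (δ1 - δ2) = δ2 by ring]
      exact (Real.sin_pos_of_pos_of_lt_pi p.b2 (by linarith [p.b2', Real.pi_pos])).ne'
    · rw [hX, ← ax _ ⟨le_rfl, by linarith [p.b2]⟩, ← per, av _ ⟨hk2, le_rfl⟩, e0]
      simp [ip]
    · rw [hX', ← ax _ ⟨by linarith [p.b2], by linarith [p.b2]⟩, hq]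
  have ey : yy = Y := by
    apply pt_ext (a := ee (δ2 - δ1)) (b := ee δ2)
    · rw [dt_ee_ee, show δ2 - (δ2 - δ1) = δ1 by ring]
      exact (Real.sin_neg_of_neg_of_neg_pi_lt p.b1' (by linarith [p.b1, Real.pi_pos])).ne
    · rw [hY, ← ay _ ⟨by linarith [p.b1'], le_rfl⟩, av _ ⟨le_rfl, hk2⟩, e0]
      simp [ip]
    · rw [hY', ← ay _ ⟨by linarith [p.b1'], by linarith [p.b1']⟩, hr]
  rw [← e0, ← ex, ← ey]
  refine hf_of_arcs hs iv ix iy (t0 := δ1 - δ2) (fun θ hθ => ?_)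
  by_cases h1 : θ ≤ δ1 + δ2
  · exact Or.inr (Or.inl (ax θ ⟨hθ.1, h1⟩))
  · by_cases h2 : θ ≤ δ2 - δ1
    · exact Or.inr (Or.inr (ay θ ⟨(not_le.1 h1).le, h2⟩))
    · exact Or.inl (av θ ⟨(not_le.1 h2).le, by linarith [hθ.2]⟩)

end Pool.Agent.XQ.H29
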